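import Pool.Agent.Nks.Rk

/-!
# The average over the forms
-/

set_option autoImplicit false

namespace Pool.Agent.Nks

open Finset

variable {F : Type} [Field F] [Fintype F]

/-- aa: double counting: if every choice of the `f i` has at least `T` functionals then the sum over
the functionals of the number of choices is at least `T |F| ^ (|mon n d| |I|)`; for a functional `φ`
the number of choices is `∏ i, |F| ^ (|mon n d| - rk φ_(pos i))` by `card_zero`. -/
theorem asm_double {n j d : ℕ} {P I : Type} [Fintype P] [Fintype I] [DecidableEq P]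
    (b : P → (Fin n → ℕ)) (X : Finset (Fin n → ℕ)) (pos : I → P) (T : ℕ)
    (hT : ∀ f : I → ((Fin n → ℕ) → F), (∀ i, f i ∈ fs F (mon n d)) →
      T ≤ Nat.card {φ : (Fin n → ℕ) → F // φ ∈ fs F X ∧ ∀ i, ∀ α ∈ mon n j,
        ∑ γ ∈ mon n d, f i γ * φ (b (pos i) + (α + γ)) = 0}) :
    T * Fintype.card F ^ ((mon n d).card * Fintype.card I) ≤
      ∑ φ ∈ fs F X, Fintype.card F ^ (∑ i : I, ((mon n d).card -
        rk (mon n j) (mon n d) fun β => φ (b (pos i) + β))) := by
  classical
  have hq : 0 < Fintype.card F := Fintype.card_pos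
  let Kp : (I → ((Fin n → ℕ) → F)) → ((Fin n → ℕ) → F) → Prop := fun f φ =>
    ∀ i, ∀ α ∈ mon n j, ∑ γ ∈ mon n d, f i γ * φ (b (pos i) + (α + γ)) = 0
  have h1 : T * Fintype.card F ^ ((mon n d).card * Fintype.card I) =
      ∑ _f ∈ Fintype.piFinset (fun _ : I => fs F (mon n d)), T := by
    rw [Finset.sum_const, smul_eq_mul, mul_comm, Fintype.card_piFinset, Finset.prod_const,
      card_fs, Finset.card_univ, ← pow_mul]
  have h2 : ∀ f ∈ Fintype.piFinset (fun _ : I => fs F (mon n d)),
      T ≤ ∑ φ ∈ fs F X, if Kp f φ then 1 else 0 := by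
    intro f hf
    rw [Fintype.mem_piFinset] at hf
    rw [← Finset.card_filter]
    refine (hT f hf).trans (le_of_eq ?_)
    exact Nat.subtype_card _ (fun φ => by rw [Finset.mem_filter])
  rw [h1]
  refine (Finset.sum_le_sum h2).trans ?_
  rw [Finset.sum_comm]
  refine Finset.sum_le_sum fun φ _ => ?_
  rw [← Finset.card_filter]
  have h3 : (Fintype.piFinset (fun _ : I => fs F (mon n d))).filter (fun f => Kp f φ) =
      Fintype.piFinset fun i : I => (fs F (mon n d)).filter fun g => ∀ α ∈ mon n j,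
        ∑ γ ∈ mon n d, g γ * φ (b (pos i) + (α + γ)) = 0 := by
    ext f
    simp only [Finset.mem_filter, Fintype.mem_piFinset, Kp]
    exact ⟨fun h i => ⟨h.1 i, h.2 i⟩, fun h => ⟨fun i => (h i).1, fun i => (h i).2⟩⟩
  rw [h3, Fintype.card_piFinset, ← Finset.prod_pow_eq_pow_sum]
  refine le_of_eq (Finset.prod_congr rfl fun i _ => ?_)
  have h4 := card_zero (mon n j) (mon n d) fun β => φ (b (pos i) + β)
  have h5 : rk (mon n j) (mon n d) (fun β => φ (b (pos i) + β)) ≤ (mon n d).card := by
    rw [rk_comm]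
    exact rk_le _ _ _
  have h6 : Fintype.card F ^ (mon n d).card =
      Fintype.card F ^ ((mon n d).card - rk (mon n j) (mon n d) fun β => φ (b (pos i) + β)) *
        Fintype.card F ^ (rk (mon n j) (mon n d) fun β => φ (b (pos i) + β)) := by
    rw [← pow_add, Nat.sub_add_cancel h5]
  rw [h6] at h4
  exact Nat.eq_of_mul_eq_mul_right (pow_pos hq _) h4

/-- ab: the functionals with a given profile of ranks. With `𝒜 = {c | u c < |mon n j|}` the
functional is determined by the functions `φ_c`, `c ∈ 𝒜`, on `mon n (d + j)` and by its values at the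
`β ∈ X` which are above no `b c`, `c ∈ 𝒜`. -/
theorem asm_profile {n j d e : ℕ} {P : Type} [Fintype P] [DecidableEq P]
    (b : P → (Fin n → ℕ)) (hb : ∀ c, ∑ i, b c i + (d + j) = e) (X : Finset (Fin n → ℕ))
    (hX : X ⊆ mon n e) (mult : P → ℕ) (M₀ Q : ℕ) (hQ : 1 ≤ Q)
    (hcnt : ∀ c, ∀ u, u < (mon n j).card → ∀ 𝒮 : Finset ((Fin n → ℕ) → F),
      (∀ φ ∈ 𝒮, rk (mon n j) (mon n d) φ = u) →
      (∀ φ ∈ 𝒮, ∀ ψ ∈ 𝒮, (∀ β ∈ mon n (d + j), φ β = ψ β) → φ = ψ) →
      𝒮.card ≤ Q * Fintype.card F ^ (mult c * u))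
    (hhall : ∀ 𝒜 : Finset P, (X.filter fun β => ∀ c ∈ 𝒜, ¬ ∀ i, b c i ≤ β i).card ≤
      ∑ c ∈ 𝒜ᶜ, mult c * (mon n j).card + M₀)
    (u : P → ℕ) (hu : ∀ c, u c ≤ (mon n j).card) :
    Nat.card {φ : (Fin n → ℕ) → F // φ ∈ fs F X ∧
      ∀ c, rk (mon n j) (mon n d) (fun β => φ (b c + β)) = u c} ≤
      Q ^ Fintype.card P * Fintype.card F ^ (∑ c, mult c * u c + M₀) := by
  classical
  have hq : 0 < Fintype.card F := Fintype.card_pos
  set s := (mon n j).card with hs
  set 𝒜 : Finset P := univ.filter fun c => u c < s with h𝒜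
  set Y : Finset (Fin n → ℕ) := X.filter fun β => ∀ c ∈ 𝒜, ¬ ∀ i, b c i ≤ β i with hY
  set S : Finset ((Fin n → ℕ) → F) := (fs F X).filter fun φ =>
    ∀ c, rk (mon n j) (mon n d) (fun β => φ (b c + β)) = u c with hS
  let W : P → Finset ((Fin n → ℕ) → F) := fun c =>
    (fs F (mon n (d + j))).filter fun ψ => rk (mon n j) (mon n d) ψ = u c
  have hW : ∀ c ∈ 𝒜, (W c).card ≤ Q * Fintype.card F ^ (mult c * u c) := by
    intro c hc
    have huc : u c < s := (Finset.mem_filter.mp hc).2
    refine hcnt c (u c) huc (W c) ?_ ?_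
    · intro φ hφ
      exact (Finset.mem_filter.mp hφ).2
    · intro φ hφ ψ hψ hh
      have h1 := mem_fs.mp (Finset.mem_filter.mp hφ).1
      have h2 := mem_fs.mp (Finset.mem_filter.mp hψ).1
      funext β
      by_cases hβ : β ∈ mon n (d + j)
      · exact hh β hβ
      · rw [h1 β hβ, h2 β hβ]
  let tr : P → ((Fin n → ℕ) → F) → ((Fin n → ℕ) → F) := fun c φ β =>
    if β ∈ mon n (d + j) then φ (b c + β) else 0
  have htr : ∀ c, ∀ φ ∈ S, tr c φ ∈ W c := by
    intro c φ hφ
    refine Finset.mem_filter.mpr ⟨mem_fs.mpr fun β hβ => ?_, ?_⟩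
    · exact if_neg hβ
    · rw [← (Finset.mem_filter.mp hφ).2 c]
      refine rk_congr fun α hα γ hγ => ?_
      have : α + γ ∈ mon n (d + j) := by
        rw [mem_mon] at hα hγ ⊢
        simp only [Pi.add_apply, Finset.sum_add_distrib]
        omega
      exact if_pos this
  have hcard : Nat.card {φ : (Fin n → ℕ) → F // φ ∈ fs F X ∧
      ∀ c, rk (mon n j) (mon n d) (fun β => φ (b c + β)) = u c} = S.card :=
    Nat.subtype_card S fun φ => by rw [hS, Finset.mem_filter]
  rw [hcard]
  let f : S → ((c : 𝒜) → W c.1) × (Y → F) := fun φ =>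
    (fun c => ⟨tr c.1 φ.1, htr c.1 φ.1 φ.2⟩, fun β => φ.1 β.1)
  have hf : Function.Injective f := by
    intro φ ψ hfe
    have e1 : ∀ c ∈ 𝒜, tr c φ.1 = tr c ψ.1 := by
      intro c hc
      have := congrFun (congrArg Prod.fst hfe) ⟨c, hc⟩
      exact congrArg Subtype.val this
    have e2 : ∀ β ∈ Y, φ.1 β = ψ.1 β := by
      intro β hβ
      exact congrFun (congrArg Prod.snd hfe) ⟨β, hβ⟩
    apply Subtype.ext
    funext β
    by_cases hβX : β ∈ X
    · by_cases hβY : β ∈ Y
      · exact e2 β hβY
      · have : ∃ c ∈ 𝒜, ∀ i, b c i ≤ β i := by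
          by_contra hcon
          push Not at hcon
          apply hβY
          rw [hY, Finset.mem_filter]
          refine ⟨hβX, fun c hc hh => ?_⟩
          obtain ⟨i, hi⟩ := hcon c hc
          exact absurd (hh i) (by omega)
        obtain ⟨c, hc, hle⟩ := this
        have hsum : ∑ i, β i = e := mem_mon.mp (hX hβX)
        have hδ : β - b c ∈ mon n (d + j) := by
          rw [mem_mon]
          have h3 : ∑ i, (β - b c) i + ∑ i, b c i = ∑ i, β i := by
            rw [← Finset.sum_add_distrib]
            refine Finset.sum_congr rfl fun i _ => ?_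
            have := hle i
            simp only [Pi.sub_apply]
            omega
          have := hb c
          omega
        have hre : b c + (β - b c) = β := by
          funext i
          have := hle i
          simp only [Pi.add_apply, Pi.sub_apply]
          omega
        have h4 := congrFun (e1 c hc) (β - b c)
        have h5 : tr c φ.1 (β - b c) = φ.1 β := (if_pos hδ).trans (by rw [hre])
        have h6 : tr c ψ.1 (β - b c) = ψ.1 β := (if_pos hδ).trans (by rw [hre])
        rw [h5, h6] at h4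
        exact h4
    · have h1 := mem_fs.mp (Finset.mem_filter.mp φ.2).1 β hβX
      have h2 := mem_fs.mp (Finset.mem_filter.mp ψ.2).1 β hβX
      rw [h1, h2]
  have hle := Fintype.card_le_of_injective f hf
  rw [Fintype.card_coe, Fintype.card_prod, Fintype.card_pi, Fintype.card_fun,
    Fintype.card_coe] at hle
  have hprod : ∏ c : 𝒜, Fintype.card (W c.1) ≤
      Q ^ Fintype.card P * Fintype.card F ^ (∑ c ∈ 𝒜, mult c * u c) := by
    have h7 : ∏ c : 𝒜, Fintype.card (W c.1) = ∏ c ∈ 𝒜, (W c).card := by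
      rw [← Finset.prod_coe_sort 𝒜 fun c => (W c).card]
      refine Finset.prod_congr rfl fun c _ => ?_
      rw [Fintype.card_coe]
    rw [h7]
    calc ∏ c ∈ 𝒜, (W c).card ≤ ∏ c ∈ 𝒜, (Q * Fintype.card F ^ (mult c * u c)) :=
          Finset.prod_le_prod (fun _ _ => Nat.zero_le _) hW
      _ = Q ^ 𝒜.card * Fintype.card F ^ (∑ c ∈ 𝒜, mult c * u c) := by
          rw [Finset.prod_mul_distrib, Finset.prod_const, Finset.prod_pow_eq_pow_sum]
      _ ≤ _ := by
          refine Nat.mul_le_mul_right _ (Nat.pow_le_pow_right hQ ?_)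
          rw [← Finset.card_univ]
          exact Finset.card_le_card (Finset.subset_univ _)
  have hYc : Y.card ≤ ∑ c ∈ 𝒜ᶜ, mult c * u c + M₀ := by
    refine (hhall 𝒜).trans (le_of_eq ?_)
    congr 1
    refine Finset.sum_congr rfl fun c hc => ?_
    have hnc : ¬ u c < s := by
      intro hh
      exact (Finset.mem_compl.mp hc) (Finset.mem_filter.mpr ⟨Finset.mem_univ c, hh⟩)
    have := hu c
    have h8 : u c = s := by omega
    rw [h8]
  calc S.card ≤ (∏ c : 𝒜, Fintype.card (W c.1)) * Fintype.card F ^ Y.card := hle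
    _ ≤ (Q ^ Fintype.card P * Fintype.card F ^ (∑ c ∈ 𝒜, mult c * u c)) *
        Fintype.card F ^ (∑ c ∈ 𝒜ᶜ, mult c * u c + M₀) :=
        Nat.mul_le_mul hprod (Nat.pow_le_pow_right hq hYc)
    _ = Q ^ Fintype.card P * Fintype.card F ^ (∑ c, mult c * u c + M₀) := by
        rw [mul_assoc, ← pow_add, ← Finset.sum_add_sum_compl 𝒜 fun c => mult c * u c, add_assoc]

/-- ac: from aa and ab; there are at most `(s + 1) ^ |P|` profiles. -/
theorem asm {n j d e : ℕ} {P I : Type} [Fintype P] [Fintype I] [DecidableEq P]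
    (b : P → (Fin n → ℕ)) (hb : ∀ c, ∑ i, b c i + (d + j) = e)
    (X : Finset (Fin n → ℕ)) (hX : X ⊆ mon n e) (pos : I → P) (M₀ Q : ℕ) (hQ : 1 ≤ Q)
    (hcnt : ∀ c, ∀ u, u < (mon n j).card → ∀ 𝒮 : Finset ((Fin n → ℕ) → F),
      (∀ φ ∈ 𝒮, rk (mon n j) (mon n d) φ = u) →
      (∀ φ ∈ 𝒮, ∀ ψ ∈ 𝒮, (∀ β ∈ mon n (d + j), φ β = ψ β) → φ = ψ) →
      𝒮.card ≤ Q * Fintype.card F ^ ((univ.filter fun i => pos i = c).card * u))
    (hhall : ∀ 𝒜 : Finset P, (X.filter fun β => ∀ c ∈ 𝒜, ¬ ∀ i, b c i ≤ β i).card ≤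
      ∑ c ∈ 𝒜ᶜ, (univ.filter fun i => pos i = c).card * (mon n j).card + M₀)
    (hq : (((mon n j).card + 1) * Q) ^ Fintype.card P < Fintype.card F) :
    ∃ f : I → ((Fin n → ℕ) → F), (∀ i, f i ∈ fs F (mon n d)) ∧
      Nat.card {φ : (Fin n → ℕ) → F // φ ∈ fs F X ∧ ∀ i, ∀ α ∈ mon n j,
        ∑ γ ∈ mon n d, f i γ * φ (b (pos i) + (α + γ)) = 0} < Fintype.card F ^ (M₀ + 1) := by
  classical
  have hq0 : 0 < Fintype.card F := Fintype.card_pos
  by_contra hcon
  push Not at hcon
  have hdouble := asm_double b X pos (Fintype.card F ^ (M₀ + 1)) hcon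
  set s := (mon n j).card with hs
  set D := (mon n d).card with hD
  set q := Fintype.card F with hqdef
  let prof : ((Fin n → ℕ) → F) → P → ℕ := fun φ c =>
    rk (mon n j) (mon n d) fun β => φ (b c + β)
  have hprof : ∀ φ c, prof φ c ≤ s := fun φ c => rk_le _ _ _
  have hprofD : ∀ φ c, prof φ c ≤ D := fun φ c => by
    have : prof φ c = rk (mon n d) (mon n j) fun β => φ (b c + β) := rk_comm _ _ _
    rw [this]
    exact rk_le _ _ _
  have hmaps : ∀ φ ∈ fs F X, prof φ ∈ Fintype.piFinset fun _ : P => Finset.range (s + 1) := by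
    intro φ _
    rw [Fintype.mem_piFinset]
    intro c
    rw [Finset.mem_range]
    have := hprof φ c
    omega
  have hsum : ∑ φ ∈ fs F X, q ^ (∑ i : I, (D - prof φ (pos i))) ≤
      (s + 1) ^ Fintype.card P * (Q ^ Fintype.card P * q ^ (M₀ + D * Fintype.card I)) := by
    rw [← Finset.sum_fiberwise_of_maps_to hmaps]
    have hterm : ∀ u ∈ Fintype.piFinset fun _ : P => Finset.range (s + 1),
        ∑ φ ∈ (fs F X).filter (fun φ => prof φ = u), q ^ (∑ i : I, (D - prof φ (pos i))) ≤
          Q ^ Fintype.card P * q ^ (M₀ + D * Fintype.card I) := by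
      intro u hu
      have hus : ∀ c, u c ≤ s := fun c => by
        have := Finset.mem_range.mp (Fintype.mem_piFinset.mp hu c)
        omega
      by_cases hne : ((fs F X).filter fun φ => prof φ = u).Nonempty
      · obtain ⟨φ0, hφ0⟩ := hne
        have huD : ∀ c, u c ≤ D := fun c => by
          rw [← (Finset.mem_filter.mp hφ0).2]
          exact hprofD φ0 c
        have h1 : ∑ φ ∈ (fs F X).filter (fun φ => prof φ = u),
            q ^ (∑ i : I, (D - prof φ (pos i)))
            = ((fs F X).filter fun φ => prof φ = u).card * q ^ (∑ i : I, (D - u (pos i))) := by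
          rw [Finset.sum_congr rfl (g := fun _ => q ^ (∑ i : I, (D - u (pos i)))) fun φ hφ => by
            rw [(Finset.mem_filter.mp hφ).2]]
          rw [Finset.sum_const, smul_eq_mul]
        have h2 : ((fs F X).filter fun φ => prof φ = u).card ≤
            Q ^ Fintype.card P *
              q ^ (∑ c, (univ.filter fun i => pos i = c).card * u c + M₀) := by
          have h3 := asm_profile b hb X hX (fun c => (univ.filter fun i => pos i = c).card) M₀ Q hQ
            hcnt hhall u hus
          refine le_trans (le_of_eq ?_) h3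
          refine (Nat.subtype_card _ fun φ => ?_).symm
          rw [Finset.mem_filter]
          constructor
          · rintro ⟨h4, h5⟩
            exact ⟨h4, fun c => congrFun h5 c⟩
          · rintro ⟨h4, h5⟩
            exact ⟨h4, funext h5⟩
        have h6 : ∑ c, (univ.filter fun i => pos i = c).card * u c = ∑ i : I, u (pos i) := by
          rw [← Finset.sum_fiberwise_of_maps_to (s := (univ : Finset I)) (t := (univ : Finset P))
            (g := pos) (fun _ _ => Finset.mem_univ _)]
          refine Finset.sum_congr rfl fun c _ => ?_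
          rw [Finset.sum_congr rfl (g := fun _ => u c) fun i hi => by
            rw [(Finset.mem_filter.mp hi).2]]
          rw [Finset.sum_const, smul_eq_mul]
        have h7 : ∑ i : I, u (pos i) + ∑ i : I, (D - u (pos i)) = D * Fintype.card I := by
          rw [← Finset.sum_add_distrib]
          rw [Finset.sum_congr rfl (g := fun _ => D) fun i _ => by
            have := huD (pos i)
            omega]
          rw [Finset.sum_const, smul_eq_mul, Finset.card_univ, mul_comm]
        rw [h1]
        calc ((fs F X).filter fun φ => prof φ = u).card * q ^ (∑ i : I, (D - u (pos i)))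
            ≤ (Q ^ Fintype.card P *
              q ^ (∑ c, (univ.filter fun i => pos i = c).card * u c + M₀)) *
              q ^ (∑ i : I, (D - u (pos i))) := Nat.mul_le_mul_right _ h2
          _ = Q ^ Fintype.card P * q ^ (M₀ + D * Fintype.card I) := by
              rw [h6, mul_assoc, ← pow_add, ← h7]
              congr 2
              omega
      · rw [Finset.not_nonempty_iff_eq_empty] at hne
        rw [hne, Finset.sum_empty]
        exact Nat.zero_le _
    calc _ ≤ ∑ _u ∈ Fintype.piFinset fun _ : P => Finset.range (s + 1),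
          Q ^ Fintype.card P * q ^ (M₀ + D * Fintype.card I) := Finset.sum_le_sum hterm
      _ = _ := by
          rw [Finset.sum_const, smul_eq_mul, Fintype.card_piFinset]
          simp only [Finset.card_range, Finset.prod_const, Finset.card_univ]
  have hfin : q ^ (M₀ + 1) * q ^ (D * Fintype.card I) ≤
      ((s + 1) * Q) ^ Fintype.card P * q ^ (M₀ + D * Fintype.card I) := by
    calc _ ≤ _ := hdouble
      _ ≤ _ := hsum
      _ = _ := by rw [mul_pow]; ring
  have hfin2 : q * q ^ (M₀ + D * Fintype.card I) ≤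
      ((s + 1) * Q) ^ Fintype.card P * q ^ (M₀ + D * Fintype.card I) := by
    refine le_trans (le_of_eq ?_) hfin
    rw [← pow_add, ← pow_succ']
    congr 1
    omega
  have hlast := Nat.le_of_mul_le_mul_right hfin2 (Nat.pow_pos hq0)
  omega

end Pool.Agent.Nks
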