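import Pool.Agent.Nks.Mon

/-!
# The number of free exponents
-/

set_option autoImplicit false

namespace Pool.Agent.Nks

open Finset

/-- The central part of `[0, m / n]`. -/
def ctr (n m : ℕ) : Finset ℕ := Finset.Icc (m / (2 * n)) (m / n)

/-- The uniform distribution on `ctr n m`. -/
noncomputable def wt (n m a : ℕ) : ℝ := if a ∈ ctr n m then 1 / ((ctr n m).card : ℝ) else 0

/-- ca0 -/
theorem wt_nonneg (n m a : ℕ) : 0 ≤ wt n m a := by
  unfold wt
  split_ifs
  · positivity
  · exact le_refl 0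

private theorem ca_half (n m : ℕ) : m / (2 * n) = m / n / 2 := by
  rw [Nat.mul_comm, Nat.div_div_eq_div_mul]

/-- ca1: `|ctr n m| ≥ m / (2n) + 1` (floor), so `(m + 1) ≤ 2 n |ctr n m|`. -/
theorem card_ctr {n : ℕ} (hn : 2 ≤ n) (m : ℕ) :
    m / (2 * n) + 1 ≤ (ctr n m).card ∧ m + 1 ≤ 2 * n * (ctr n m).card := by
  have hc : (ctr n m).card = m / n + 1 - m / (2 * n) := by
    unfold ctr
    rw [Nat.card_Icc]
  have h1 := ca_half n m
  have h2 : m < n * (m / n + 1) := by
    have := Nat.lt_mul_div_succ m (show 0 < n by omega)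
    simpa using this
  rw [hc, h1]
  set k := m / n with hk
  refine ⟨by omega, ?_⟩
  have h3 : k + 1 ≤ 2 * (k + 1 - k / 2) := by omega
  calc m + 1 ≤ n * (k + 1) := h2
    _ ≤ n * (2 * (k + 1 - k / 2)) := Nat.mul_le_mul_left n h3
    _ = 2 * n * (k + 1 - k / 2) := by ring

/-- ca2: it is a distribution. -/
theorem sum_wt {n : ℕ} (hn : 2 ≤ n) (m T : ℕ) (h : m / n < T) :
    ∑ a ∈ range T, wt n m a = 1 := by
  unfold wt
  rw [← Finset.sum_filter]
  have h1 : (range T).filter (fun a => a ∈ ctr n m) = ctr n m := by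
    ext a
    simp only [Finset.mem_filter, Finset.mem_range]
    constructor
    · exact fun h => h.2
    · intro ha
      refine ⟨?_, ha⟩
      unfold ctr at ha
      rw [Finset.mem_Icc] at ha
      omega
  rw [h1, Finset.sum_const, nsmul_eq_mul]
  have h2 := (card_ctr hn m).1
  have h3 : (0 : ℝ) < (ctr n m).card := by
    have : 0 < (ctr n m).card := lt_of_lt_of_le (Nat.succ_pos _) h2
    exact_mod_cast this
  field_simp

private theorem ca_wt_le {n : ℕ} (hn : 2 ≤ n) (m a : ℕ) : wt n m a ≤ 2 * n / ((m : ℝ) + 1) := by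
  have h1 := (card_ctr hn m).2
  have h0 := (card_ctr hn m).1
  have h3 : (0 : ℝ) < (ctr n m).card := by
    have : 0 < (ctr n m).card := lt_of_lt_of_le (Nat.succ_pos _) h0
    exact_mod_cast this
  have h4 : ((m : ℝ) + 1) ≤ 2 * n * (ctr n m).card := by exact_mod_cast h1
  have h5 : (0 : ℝ) < (m : ℝ) + 1 := by positivity
  unfold wt
  split_ifs
  · rw [div_le_div_iff₀ h3 h5]
    linarith
  · positivity

private theorem ca_wt_zero {n m a : ℕ} (h : a ∉ ctr n m) : wt n m a = 0 := by
  unfold wt
  rw [if_neg h]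

/-- ca3: `n a ≤ b < 2 n (a + 1)`, at most `n (a + 2)` values `b`, each of weight at most
`1 / (a / 2 + 1) ≤ 2 / (a + 1)`. -/
theorem sum_wt_low {n : ℕ} (hn : 2 ≤ n) (j a : ℕ) :
    ∑ b ∈ range j, wt n b a ≤ 4 * n := by
  have hn0 : 0 < n := by omega
  have h1 : ∀ b ∈ range j, wt n b a ≤
      if b ∈ Finset.Ico (n * a) (2 * n * (a + 1)) then (2 / ((a : ℝ) + 1)) else 0 := by
    intro b _
    by_cases hb : a ∈ ctr n b
    · have hb' := hb
      unfold ctr at hb'
      rw [Finset.mem_Icc] at hb'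
      have h2 : n * a ≤ b := by
        have := (Nat.le_div_iff_mul_le hn0).1 hb'.2
        linarith [Nat.mul_comm n a]
      have h3 : b < 2 * n * (a + 1) := by
        have := (Nat.div_lt_iff_lt_mul (show 0 < 2 * n by omega)).1 (Nat.lt_succ_of_le hb'.1)
        calc b < (a + 1) * (2 * n) := this
          _ = 2 * n * (a + 1) := by ring
      rw [if_pos (Finset.mem_Ico.2 ⟨h2, h3⟩)]
      unfold wt
      rw [if_pos hb]
      have h4 := (card_ctr hn b).1
      have h5 : a / 2 ≤ b / (2 * n) := by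
        rw [ca_half]
        apply Nat.div_le_div_right
        rw [Nat.le_div_iff_mul_le hn0]
        linarith [Nat.mul_comm n a]
      have h6 : a + 1 ≤ 2 * (ctr n b).card := by omega
      have h7 : ((a : ℝ) + 1) ≤ 2 * (ctr n b).card := by exact_mod_cast h6
      have h8 : (0 : ℝ) < (ctr n b).card := by
        have : 0 < (ctr n b).card := by omega
        exact_mod_cast this
      rw [div_le_div_iff₀ h8 (by positivity)]
      linarith
    · rw [ca_wt_zero hb]
      split_ifs
      · positivity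
      · exact le_refl 0
  calc ∑ b ∈ range j, wt n b a ≤ ∑ b ∈ range j,
        (if b ∈ Finset.Ico (n * a) (2 * n * (a + 1)) then (2 / ((a : ℝ) + 1)) else 0) :=
        Finset.sum_le_sum h1
    _ = ∑ b ∈ (range j).filter (fun b => b ∈ Finset.Ico (n * a) (2 * n * (a + 1))),
        (2 / ((a : ℝ) + 1)) := by rw [Finset.sum_filter]
    _ ≤ ∑ b ∈ Finset.Ico (n * a) (2 * n * (a + 1)), (2 / ((a : ℝ) + 1)) := by
        apply Finset.sum_le_sum_of_subset_of_nonneg
        · intro b hb
          exact (Finset.mem_filter.1 hb).2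
        · intro b _ _
          positivity
    _ = ((2 * n * (a + 1) - n * a : ℕ) : ℝ) * (2 / ((a : ℝ) + 1)) := by
        rw [Finset.sum_const, Nat.card_Ico, nsmul_eq_mul]
    _ ≤ 4 * n := by
        have h9 : ((2 * n * (a + 1) - n * a : ℕ) : ℝ) ≤ 2 * n * ((a : ℝ) + 1) := by
          have : 2 * n * (a + 1) - n * a ≤ 2 * n * (a + 1) := Nat.sub_le _ _
          exact_mod_cast this
        have h10 : (0 : ℝ) < (a : ℝ) + 1 := by positivity
        calc ((2 * n * (a + 1) - n * a : ℕ) : ℝ) * (2 / ((a : ℝ) + 1))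
            ≤ (2 * n * ((a : ℝ) + 1)) * (2 / ((a : ℝ) + 1)) := by
              apply mul_le_mul_of_nonneg_right h9
              positivity
          _ = 4 * n := by
              field_simp
              ring

/-- ca4: `sum_wt_low` for `b < j`, weight at most `2 n / (j + 1)` for `j ≤ b ≤ d + j`. -/
theorem sum_wt_all {n : ℕ} (hn : 2 ≤ n) (d j a : ℕ) :
    ∑ b ∈ range (d + j + 1), wt n (min b j) a ≤ 4 * n + 2 * n * ((d + 1) / (j + 1) : ℝ) := by
  have h1 : range (d + j + 1) = range j ∪ Finset.Ico j (d + j + 1) := by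
    ext b
    simp only [Finset.mem_range, Finset.mem_union, Finset.mem_Ico]
    omega
  have h2 : Disjoint (range j) (Finset.Ico j (d + j + 1)) := by
    rw [Finset.disjoint_left]
    intro b hb hb'
    rw [Finset.mem_range] at hb
    rw [Finset.mem_Ico] at hb'
    omega
  rw [h1, Finset.sum_union h2]
  apply add_le_add
  · calc ∑ b ∈ range j, wt n (min b j) a = ∑ b ∈ range j, wt n b a := by
          apply Finset.sum_congr rfl
          intro b hb
          rw [Finset.mem_range] at hb
          rw [min_eq_left hb.le]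
      _ ≤ 4 * n := sum_wt_low hn j a
  · calc ∑ b ∈ Finset.Ico j (d + j + 1), wt n (min b j) a
        ≤ ∑ b ∈ Finset.Ico j (d + j + 1), 2 * n / ((j : ℝ) + 1) := by
          apply Finset.sum_le_sum
          intro b hb
          rw [Finset.mem_Ico] at hb
          rw [min_eq_right hb.1]
          exact ca_wt_le hn j a
      _ = 2 * n * ((d + 1) / (j + 1) : ℝ) := by
          rw [Finset.sum_const, Nat.card_Ico, nsmul_eq_mul]
          have : d + j + 1 - j = d + 1 := by omega
          rw [this]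
          push_cast
          ring

/-- ca5: if `g + a < j` then `a ≤ (g + a) / n`, so `a ≤ g`, at most `g + 1` values of weight at most
`2 n / (g + 1)`; if `g + a ≥ j` then the weight is at most `2 n / (j + 1)`. -/
theorem sum_wt_shift {n : ℕ} (hn : 2 ≤ n) (g j : ℕ) :
    ∑ a ∈ range (j + 1), wt n (min (g + a) j) a ≤ 4 * n := by
  have hn0 : 0 < n := by omega
  have h1 : ∀ a ∈ range (j + 1), wt n (min (g + a) j) a ≤
      (if a ∈ range (g + 1) then 2 * n / ((g : ℝ) + 1) else 0) + 2 * n / ((j : ℝ) + 1) := by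
    intro a _
    by_cases h : g + a < j
    · rw [min_eq_left h.le]
      have h5 : (0 : ℝ) ≤ 2 * n / ((j : ℝ) + 1) := by positivity
      by_cases h2 : a ∈ ctr n (g + a)
      · have h3 : a ∈ range (g + 1) := by
          unfold ctr at h2
          rw [Finset.mem_Icc] at h2
          have := (Nat.le_div_iff_mul_le hn0).1 h2.2
          rw [Finset.mem_range]
          have h4 : a * 2 ≤ a * n := Nat.mul_le_mul_left a hn
          omega
        rw [if_pos h3]
        have h4 : wt n (g + a) a ≤ 2 * n / (((g + a : ℕ) : ℝ) + 1) := ca_wt_le hn (g + a) a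
        have h6 : 2 * (n : ℝ) / (((g + a : ℕ) : ℝ) + 1) ≤ 2 * n / ((g : ℝ) + 1) := by
          apply div_le_div_of_nonneg_left
          · positivity
          · positivity
          · push_cast
            have : (0 : ℝ) ≤ (a : ℝ) := Nat.cast_nonneg a
            linarith
        linarith
      · rw [ca_wt_zero h2]
        split_ifs <;> positivity
    · rw [min_eq_right (by omega)]
      have h4 := ca_wt_le hn j a
      have : (0 : ℝ) ≤ (if a ∈ range (g + 1) then 2 * n / ((g : ℝ) + 1) else 0) := by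
        split_ifs
        · positivity
        · exact le_refl 0
      linarith
  calc ∑ a ∈ range (j + 1), wt n (min (g + a) j) a
      ≤ ∑ a ∈ range (j + 1), ((if a ∈ range (g + 1) then 2 * n / ((g : ℝ) + 1) else 0) +
        2 * n / ((j : ℝ) + 1)) := Finset.sum_le_sum h1
    _ = ∑ a ∈ range (j + 1), (if a ∈ range (g + 1) then 2 * n / ((g : ℝ) + 1) else 0) +
        ∑ a ∈ range (j + 1), 2 * n / ((j : ℝ) + 1) := Finset.sum_add_distrib
    _ ≤ 2 * n + 2 * n := by
        apply add_le_add
        · rw [← Finset.sum_filter]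
          calc ∑ a ∈ (range (j + 1)).filter (fun a => a ∈ range (g + 1)), 2 * n / ((g : ℝ) + 1)
              ≤ ∑ a ∈ range (g + 1), 2 * n / ((g : ℝ) + 1) := by
                apply Finset.sum_le_sum_of_subset_of_nonneg
                · intro b hb
                  exact (Finset.mem_filter.1 hb).2
                · intro b _ _
                  positivity
            _ = 2 * n := by
                rw [Finset.sum_const, Finset.card_range, nsmul_eq_mul]
                push_cast
                field_simp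
        · rw [Finset.sum_const, Finset.card_range, nsmul_eq_mul]
          push_cast
          have : (0 : ℝ) < (j : ℝ) + 1 := by positivity
          apply le_of_eq
          field_simp
    _ = 4 * n := by ring

/-- The exponent of degree `j` with the values `α'` outside `i₀`. -/
def ext {n : ℕ} (j : ℕ) (i₀ : Fin n) (α' : {i : Fin n // i ≠ i₀} → ℕ) : Fin n → ℕ :=
  fun i => if h : i ≠ i₀ then α' ⟨i, h⟩ else j - ∑ i', α' i'

private theorem ext_ne {n : ℕ} (j : ℕ) (i₀ : Fin n) (α' : {i : Fin n // i ≠ i₀} → ℕ)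
    (i : {i : Fin n // i ≠ i₀}) : ext j i₀ α' i.1 = α' i := by
  unfold ext
  rw [dif_pos i.2]

private theorem ext_self {n : ℕ} (j : ℕ) (i₀ : Fin n) (α' : {i : Fin n // i ≠ i₀} → ℕ) :
    ext j i₀ α' i₀ = j - ∑ i', α' i' := by
  unfold ext
  rw [dif_neg (by simp)]

private theorem cb_sum {n : ℕ} (i₀ : Fin n) (f : Fin n → ℕ) :
    ∑ i, f i = f i₀ + ∑ i : {i : Fin n // i ≠ i₀}, f i.1 := by
  rw [← Finset.add_sum_erase Finset.univ f (Finset.mem_univ i₀)]
  congr 1
  rw [← Finset.sum_subtype (Finset.univ.erase i₀) (p := fun i => i ≠ i₀) (by simp) f]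

/-- cb1: the box consists of divisors of degree `j`. -/
theorem ext_mem {n j : ℕ} (hn : 2 ≤ n) (i₀ : Fin n) (β : Fin n → ℕ) (h0 : j ≤ β i₀)
    (α' : {i : Fin n // i ≠ i₀} → ℕ) (h : ∀ i, α' i ∈ ctr n (min (β i.1) j)) :
    ext j i₀ α' ∈ mon n j ∧ ext j i₀ α' ≤ β := by
  have hn0 : 0 < n := by omega
  have h1 : ∀ i, α' i ≤ min (β i.1) j / n := by
    intro i
    have := h i
    unfold ctr at this
    rw [Finset.mem_Icc] at this
    exact this.2
  have h2 : ∑ i', α' i' ≤ j := by
    calc ∑ i', α' i' ≤ ∑ _i' : {i : Fin n // i ≠ i₀}, j / n := by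
          apply Finset.sum_le_sum
          intro i _
          exact (h1 i).trans (Nat.div_le_div_right (min_le_right _ _))
      _ = (n - 1) * (j / n) := by
          rw [Finset.sum_const, Finset.card_univ, smul_eq_mul]
          congr 1
          rw [Fintype.card_subtype_compl, Fintype.card_fin, Fintype.card_subtype_eq]
      _ ≤ n * (j / n) := Nat.mul_le_mul_right _ (by omega)
      _ ≤ j := Nat.mul_div_le j n
  constructor
  · rw [mem_mon, cb_sum i₀]
    have : ∑ i : {i : Fin n // i ≠ i₀}, ext j i₀ α' i.1 = ∑ i', α' i' :=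
      Finset.sum_congr rfl fun i _ => ext_ne j i₀ α' i
    rw [this, ext_self]
    omega
  · intro i
    by_cases hi : i = i₀
    · subst hi
      rw [ext_self]
      exact (Nat.sub_le _ _).trans h0
    · have := ext_ne j i₀ α' ⟨i, hi⟩
      rw [this]
      calc α' ⟨i, hi⟩ ≤ min (β i) j / n := h1 ⟨i, hi⟩
        _ ≤ min (β i) j := Nat.div_le_self _ _
        _ ≤ β i := min_le_left _ _

/-- cb2: the pairs `β i₀ ≥ j`, `β i₁ < j`. Write `1 = ∑_{α' in the box of β} ∏_{i ≠ i₀} wt` for
every `β ∈ X`; every `α'` of the box has `ext α' ∈ E` (then sum over `E` and over the values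
`(β i)_{i ≠ i₀}`, product of the sums `sum_wt_low` (for `i₁`) and `sum_wt_all`) or
`β - ext α' ∈ E'` (then sum over `E'` and `α'`, product of the sums `sum_wt_shift`). -/
theorem comb_pair {n j d u : ℕ} (hn : 2 ≤ n) (E E' : Finset (Fin n → ℕ))
    (hE : E.card ≤ u) (hE' : E'.card ≤ u) (X : Finset (Fin n → ℕ)) (hX : X ⊆ mon n (d + j))
    (h : ∀ β ∈ X, ∀ α ∈ mon n j, ∀ γ ∈ mon n d, α + γ = β → α ∈ E ∨ γ ∈ E')
    (i₀ i₁ : Fin n) (hi : i₁ ≠ i₀) (h0 : ∀ β ∈ X, j ≤ β i₀) (h1 : ∀ β ∈ X, β i₁ < j) :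
    (X.card : ℝ) ≤ u * (4 * n * (4 * n + 2 * n * ((d + 1) / (j + 1) : ℝ)) ^ (n - 2)) +
      u * (4 * n) ^ (n - 1) := by
  classical
  set I := {i : Fin n // i ≠ i₀} with hI
  set P : Finset (I → ℕ) := Fintype.piFinset fun _ => range (j + 1) with hP
  set W : (Fin n → ℕ) → (I → ℕ) → ℝ := fun β a => ∏ i : I, wt n (min (β i.1) j) (a i) with hW
  have hcI : Fintype.card I = n - 1 := by
    have : Fintype.card {i : Fin n // ¬ i = i₀} = n - 1 := by
      rw [Fintype.card_subtype_compl, Fintype.card_fin, Fintype.card_subtype_eq]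
    exact this
  have hWnn : ∀ β a, 0 ≤ W β a := fun β a => Finset.prod_nonneg fun i _ => wt_nonneg _ _ _
  -- the distribution
  have hone : ∀ β : Fin n → ℕ, ∑ a ∈ P, W β a = 1 := by
    intro β
    rw [hP, hW]
    simp only
    rw [← Finset.prod_univ_sum (fun _ : I => range (j + 1))
      (fun (i : I) (a : ℕ) => wt n (min (β i.1) j) a)]
    apply Finset.prod_eq_one
    intro i _
    apply sum_wt hn
    calc min (β i.1) j / n ≤ min (β i.1) j := Nat.div_le_self _ _
      _ ≤ j := min_le_right _ _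
      _ < j + 1 := Nat.lt_succ_self j
  have hctr : ∀ β a, W β a ≠ 0 → ∀ i : I, a i ∈ ctr n (min (β i.1) j) := by
    intro β a hne i
    by_contra hc
    apply hne
    exact Finset.prod_eq_zero (Finset.mem_univ i) (ca_wt_zero hc)
  have hdich : ∀ β ∈ X, ∀ a, W β a ≤ (if ext j i₀ a ∈ E then W β a else 0) +
      (if ext j i₀ a ≤ β ∧ β - ext j i₀ a ∈ E' then W β a else 0) := by
    intro β hβ a
    by_cases hne : W β a = 0
    · rw [hne]
      split_ifs <;> simp
    · obtain ⟨h2, h3⟩ := ext_mem hn i₀ β (h0 β hβ) a (hctr β a hne)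
      have h4 : β - ext j i₀ a ∈ mon n d := by
        have h5 : ∑ i, β i = d + j := mem_mon.1 (hX hβ)
        rw [mem_mon] at h2 ⊢
        have h6 : ∑ i, (β - ext j i₀ a) i + ∑ i, ext j i₀ a i = ∑ i, β i := by
          rw [← Finset.sum_add_distrib]
          apply Finset.sum_congr rfl
          intro i _
          have h7 : ext j i₀ a i ≤ β i := h3 i
          simp only [Pi.sub_apply]
          omega
        omega
      have h5 : ext j i₀ a + (β - ext j i₀ a) = β := by
        funext i
        have h7 : ext j i₀ a i ≤ β i := h3 i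
        simp only [Pi.add_apply, Pi.sub_apply]
        omega
      rcases h β hβ _ h2 _ h4 h5 with h6 | h6
      · rw [if_pos h6]
        have : 0 ≤ (if ext j i₀ a ≤ β ∧ β - ext j i₀ a ∈ E' then W β a else 0) := by
          split_ifs
          · exact hWnn _ _
          · exact le_refl 0
        linarith
      · rw [if_pos (show ext j i₀ a ≤ β ∧ β - ext j i₀ a ∈ E' from ⟨h3, h6⟩)]
        have : 0 ≤ (if ext j i₀ a ∈ E then W β a else 0) := by
          split_ifs
          · exact hWnn _ _
          · exact le_refl 0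
        linarith
  -- restriction
  let res : (Fin n → ℕ) → (I → ℕ) := fun β i => β i.1
  have hresext : ∀ a : I → ℕ, res (ext j i₀ a) = a := by
    intro a
    funext i
    exact ext_ne j i₀ a i
  have hresX : ∀ β ∈ X, ∀ β' ∈ X, res β = res β' → β = β' := by
    intro β hβ β' hβ' hr
    have h5 : ∑ i, β i = d + j := mem_mon.1 (hX hβ)
    have h6 : ∑ i, β' i = d + j := mem_mon.1 (hX hβ')
    rw [cb_sum i₀] at h5 h6
    have h7 : ∀ i : I, β i.1 = β' i.1 := fun i => congrFun hr i
    have h8 : ∑ i : I, β i.1 = ∑ i : I, β' i.1 := Finset.sum_congr rfl fun i _ => h7 i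
    funext i
    by_cases hi' : i = i₀
    · subst hi'
      have h9 : β i + ∑ i : I, β i.1 = β' i + ∑ i : I, β' i.1 := by
        rw [h5, h6]
      rw [h8] at h9
      exact Nat.add_right_cancel h9
    · exact h7 ⟨i, hi'⟩
  -- first part
  have hA : ∀ a : I → ℕ, ∑ β ∈ X, W β a ≤
      4 * n * (4 * n + 2 * n * ((d + 1) / (j + 1) : ℝ)) ^ (n - 2) := by
    intro a
    set t : I → Finset ℕ := fun i => if i.1 = i₁ then range j else range (d + j + 1) with ht
    have h2 : X.image res ⊆ Fintype.piFinset t := by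
      intro b hb
      obtain ⟨β, hβ, rfl⟩ := Finset.mem_image.1 hb
      rw [Fintype.mem_piFinset]
      intro i
      simp only [ht, res]
      split_ifs with hii
      · rw [Finset.mem_range, hii]
        exact h1 β hβ
      · rw [Finset.mem_range]
        have h5 : ∑ i, β i = d + j := mem_mon.1 (hX hβ)
        have : β i.1 ≤ ∑ i, β i := Finset.single_le_sum (fun _ _ => Nat.zero_le _)
          (Finset.mem_univ i.1)
        omega
    calc ∑ β ∈ X, W β a = ∑ b ∈ X.image res, ∏ i : I, wt n (min (b i) j) (a i) := by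
          rw [Finset.sum_image]
          exact fun β hβ β' hβ' hr => hresX β hβ β' hβ' hr
      _ ≤ ∑ b ∈ Fintype.piFinset t, ∏ i : I, wt n (min (b i) j) (a i) := by
          apply Finset.sum_le_sum_of_subset_of_nonneg h2
          intro b _ _
          exact Finset.prod_nonneg fun i _ => wt_nonneg _ _ _
      _ = ∏ i : I, ∑ b ∈ t i, wt n (min b j) (a i) := by
          rw [← Finset.prod_univ_sum t (fun (i : I) (b : ℕ) => wt n (min b j) (a i))]
      _ ≤ ∏ i : I, (if i = ⟨i₁, hi⟩ then (4 * n : ℝ) else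
            4 * n + 2 * n * ((d + 1) / (j + 1) : ℝ)) := by
          apply Finset.prod_le_prod
          · intro i _
            exact Finset.sum_nonneg fun b _ => wt_nonneg _ _ _
          · intro i _
            simp only [ht]
            by_cases hii : i.1 = i₁
            · have hii' : i = ⟨i₁, hi⟩ := Subtype.ext hii
              rw [if_pos hii, if_pos hii']
              calc ∑ b ∈ range j, wt n (min b j) (a i) = ∑ b ∈ range j, wt n b (a i) := by
                    apply Finset.sum_congr rfl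
                    intro b hb
                    rw [Finset.mem_range] at hb
                    rw [min_eq_left hb.le]
                _ ≤ 4 * n := sum_wt_low hn j (a i)
            · have hii' : i ≠ ⟨i₁, hi⟩ := fun hh => hii (congrArg Subtype.val hh)
              rw [if_neg hii, if_neg hii']
              exact sum_wt_all hn d j (a i)
      _ = 4 * n * (4 * n + 2 * n * ((d + 1) / (j + 1) : ℝ)) ^ (n - 2) := by
          rw [Finset.prod_ite]
          rw [Finset.filter_eq' Finset.univ (⟨i₁, hi⟩ : I), if_pos (Finset.mem_univ _),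
            Finset.prod_singleton, Finset.prod_const]
          congr 2
          rw [Finset.filter_ne' Finset.univ (⟨i₁, hi⟩ : I), Finset.card_erase_of_mem
            (Finset.mem_univ _), Finset.card_univ, hcI]
          omega
  -- second part
  have hB : ∀ g : Fin n → ℕ, ∑ a ∈ P, ∏ i : I, wt n (min (g i.1 + a i) j) (a i) ≤
      (4 * n) ^ (n - 1) := by
    intro g
    rw [hP, ← Finset.prod_univ_sum (fun _ : I => range (j + 1))
      (fun (i : I) (a : ℕ) => wt n (min (g i.1 + a) j) a)]
    calc ∏ i : I, ∑ a ∈ range (j + 1), wt n (min (g i.1 + a) j) a ≤ ∏ _i : I, (4 * n : ℝ) := by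
          apply Finset.prod_le_prod
          · intro i _
            exact Finset.sum_nonneg fun b _ => wt_nonneg _ _ _
          · intro i _
            exact sum_wt_shift hn (g i.1) j
      _ = (4 * n) ^ (n - 1) := by
          rw [Finset.prod_const, Finset.card_univ, hcI]
  have hρ : (0 : ℝ) ≤ (4 * n * (4 * n + 2 * n * ((d + 1) / (j + 1) : ℝ)) ^ (n - 2)) := by
    positivity
  have hfirst : ∑ β ∈ X, ∑ a ∈ P, (if ext j i₀ a ∈ E then W β a else 0) ≤
      u * (4 * n * (4 * n + 2 * n * ((d + 1) / (j + 1) : ℝ)) ^ (n - 2)) := by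
    rw [Finset.sum_comm]
    calc ∑ a ∈ P, ∑ β ∈ X, (if ext j i₀ a ∈ E then W β a else 0)
        = ∑ a ∈ P.filter (fun a => ext j i₀ a ∈ E), ∑ β ∈ X, W β a := by
          rw [Finset.sum_filter]
          apply Finset.sum_congr rfl
          intro a _
          split_ifs
          · rfl
          · simp
      _ ≤ ∑ a ∈ P.filter (fun a => ext j i₀ a ∈ E),
            4 * n * (4 * n + 2 * n * ((d + 1) / (j + 1) : ℝ)) ^ (n - 2) :=
          Finset.sum_le_sum fun a _ => hA a
      _ = (P.filter (fun a => ext j i₀ a ∈ E)).card *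
            (4 * n * (4 * n + 2 * n * ((d + 1) / (j + 1) : ℝ)) ^ (n - 2)) := by
          rw [Finset.sum_const, nsmul_eq_mul]
      _ ≤ u * (4 * n * (4 * n + 2 * n * ((d + 1) / (j + 1) : ℝ)) ^ (n - 2)) := by
          apply mul_le_mul_of_nonneg_right _ hρ
          have h2 : (P.filter (fun a => ext j i₀ a ∈ E)).card ≤ E.card := by
            apply Finset.card_le_card_of_injOn (fun a => ext j i₀ a)
            · intro a ha
              exact (Finset.mem_filter.1 ha).2
            · intro a _ a' _ haa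
              simp only at haa
              rw [← hresext a, haa, hresext a']
          exact_mod_cast h2.trans hE
  have hsecond : ∑ β ∈ X, ∑ a ∈ P, (if ext j i₀ a ≤ β ∧ β - ext j i₀ a ∈ E' then W β a else 0) ≤
      u * (4 * n) ^ (n - 1) := by
    have h2 : ∑ β ∈ X, ∑ a ∈ P, (if ext j i₀ a ≤ β ∧ β - ext j i₀ a ∈ E' then W β a else 0) =
        ∑ x ∈ (X ×ˢ P).filter (fun x => ext j i₀ x.2 ≤ x.1 ∧ x.1 - ext j i₀ x.2 ∈ E'),
          W x.1 x.2 := by
      rw [Finset.sum_filter, Finset.sum_product]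
    rw [h2]
    set Q := (X ×ˢ P).filter (fun x => ext j i₀ x.2 ≤ x.1 ∧ x.1 - ext j i₀ x.2 ∈ E') with hQ
    let ψ : (Fin n → ℕ) × (I → ℕ) → (Fin n → ℕ) × (I → ℕ) := fun x => (x.1 - ext j i₀ x.2, x.2)
    have hψ : ∀ x ∈ Q, ∀ y ∈ Q, ψ x = ψ y → x = y := by
      intro x hx y hy hxy
      have hx' := (Finset.mem_filter.1 hx).2.1
      have hy' := (Finset.mem_filter.1 hy).2.1
      have e2 : x.2 = y.2 := (Prod.mk.inj hxy).2
      have e1 : x.1 - ext j i₀ x.2 = y.1 - ext j i₀ y.2 := (Prod.mk.inj hxy).1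
      have e3 : x.1 = y.1 := by
        funext i
        have h3 : ext j i₀ x.2 i ≤ x.1 i := hx' i
        have h4 : ext j i₀ y.2 i ≤ y.1 i := hy' i
        have h5 := congrFun e1 i
        simp only [Pi.sub_apply] at h5
        rw [e2] at h3 h5
        omega
      exact Prod.ext e3 e2
    have hval : ∀ x ∈ Q, W x.1 x.2 =
        ∏ i : I, wt n (min ((ψ x).1 i.1 + (ψ x).2 i) j) ((ψ x).2 i) := by
      intro x hx
      have hx' := (Finset.mem_filter.1 hx).2.1
      apply Finset.prod_congr rfl
      intro i _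
      have h3 : ext j i₀ x.2 i.1 ≤ x.1 i.1 := hx' i.1
      rw [ext_ne] at h3
      have h4 : (ψ x).1 i.1 = x.1 i.1 - x.2 i := by
        change (x.1 - ext j i₀ x.2) i.1 = _
        rw [Pi.sub_apply, ext_ne]
      have h5 : (ψ x).2 i = x.2 i := rfl
      rw [h4, h5]
      congr 2
      omega
    calc ∑ x ∈ Q, W x.1 x.2
        = ∑ x ∈ Q, ∏ i : I, wt n (min ((ψ x).1 i.1 + (ψ x).2 i) j) ((ψ x).2 i) :=
          Finset.sum_congr rfl hval
      _ = ∑ y ∈ Q.image ψ, ∏ i : I, wt n (min (y.1 i.1 + y.2 i) j) (y.2 i) := by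
          rw [Finset.sum_image]
          exact fun x hx y hy => hψ x hx y hy
      _ ≤ ∑ y ∈ E' ×ˢ P, ∏ i : I, wt n (min (y.1 i.1 + y.2 i) j) (y.2 i) := by
          apply Finset.sum_le_sum_of_subset_of_nonneg
          · intro y hy
            obtain ⟨x, hx, rfl⟩ := Finset.mem_image.1 hy
            have hx' := Finset.mem_filter.1 hx
            rw [Finset.mem_product] at hx' ⊢
            exact ⟨hx'.2.2, hx'.1.2⟩
          · intro y _ _
            exact Finset.prod_nonneg fun i _ => wt_nonneg _ _ _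
      _ = ∑ g ∈ E', ∑ a ∈ P, ∏ i : I, wt n (min (g i.1 + a i) j) (a i) := by
          rw [Finset.sum_product]
      _ ≤ ∑ _g ∈ E', (4 * n : ℝ) ^ (n - 1) := Finset.sum_le_sum fun g _ => hB g
      _ = E'.card * (4 * n : ℝ) ^ (n - 1) := by
          rw [Finset.sum_const, nsmul_eq_mul]
      _ ≤ u * (4 * n) ^ (n - 1) := by
          apply mul_le_mul_of_nonneg_right _ (by positivity)
          exact_mod_cast hE'
  calc (X.card : ℝ) = ∑ β ∈ X, ∑ a ∈ P, W β a := by
        rw [Finset.sum_congr rfl fun β _ => hone β, Finset.sum_const, nsmul_eq_mul, mul_one]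
    _ ≤ ∑ β ∈ X, ∑ a ∈ P, ((if ext j i₀ a ∈ E then W β a else 0) +
          (if ext j i₀ a ≤ β ∧ β - ext j i₀ a ∈ E' then W β a else 0)) :=
        Finset.sum_le_sum fun β hβ => Finset.sum_le_sum fun a _ => hdich β hβ a
    _ = ∑ β ∈ X, ∑ a ∈ P, (if ext j i₀ a ∈ E then W β a else 0) +
          ∑ β ∈ X, ∑ a ∈ P, (if ext j i₀ a ≤ β ∧ β - ext j i₀ a ∈ E' then W β a else 0) := by
        rw [← Finset.sum_add_distrib]
        exact Finset.sum_congr rfl fun β _ => Finset.sum_add_distrib
    _ ≤ u * (4 * n * (4 * n + 2 * n * ((d + 1) / (j + 1) : ℝ)) ^ (n - 2)) +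
          u * (4 * n) ^ (n - 1) := add_le_add hfirst hsecond

/-- cb3: all coordinates at least `j`: every `α ∈ mon n j` is a divisor, at least half of them are
not in `E`, and every `γ ∈ E'` has `|mon n j|` multiples. -/
theorem comb_top {n j d u : ℕ} (E E' : Finset (Fin n → ℕ))
    (hE : E.card ≤ u) (hE' : E'.card ≤ u) (hu : 2 * u ≤ (mon n j).card)
    (X : Finset (Fin n → ℕ)) (hX : X ⊆ mon n (d + j))
    (h : ∀ β ∈ X, ∀ α ∈ mon n j, ∀ γ ∈ mon n d, α + γ = β → α ∈ E ∨ γ ∈ E')
    (h0 : ∀ β ∈ X, ∀ i, j ≤ β i) : X.card ≤ 2 * u := by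
  classical
  rcases Nat.eq_zero_or_pos (mon n j).card with hs | hs
  · -- no exponents of degree j: then n = 0 and X is empty
    have hX0 : X = ∅ := by
      rw [Finset.eq_empty_iff_forall_notMem]
      intro β hβ
      have hβ' : ∑ i, β i = d + j := mem_mon.1 (hX hβ)
      rw [Finset.card_eq_zero] at hs
      rcases Nat.eq_zero_or_pos n with hn | hn
      · subst hn
        have h3 : d + j = 0 := by
          rw [← hβ']
          simp
        have h4 : (fun _ => 0 : Fin 0 → ℕ) ∈ mon 0 j := by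
          rw [mem_mon]
          simp
          omega
        rw [hs] at h4
        exact absurd h4 (Finset.notMem_empty _)
      · have h4 : (Pi.single ⟨0, hn⟩ j : Fin n → ℕ) ∈ mon n j := by
          rw [mem_mon]
          simp
        rw [hs] at h4
        exact absurd h4 (Finset.notMem_empty _)
    rw [hX0]
    simp
  have hle : ∀ β ∈ X, ∀ α ∈ mon n j, α ≤ β := by
    intro β hβ α hα i
    have h1 : α i ≤ ∑ i, α i := Finset.single_le_sum (fun _ _ => Nat.zero_le _)
      (Finset.mem_univ i)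
    rw [mem_mon.1 hα] at h1
    exact h1.trans (h0 β hβ i)
  have hsub : ∀ β ∈ X, ∀ α ∈ mon n j, β - α ∈ mon n d := by
    intro β hβ α hα
    have h5 : ∑ i, β i = d + j := mem_mon.1 (hX hβ)
    have h6 := hle β hβ α hα
    rw [mem_mon] at hα ⊢
    have h7 : ∑ i, (β - α) i + ∑ i, α i = ∑ i, β i := by
      rw [← Finset.sum_add_distrib]
      apply Finset.sum_congr rfl
      intro i _
      have h8 : α i ≤ β i := h6 i
      simp only [Pi.sub_apply]
      omega
    omega
  have hadd : ∀ β ∈ X, ∀ α ∈ mon n j, α + (β - α) = β := by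
    intro β hβ α hα
    funext i
    have h8 : α i ≤ β i := hle β hβ α hα i
    simp only [Pi.add_apply, Pi.sub_apply]
    omega
  -- pairs
  have h1 : X.card * ((mon n j).card - u) ≤ u * (mon n j).card := by
    calc X.card * ((mon n j).card - u) = ∑ _β ∈ X, ((mon n j).card - u) := by
          rw [Finset.sum_const, smul_eq_mul]
      _ ≤ ∑ β ∈ X, ((mon n j).filter fun α => β - α ∈ E').card := by
          apply Finset.sum_le_sum
          intro β hβ
          have h2 : mon n j \ E ⊆ (mon n j).filter fun α => β - α ∈ E' := by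
            intro α hα
            rw [Finset.mem_sdiff] at hα
            rw [Finset.mem_filter]
            refine ⟨hα.1, ?_⟩
            rcases h β hβ α hα.1 _ (hsub β hβ α hα.1) (hadd β hβ α hα.1) with h3 | h3
            · exact absurd h3 hα.2
            · exact h3
          calc (mon n j).card - u ≤ (mon n j).card - E.card := by omega
            _ ≤ (mon n j \ E).card := Finset.le_card_sdiff E (mon n j)
            _ ≤ _ := Finset.card_le_card h2
      _ = (X.sigma fun β => (mon n j).filter fun α => β - α ∈ E').card := by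
          rw [Finset.card_sigma]
      _ ≤ (E' ×ˢ mon n j).card := by
          apply Finset.card_le_card_of_injOn (fun x => (x.1 - x.2, x.2))
          · intro x hx
            rw [Finset.mem_coe, Finset.mem_sigma, Finset.mem_filter] at hx
            rw [Finset.mem_coe, Finset.mem_product]
            exact ⟨hx.2.2, hx.2.1⟩
          · intro x hx y hy hxy
            rw [Finset.mem_coe, Finset.mem_sigma, Finset.mem_filter] at hx hy
            simp only [Prod.mk.injEq] at hxy
            obtain ⟨e1, e2⟩ := hxy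
            have e3 : x.1 = y.1 := by
              rw [← hadd x.1 hx.1 x.2 hx.2.1, ← hadd y.1 hy.1 y.2 hy.2.1, e1, e2]
            rcases x with ⟨x1, x2⟩
            rcases y with ⟨y1, y2⟩
            simp only at e2 e3
            subst e2
            subst e3
            rfl
      _ = E'.card * (mon n j).card := Finset.card_product _ _
      _ ≤ u * (mon n j).card := Nat.mul_le_mul_right _ hE'
  have h2 : (mon n j).card ≤ 2 * ((mon n j).card - u) := by omega
  have h3 : X.card * (mon n j).card ≤ (2 * u) * (mon n j).card := by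
    calc X.card * (mon n j).card ≤ X.card * (2 * ((mon n j).card - u)) :=
          Nat.mul_le_mul_left _ h2
      _ = 2 * (X.card * ((mon n j).card - u)) := by ring
      _ ≤ 2 * (u * (mon n j).card) := Nat.mul_le_mul_left 2 h1
      _ = (2 * u) * (mon n j).card := by ring
  exact Nat.le_of_mul_le_mul_right h3 hs

/-- cb4: from cb2 and cb3: every `β ∈ X` has a coordinate `≥ j` because `n * j ≤ d + j`. -/
theorem comb {n j d u : ℕ} (hn : 2 ≤ n) (hd : n * (j + 1) ≤ d) (E E' : Finset (Fin n → ℕ))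
    (hE : E.card ≤ u) (hE' : E'.card ≤ u) (hu : 2 * u ≤ (mon n j).card)
    (X : Finset (Fin n → ℕ)) (hX : X ⊆ mon n (d + j))
    (h : ∀ β ∈ X, ∀ α ∈ mon n j, ∀ γ ∈ mon n d, α + γ = β → α ∈ E ∨ γ ∈ E') :
    X.card * (j + 1) ^ (n - 2) ≤ 3 * (6 * n) ^ (n + 1) * u * (d + 1) ^ (n - 2) := by
  classical
  set T := X.filter fun β => ∀ i, j ≤ β i with hT
  set Y : Fin n × Fin n → Finset (Fin n → ℕ) := fun p =>
    X.filter fun β => p.2 ≠ p.1 ∧ j ≤ β p.1 ∧ β p.2 < j with hY
  have hcov : X ⊆ T ∪ (Finset.univ : Finset (Fin n × Fin n)).biUnion Y := by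
    intro β hβ
    rw [Finset.mem_union]
    by_cases hall : ∀ i, j ≤ β i
    · left
      exact Finset.mem_filter.2 ⟨hβ, hall⟩
    · right
      push Not at hall
      obtain ⟨i₁, hi₁⟩ := hall
      have hex : ∃ i₀, j ≤ β i₀ := by
        by_contra hc
        push Not at hc
        have h5 : ∑ i, β i = d + j := mem_mon.1 (hX hβ)
        have h6 : ∑ i, β i ≤ ∑ _i : Fin n, j := Finset.sum_le_sum fun i _ => (hc i).le
        rw [Finset.sum_const, Finset.card_univ, Fintype.card_fin, smul_eq_mul] at h6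
        have h7 : n * (j + 1) = n * j + n := by ring
        omega
      obtain ⟨i₀, hi₀⟩ := hex
      rw [Finset.mem_biUnion]
      refine ⟨(i₀, i₁), Finset.mem_univ _, Finset.mem_filter.2 ⟨hβ, ?_, hi₀, hi₁⟩⟩
      intro he
      simp only at he
      rw [he] at hi₁
      omega
  have hTc : T.card ≤ 2 * u := by
    apply comb_top E E' hE hE' hu T ((Finset.filter_subset _ _).trans hX)
    · intro β hβ
      exact h β (Finset.mem_filter.1 hβ).1
    · intro β hβ
      exact (Finset.mem_filter.1 hβ).2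
  set ρ : ℝ := (d + 1) / (j + 1) with hρ
  have hn1 : (1 : ℝ) ≤ n := by exact_mod_cast (by omega : 1 ≤ n)
  have hρ1 : 1 ≤ ρ := by
    rw [hρ, one_le_div (by positivity)]
    have h7 : j ≤ d := by
      have : j + 1 ≤ n * (j + 1) := Nat.le_mul_of_pos_left _ (by omega)
      omega
    have : (j : ℝ) ≤ d := by exact_mod_cast h7
    linarith
  have hu0 : (0 : ℝ) ≤ u := Nat.cast_nonneg u
  have hYc : ∀ p, ((Y p).card : ℝ) ≤ 2 * u * (6 * n) ^ (n - 1) * ρ ^ (n - 2) := by
    intro p
    by_cases hp : p.2 ≠ p.1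
    · have h1 : ((Y p).card : ℝ) ≤ u * (4 * n * (4 * n + 2 * n * ((d + 1) / (j + 1) : ℝ)) ^ (n - 2)) +
          u * (4 * n) ^ (n - 1) := by
        apply comb_pair hn E E' hE hE' (Y p) ((Finset.filter_subset _ _).trans hX) _ p.1 p.2 hp
        · intro β hβ
          exact (Finset.mem_filter.1 hβ).2.2.1
        · intro β hβ
          exact (Finset.mem_filter.1 hβ).2.2.2
        · intro β hβ
          exact h β (Finset.mem_filter.1 hβ).1
      rw [← hρ] at h1
      have h2 : (4 * n + 2 * n * ρ : ℝ) ≤ 6 * n * ρ := by nlinarith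
      have h3 : (4 * n + 2 * n * ρ : ℝ) ^ (n - 2) ≤ (6 * n * ρ) ^ (n - 2) := by
        apply pow_le_pow_left₀ _ h2
        positivity
      have h4 : (4 * n : ℝ) * (4 * n + 2 * n * ρ) ^ (n - 2) ≤ (6 * n) ^ (n - 1) * ρ ^ (n - 2) := by
        calc (4 * n : ℝ) * (4 * n + 2 * n * ρ) ^ (n - 2) ≤ (6 * n) * (6 * n * ρ) ^ (n - 2) := by
              apply mul_le_mul _ h3 (by positivity) (by positivity)
              linarith
          _ = (6 * n) ^ (n - 1) * ρ ^ (n - 2) := by
              rw [mul_pow]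
              have : n - 1 = (n - 2) + 1 := by omega
              rw [this, pow_succ]
              ring
      have h5 : (4 * n : ℝ) ^ (n - 1) ≤ (6 * n) ^ (n - 1) * ρ ^ (n - 2) := by
        calc (4 * n : ℝ) ^ (n - 1) ≤ (6 * n) ^ (n - 1) := by
              apply pow_le_pow_left₀ (by positivity)
              linarith
          _ = (6 * n) ^ (n - 1) * 1 := by ring
          _ ≤ (6 * n) ^ (n - 1) * ρ ^ (n - 2) := by
              apply mul_le_mul_of_nonneg_left _ (by positivity)
              exact one_le_pow₀ hρ1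
      calc ((Y p).card : ℝ) ≤ u * (4 * n * (4 * n + 2 * n * ρ) ^ (n - 2)) +
            u * (4 * n) ^ (n - 1) := h1
        _ ≤ u * ((6 * n) ^ (n - 1) * ρ ^ (n - 2)) + u * ((6 * n) ^ (n - 1) * ρ ^ (n - 2)) := by
            apply add_le_add
            · exact mul_le_mul_of_nonneg_left h4 hu0
            · exact mul_le_mul_of_nonneg_left h5 hu0
        _ = 2 * u * (6 * n) ^ (n - 1) * ρ ^ (n - 2) := by ring
    · have : Y p = ∅ := by
        rw [Finset.eq_empty_iff_forall_notMem]
        intro β hβ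
        exact hp (Finset.mem_filter.1 hβ).2.1
      rw [this, Finset.card_empty]
      push_cast
      positivity
  have hmain : (X.card : ℝ) ≤ 3 * (6 * n) ^ (n + 1) * u * ρ ^ (n - 2) := by
    have h1 : X.card ≤ T.card + ∑ p, (Y p).card := by
      calc X.card ≤ (T ∪ (Finset.univ : Finset (Fin n × Fin n)).biUnion Y).card :=
            Finset.card_le_card hcov
        _ ≤ T.card + ((Finset.univ : Finset (Fin n × Fin n)).biUnion Y).card :=
            Finset.card_union_le _ _
        _ ≤ T.card + ∑ p, (Y p).card := Nat.add_le_add_left Finset.card_biUnion_le _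
    have h2 : (X.card : ℝ) ≤ 2 * u + ∑ p : Fin n × Fin n, ((Y p).card : ℝ) := by
      have h3 : (X.card : ℝ) ≤ (T.card : ℝ) + ∑ p : Fin n × Fin n, ((Y p).card : ℝ) := by
        exact_mod_cast h1
      have h4 : (T.card : ℝ) ≤ 2 * u := by exact_mod_cast hTc
      linarith
    have h3 : ∑ p : Fin n × Fin n, ((Y p).card : ℝ) ≤
        n ^ 2 * (2 * u * (6 * n) ^ (n - 1) * ρ ^ (n - 2)) := by
      calc ∑ p : Fin n × Fin n, ((Y p).card : ℝ)
          ≤ ∑ _p : Fin n × Fin n, (2 * u * (6 * n) ^ (n - 1) * ρ ^ (n - 2)) :=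
            Finset.sum_le_sum fun p _ => hYc p
        _ = n ^ 2 * (2 * u * (6 * n) ^ (n - 1) * ρ ^ (n - 2)) := by
            rw [Finset.sum_const, Finset.card_univ, Fintype.card_prod, Fintype.card_fin,
              nsmul_eq_mul]
            push_cast
            ring
    have h4 : (n : ℝ) ^ 2 * (6 * n) ^ (n - 1) ≤ (6 * n) ^ (n + 1) := by
      have : n + 1 = (n - 1) + 2 := by omega
      rw [this, pow_add, mul_comm]
      apply mul_le_mul_of_nonneg_left _ (by positivity)
      nlinarith
    have h5 : (1 : ℝ) ≤ (6 * n) ^ (n + 1) := by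
      apply one_le_pow₀
      linarith
    have h6 : (1 : ℝ) ≤ ρ ^ (n - 2) := one_le_pow₀ hρ1
    have h7 : (1 : ℝ) ≤ (6 * n) ^ (n + 1) * ρ ^ (n - 2) := by
      calc (1 : ℝ) = 1 * 1 := by ring
        _ ≤ (6 * n) ^ (n + 1) * ρ ^ (n - 2) := mul_le_mul h5 h6 zero_le_one (by positivity)
    have h8 : (n : ℝ) ^ 2 * (6 * n) ^ (n - 1) * ρ ^ (n - 2) ≤ (6 * n) ^ (n + 1) * ρ ^ (n - 2) :=
      mul_le_mul_of_nonneg_right h4 (by positivity)
    have h9 : 36 * ((n : ℝ) ^ 2 * (6 * n) ^ (n - 1)) = (6 * n) ^ (n + 1) := by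
      have : n + 1 = (n - 1) + 2 := by omega
      rw [this, pow_add]
      ring
    have h10 : 36 * ((n : ℝ) ^ 2 * (6 * n) ^ (n - 1) * ρ ^ (n - 2)) =
        (6 * n) ^ (n + 1) * ρ ^ (n - 2) := by
      rw [← h9]
      ring
    have h11 : (X.card : ℝ) ≤ u * (2 + 2 * ((n : ℝ) ^ 2 * (6 * n) ^ (n - 1) * ρ ^ (n - 2))) := by
      calc (X.card : ℝ) ≤ 2 * u + n ^ 2 * (2 * u * (6 * n) ^ (n - 1) * ρ ^ (n - 2)) := by
            linarith
        _ = u * (2 + 2 * ((n : ℝ) ^ 2 * (6 * n) ^ (n - 1) * ρ ^ (n - 2))) := by ring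
    have h12 : (2 + 2 * ((n : ℝ) ^ 2 * (6 * n) ^ (n - 1) * ρ ^ (n - 2))) ≤
        3 * ((6 * n) ^ (n + 1) * ρ ^ (n - 2)) := by
      linarith
    calc (X.card : ℝ) ≤ u * (2 + 2 * ((n : ℝ) ^ 2 * (6 * n) ^ (n - 1) * ρ ^ (n - 2))) := h11
      _ ≤ u * (3 * ((6 * n) ^ (n + 1) * ρ ^ (n - 2))) := mul_le_mul_of_nonneg_left h12 hu0
      _ = 3 * (6 * n) ^ (n + 1) * u * ρ ^ (n - 2) := by ring
  have hj : (0 : ℝ) < ((j : ℝ) + 1) ^ (n - 2) := by positivity
  have hfin : (X.card : ℝ) * ((j : ℝ) + 1) ^ (n - 2) ≤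
      3 * (6 * n) ^ (n + 1) * u * ((d : ℝ) + 1) ^ (n - 2) := by
    calc (X.card : ℝ) * ((j : ℝ) + 1) ^ (n - 2)
        ≤ 3 * (6 * n) ^ (n + 1) * u * ρ ^ (n - 2) * ((j : ℝ) + 1) ^ (n - 2) :=
          mul_le_mul_of_nonneg_right hmain hj.le
      _ = 3 * (6 * n) ^ (n + 1) * u * ((d : ℝ) + 1) ^ (n - 2) := by
          rw [hρ, div_pow]
          field_simp
  exact_mod_cast hfin

end Pool.Agent.Nks
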