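import Pool.Agent.Nks.Enc
import Pool.Agent.Nks.Comb

/-!
# The number of functionals of given rank
-/

set_option autoImplicit false

namespace Pool.Agent.Nks

open Finset

private theorem cf_lt {n t T : ℕ} (h : t < T) {a : Fin n → ℕ} (ha : a ∈ mon n t) (i : Fin n) :
    a i < T := by
  have h1 : a i ≤ ∑ i, a i := Finset.single_le_sum (fun _ _ => Nat.zero_le _) (Finset.mem_univ i)
  rw [mem_mon.1 ha] at h1
  omega

/-- cc: from `enc`, `enc_top`, `comb`, `exists_weight`, `card_NL_le`, `rk_comm`. -/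
theorem cnt {F : Type} [Field F] [Fintype F] {n j d : ℕ} (hn : 2 ≤ n) (hd : n * (j + 1) ≤ d)
    (m : ℕ) (h2 : 3 * (6 * n) ^ (n + 1) * (d + 1) ^ (n - 2) ≤ m * (j + 1) ^ (n - 2))
    (h3 : 2 * ((mon n j).card + ((mon n (d + j)).card - (mon n d).card)) ≤ m * (mon n j).card)
    (u : ℕ) (hu : u < (mon n j).card) (𝒮 : Finset ((Fin n → ℕ) → F))
    (h𝒮 : ∀ φ ∈ 𝒮, rk (mon n j) (mon n d) φ = u)
    (hinj : ∀ φ ∈ 𝒮, ∀ ψ ∈ 𝒮, (∀ β ∈ mon n (d + j), φ β = ψ β) → φ = ψ) :
    𝒮.card ≤ (2 * ((mon n j).card + 1)) ^ (mon n (d + j)).card * Fintype.card F ^ (m * u) := by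
  classical
  obtain ⟨w, hw, hwi⟩ := exists_weight n (d + j + 1)
  have hA : Set.InjOn w (mon n j : Set (Fin n → ℕ)) := fun a ha b hb hab =>
    hwi a b (fun i => cf_lt (by omega) (Finset.mem_coe.1 ha) i)
      (fun i => cf_lt (by omega) (Finset.mem_coe.1 hb) i) hab
  have hΓ : Set.InjOn w (mon n d : Set (Fin n → ℕ)) := fun a ha b hb hab =>
    hwi a b (fun i => cf_lt (by omega) (Finset.mem_coe.1 ha) i)
      (fun i => cf_lt (by omega) (Finset.mem_coe.1 hb) i) hab
  have hB : Set.InjOn w (mon n (d + j) : Set (Fin n → ℕ)) := fun a ha b hb hab =>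
    hwi a b (fun i => cf_lt (by omega) (Finset.mem_coe.1 ha) i)
      (fun i => cf_lt (by omega) (Finset.mem_coe.1 hb) i) hab
  have hAB : ∀ α ∈ mon n j, ∀ γ ∈ mon n d, α + γ ∈ mon n (d + j) := by
    intro α hα γ hγ
    rw [mem_mon] at *
    simp only [Pi.add_apply]
    rw [Finset.sum_add_distrib, hα, hγ]
    omega
  have hq : 0 < Fintype.card F := Fintype.card_pos
  by_cases hus : 2 * u ≤ (mon n j).card
  · apply enc w hw (mon n j) (mon n d) (mon n (d + j)) hA hΓ hB hAB (m * u) 𝒮 _ hinj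
    intro φ hφ
    have hr := h𝒮 φ hφ
    have e1 : (NL w (mon n j) (mon n d) φ).card ≤ u := by
      rw [← hr]
      exact card_NL_le w _ _ hA φ
    have e2 : (NL w (mon n d) (mon n j) φ).card ≤ u := by
      rw [← hr, rk_comm]
      exact card_NL_le w _ _ hΓ φ
    have e3 := comb hn hd (NL w (mon n j) (mon n d) φ) (NL w (mon n d) (mon n j) φ) e1 e2 hus
      (Fr w (mon n j) (mon n d) (mon n (d + j)) φ) (fun β hβ => (mem_Fr.1 hβ).1)
      (fun β hβ => (mem_Fr.1 hβ).2)
    have e4 : (Fr w (mon n j) (mon n d) (mon n (d + j)) φ).card * (j + 1) ^ (n - 2) ≤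
        (m * u) * (j + 1) ^ (n - 2) := by
      calc _ ≤ 3 * (6 * n) ^ (n + 1) * u * (d + 1) ^ (n - 2) := e3
        _ = (3 * (6 * n) ^ (n + 1) * (d + 1) ^ (n - 2)) * u := by ring
        _ ≤ (m * (j + 1) ^ (n - 2)) * u := Nat.mul_le_mul_right u h2
        _ = (m * u) * (j + 1) ^ (n - 2) := by ring
    exact Nat.le_of_mul_le_mul_right e4 (pow_pos (Nat.succ_pos j) _)
  · have e1 : 𝒮.card ≤ Fintype.card F ^
        ((mon n j).card + ((mon n (d + j)).card - (mon n d).card)) := by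
      apply enc_top w hw (mon n j) (mon n d) (mon n (d + j)) hA hB hAB 𝒮 _ hinj
      intro φ hφ
      rw [h𝒮 φ hφ]
      exact hu
    have e2 : (mon n j).card + ((mon n (d + j)).card - (mon n d).card) ≤ m * u := by
      have e3 : m * (mon n j).card ≤ m * (2 * u) := Nat.mul_le_mul_left m (by omega)
      have e4 : m * (2 * u) = 2 * (m * u) := by ring
      omega
    calc 𝒮.card ≤ Fintype.card F ^
          ((mon n j).card + ((mon n (d + j)).card - (mon n d).card)) := e1
      _ ≤ Fintype.card F ^ (m * u) := Nat.pow_le_pow_right hq e2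
      _ = 1 * Fintype.card F ^ (m * u) := (one_mul _).symm
      _ ≤ (2 * ((mon n j).card + 1)) ^ (mon n (d + j)).card * Fintype.card F ^ (m * u) := by
          apply Nat.mul_le_mul_right
          exact Nat.one_le_pow _ _ (by omega)

end Pool.Agent.Nks
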