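import Mathlib

/-!
# Definitions: exponents, ranks, leading exponents, free exponents
-/

set_option autoImplicit false

namespace Pool.Agent.Nks

open Finset

/-- Exponents of degree `t` in `n` variables. -/
def mon (n t : ℕ) : Finset (Fin n → ℕ) := Finset.piAntidiag Finset.univ t

theorem mem_mon {n t : ℕ} {β : Fin n → ℕ} : β ∈ mon n t ↔ ∑ i, β i = t := by
  simp [mon]

variable {M F : Type}

/-- The rank of the matrix `(φ (α + γ))` with rows `α ∈ A` and columns `γ ∈ Γ`. -/
noncomputable def rk [Add M] [Field F] (A Γ : Finset M) (φ : M → F) : ℕ :=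
  (Matrix.of fun (α : A) (γ : Γ) => φ (α.1 + γ.1)).rank

/-- The functions `M → F` which vanish outside `X`. -/
noncomputable def fs (F : Type) [Field F] [Fintype F] (X : Finset M) : Finset (M → F) := by
  classical
  exact (Finset.univ : Finset (X → F)).image fun f β => if h : β ∈ X then f ⟨β, h⟩ else 0

/-- `α` is the leading exponent (for the weight `w`) of a relation between the rows of the matrix
`(φ (α + γ))`, `α ∈ A`, `γ ∈ Γ`. -/
def IsLead [Add M] [Field F] (w : M → ℕ) (A Γ : Finset M) (φ : M → F) (α : M) : Prop :=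
  ∃ x : M → F, x α = 1 ∧ (∀ α' ∈ A, w α < w α' → x α' = 0) ∧
    ∀ γ ∈ Γ, ∑ α' ∈ A, x α' * φ (α' + γ) = 0

/-- The exponents in `A` which are not leading exponents. -/
noncomputable def NL [Add M] [Field F] (w : M → ℕ) (A Γ : Finset M) (φ : M → F) : Finset M := by
  classical
  exact A.filter fun α => ¬ IsLead w A Γ φ α

/-- The free exponents in `B`. -/
noncomputable def Fr [Add M] [Field F] (w : M → ℕ) (A Γ B : Finset M) (φ : M → F) : Finset M := by
  classical
  exact B.filter fun β => ∀ α ∈ A, ∀ γ ∈ Γ, α + γ = β → α ∈ NL w A Γ φ ∨ γ ∈ NL w Γ A φ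

theorem mem_NL [Add M] [Field F] {w : M → ℕ} {A Γ : Finset M} {φ : M → F} {α : M} :
    α ∈ NL w A Γ φ ↔ α ∈ A ∧ ¬ IsLead w A Γ φ α := by
  classical
  unfold NL
  rw [Finset.mem_filter]

theorem mem_Fr [Add M] [Field F] {w : M → ℕ} {A Γ B : Finset M} {φ : M → F} {β : M} :
    β ∈ Fr w A Γ B φ ↔ β ∈ B ∧ ∀ α ∈ A, ∀ γ ∈ Γ, α + γ = β → α ∈ NL w A Γ φ ∨ γ ∈ NL w Γ A φ := by
  classical
  unfold Fr
  rw [Finset.mem_filter]

theorem mem_fs [Field F] [Fintype F] {X : Finset M} {φ : M → F} :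
    φ ∈ fs F X ↔ ∀ β, β ∉ X → φ β = 0 := by
  classical
  unfold fs
  rw [Finset.mem_image]
  constructor
  · rintro ⟨f, _, rfl⟩ β hβ
    simp [hβ]
  · intro h
    refine ⟨fun β => φ β.1, Finset.mem_univ _, ?_⟩
    funext β
    by_cases hβ : β ∈ X
    · simp [hβ]
    · simp [hβ, h β hβ]

theorem card_fs [Field F] [Fintype F] (X : Finset M) :
    (fs F X).card = Fintype.card F ^ X.card := by
  classical
  unfold fs
  rw [Finset.card_image_of_injective, Finset.card_univ, Fintype.card_fun, Fintype.card_coe]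
  intro f g h
  funext β
  have := congrFun h β.1
  simpa using this

theorem rk_congr [Add M] [Field F] {A Γ : Finset M} {φ ψ : M → F}
    (h : ∀ α ∈ A, ∀ γ ∈ Γ, φ (α + γ) = ψ (α + γ)) : rk A Γ φ = rk A Γ ψ := by
  unfold rk
  congr 1
  ext α γ
  exact h α.1 α.2 γ.1 γ.2

end Pool.Agent.Nks
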