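import Pool.Agent.Nks.Rk

/-!
# The encoding
-/

set_option autoImplicit false

namespace Pool.Agent.Nks

open Finset

variable {M F : Type}

/-- ea: a leading exponent of a relation of the rows of `φ` and a leading exponent of a relation of
the columns of `ψ` give the same value at the sum when `φ` and `ψ` agree before. -/
theorem enc_step [AddCommMonoid M] [Field F] (w : M → ℕ) (hw : ∀ a b, w (a + b) = w a + w b)
    (A Γ : Finset M) (hA : Set.InjOn w (A : Set M)) (hΓ : Set.InjOn w (Γ : Set M)) (φ ψ : M → F)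
    {α γ : M} (hα : α ∈ A) (hγ : γ ∈ Γ)
    (h : ∀ α' ∈ A, ∀ γ' ∈ Γ, w (α' + γ') < w (α + γ) → φ (α' + γ') = ψ (α' + γ'))
    (h1 : IsLead w A Γ φ α) (h2 : IsLead w Γ A ψ γ) : φ (α + γ) = ψ (α + γ) := by
  classical
  obtain ⟨x, hx1, hx2, hx3⟩ := h1
  obtain ⟨y, hy1, hy2, hy3⟩ := h2
  -- inner sums before `γ`
  have hin : ∀ γ' ∈ Γ, w γ' < w γ → ∑ α' ∈ A, x α' * ψ (α' + γ') = 0 := by
    intro γ' hγ' hlt
    rw [← hx3 γ' hγ']
    refine Finset.sum_congr rfl fun α' hα' => ?_
    by_cases hle : w α' ≤ w α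
    · rw [h α' hα' γ' hγ' (by rw [hw, hw]; omega)]
    · rw [hx2 α' hα' (by omega)]; simp
  have hzero : ∑ α' ∈ A, x α' * ψ (α' + γ) = 0 := by
    have e1 : ∑ α' ∈ A, x α' * (∑ γ' ∈ Γ, y γ' * ψ (γ' + α')) = 0 := by
      refine Finset.sum_eq_zero fun α' hα' => ?_
      rw [hy3 α' hα', mul_zero]
    have e2 : ∑ α' ∈ A, x α' * (∑ γ' ∈ Γ, y γ' * ψ (γ' + α'))
        = ∑ γ' ∈ Γ, y γ' * (∑ α' ∈ A, x α' * ψ (α' + γ')) := by
      simp only [Finset.mul_sum]
      rw [Finset.sum_comm]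
      refine Finset.sum_congr rfl fun γ' _ => Finset.sum_congr rfl fun α' _ => ?_
      rw [add_comm γ' α']; ring
    have e3 : ∑ γ' ∈ Γ, y γ' * (∑ α' ∈ A, x α' * ψ (α' + γ'))
        = y γ * (∑ α' ∈ A, x α' * ψ (α' + γ)) := by
      refine Finset.sum_eq_single_of_mem γ hγ fun γ' hγ' hne => ?_
      rcases lt_trichotomy (w γ') (w γ) with hlt | heq | hgt
      · rw [hin γ' hγ' hlt, mul_zero]
      · exact absurd (hΓ hγ' hγ heq) hne
      · rw [hy2 γ' hγ' hgt, zero_mul]
    rw [e2, e3, hy1, one_mul] at e1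
    exact e1
  have hdiff : ∑ α' ∈ A, x α' * (φ (α' + γ) - ψ (α' + γ)) = 0 := by
    simp only [mul_sub, Finset.sum_sub_distrib]
    rw [hx3 γ hγ, hzero, sub_zero]
  have hsing : ∑ α' ∈ A, x α' * (φ (α' + γ) - ψ (α' + γ)) = x α * (φ (α + γ) - ψ (α + γ)) := by
    refine Finset.sum_eq_single_of_mem α hα fun α' hα' hne => ?_
    rcases lt_trichotomy (w α') (w α) with hlt | heq | hgt
    · rw [h α' hα' γ hγ (by rw [hw, hw]; omega), sub_self, mul_zero]
    · exact absurd (hA hα' hα heq) hne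
    · rw [hx2 α' hα' hgt, zero_mul]
  rw [hsing, hx1, one_mul] at hdiff
  exact sub_eq_zero.mp hdiff

/-- The exponent recorded at `β`. -/
private noncomputable def eb_code [AddCommMonoid M] [Field F] (w : M → ℕ) (A Γ : Finset M)
    (φ : M → F) (β : M) : Option A := by
  classical
  exact if h : ∃ α : A, ∃ γ ∈ Γ, α.1 + γ = β ∧ IsLead w A Γ φ α.1 ∧ IsLead w Γ A φ γ then
    some h.choose else none

private theorem eb_code_some [AddCommMonoid M] [Field F] {w : M → ℕ} {A Γ : Finset M}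
    {φ : M → F} {β : M} {α : A} (h : eb_code w A Γ φ β = some α) :
    ∃ γ ∈ Γ, α.1 + γ = β ∧ IsLead w A Γ φ α.1 ∧ IsLead w Γ A φ γ := by
  classical
  unfold eb_code at h
  by_cases hh : ∃ α : A, ∃ γ ∈ Γ, α.1 + γ = β ∧ IsLead w A Γ φ α.1 ∧ IsLead w Γ A φ γ
  · rw [dif_pos hh] at h
    have hc := hh.choose_spec
    rw [Option.some.inj h] at hc
    exact hc
  · rw [dif_neg hh] at h
    exact absurd h (by simp)

private theorem eb_code_exists [AddCommMonoid M] [Field F] {w : M → ℕ} {A Γ : Finset M}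
    {φ : M → F} {β : M}
    (hh : ∃ α : A, ∃ γ ∈ Γ, α.1 + γ = β ∧ IsLead w A Γ φ α.1 ∧ IsLead w Γ A φ γ) :
    ∃ α, eb_code w A Γ φ β = some α := by
  classical
  unfold eb_code
  exact ⟨hh.choose, dif_pos hh⟩

/-- eb: functions with all their free exponents in `R`. -/
theorem enc_fix [AddCommMonoid M] [Field F] [Fintype F] (w : M → ℕ)
    (hw : ∀ a b, w (a + b) = w a + w b) (A Γ B R : Finset M) (hA : Set.InjOn w (A : Set M))
    (hΓ : Set.InjOn w (Γ : Set M)) (hB : Set.InjOn w (B : Set M))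
    (hAB : ∀ α ∈ A, ∀ γ ∈ Γ, α + γ ∈ B) (hR : R ⊆ B) (𝒮 : Finset (M → F))
    (h𝒮 : ∀ φ ∈ 𝒮, Fr w A Γ B φ ⊆ R)
    (hinj : ∀ φ ∈ 𝒮, ∀ ψ ∈ 𝒮, (∀ β ∈ B, φ β = ψ β) → φ = ψ) :
    𝒮.card ≤ (A.card + 1) ^ B.card * Fintype.card F ^ R.card := by
  classical
  let f : (M → F) → (B → Option A) × (R → F) :=
    fun φ => (fun β => eb_code w A Γ φ β.1, fun β => φ β.1)
  have hcard : Fintype.card ((B → Option A) × (R → F))
      = (A.card + 1) ^ B.card * Fintype.card F ^ R.card := by
    rw [Fintype.card_prod, Fintype.card_fun, Fintype.card_fun, Fintype.card_option]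
    simp only [Fintype.card_coe]
  rw [← hcard, ← Finset.card_univ]
  refine Finset.card_le_card_of_injOn f (fun _ _ => Finset.mem_univ _) ?_
  intro φ hφ ψ hψ hfe
  have hφ' : φ ∈ 𝒮 := hφ
  have hψ' : ψ ∈ 𝒮 := hψ
  have hc : ∀ β : M, β ∈ B → eb_code w A Γ φ β = eb_code w A Γ ψ β := by
    intro β hβ
    have := congrFun (congrArg Prod.fst hfe) ⟨β, hβ⟩
    exact this
  have hv : ∀ β : M, β ∈ R → φ β = ψ β := by
    intro β hβ
    have := congrFun (congrArg Prod.snd hfe) ⟨β, hβ⟩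
    exact this
  refine hinj φ hφ' ψ hψ' ?_
  have key : ∀ (n : ℕ) (β : M), β ∈ B → w β = n → φ β = ψ β := by
    intro n
    induction n using Nat.strong_induction_on with
    | _ n ih =>
      intro β hβ hn
      by_cases hβR : β ∈ R
      · exact hv β hβR
      · have hnF : β ∉ Fr w A Γ B φ := fun hh => hβR (h𝒮 φ hφ' hh)
        rw [mem_Fr] at hnF
        push Not at hnF
        obtain ⟨α, hα, γ, hγ, hαγ, hnα, hnγ⟩ := hnF hβ
        have hlα : IsLead w A Γ φ α := by
          by_contra hcon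
          exact hnα (mem_NL.mpr ⟨hα, hcon⟩)
        have hlγ : IsLead w Γ A φ γ := by
          by_contra hcon
          exact hnγ (mem_NL.mpr ⟨hγ, hcon⟩)
        obtain ⟨α0, h0⟩ := eb_code_exists (w := w) (A := A) (Γ := Γ) (φ := φ) (β := β)
          ⟨⟨α, hα⟩, γ, hγ, hαγ, hlα, hlγ⟩
        obtain ⟨γ0, hγ0, he0, hl0, _⟩ := eb_code_some h0
        have h0' : eb_code w A Γ ψ β = some α0 := by rw [← hc β hβ]; exact h0
        obtain ⟨γ1, hγ1, he1, _, hl1⟩ := eb_code_some h0'
        have hstep := enc_step w hw A Γ hA hΓ φ ψ (α := α0.1) (γ := γ1) α0.2 hγ1 ?_ hl0 hl1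
        · rw [he1] at hstep
          exact hstep
        · intro α' hα' γ' hγ' hlt
          rw [he1, hn] at hlt
          exact ih (w (α' + γ')) hlt (α' + γ') (hAB α' hα' γ' hγ') rfl
  intro β hβ
  exact key (w β) β hβ rfl

/-- ec -/
theorem enc [AddCommMonoid M] [Field F] [Fintype F] (w : M → ℕ)
    (hw : ∀ a b, w (a + b) = w a + w b) (A Γ B : Finset M) (hA : Set.InjOn w (A : Set M))
    (hΓ : Set.InjOn w (Γ : Set M)) (hB : Set.InjOn w (B : Set M))
    (hAB : ∀ α ∈ A, ∀ γ ∈ Γ, α + γ ∈ B) (f : ℕ) (𝒮 : Finset (M → F))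
    (h𝒮 : ∀ φ ∈ 𝒮, (Fr w A Γ B φ).card ≤ f)
    (hinj : ∀ φ ∈ 𝒮, ∀ ψ ∈ 𝒮, (∀ β ∈ B, φ β = ψ β) → φ = ψ) :
    𝒮.card ≤ (2 * (A.card + 1)) ^ B.card * Fintype.card F ^ f := by
  classical
  have hq : 0 < Fintype.card F := Fintype.card_pos
  have hmaps : ∀ φ ∈ 𝒮, Fr w A Γ B φ ∈ B.powerset := by
    intro φ _
    rw [Finset.mem_powerset]
    intro β hβ
    exact (mem_Fr.mp hβ).1
  have hfib := Finset.card_le_mul_card_image_of_maps_to hmaps
    ((A.card + 1) ^ B.card * Fintype.card F ^ f) ?_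
  · calc 𝒮.card ≤ (A.card + 1) ^ B.card * Fintype.card F ^ f * B.powerset.card := hfib
      _ = (2 * (A.card + 1)) ^ B.card * Fintype.card F ^ f := by
        rw [Finset.card_powerset, mul_pow]; ring
  · intro R hR
    by_cases hne : (𝒮.filter fun φ => Fr w A Γ B φ = R).Nonempty
    · obtain ⟨φ0, hφ0⟩ := hne
      rw [Finset.mem_filter] at hφ0
      have hRc : R.card ≤ f := by rw [← hφ0.2]; exact h𝒮 φ0 hφ0.1
      calc (𝒮.filter fun φ => Fr w A Γ B φ = R).card
          ≤ (A.card + 1) ^ B.card * Fintype.card F ^ R.card := by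
            refine enc_fix w hw A Γ B R hA hΓ hB hAB (Finset.mem_powerset.mp hR) _ ?_ ?_
            · intro φ hφ
              rw [Finset.mem_filter] at hφ
              rw [hφ.2]
            · intro φ hφ ψ hψ hh
              rw [Finset.mem_filter] at hφ hψ
              exact hinj φ hφ.1 ψ hψ.1 hh
        _ ≤ (A.card + 1) ^ B.card * Fintype.card F ^ f :=
            Nat.mul_le_mul_left _ (Nat.pow_le_pow_right hq hRc)
    · rw [Finset.not_nonempty_iff_eq_empty] at hne
      rw [hne, Finset.card_empty]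
      exact Nat.zero_le _

/-- ed: functions with a relation between the rows. -/
theorem enc_top [AddCommMonoid M] [IsCancelAdd M] [Field F] [Fintype F] (w : M → ℕ)
    (hw : ∀ a b, w (a + b) = w a + w b) (A Γ B : Finset M) (hA : Set.InjOn w (A : Set M))
    (hB : Set.InjOn w (B : Set M)) (hAB : ∀ α ∈ A, ∀ γ ∈ Γ, α + γ ∈ B) (𝒮 : Finset (M → F))
    (h𝒮 : ∀ φ ∈ 𝒮, rk A Γ φ < A.card)
    (hinj : ∀ φ ∈ 𝒮, ∀ ψ ∈ 𝒮, (∀ β ∈ B, φ β = ψ β) → φ = ψ) :
    𝒮.card ≤ Fintype.card F ^ (A.card + (B.card - Γ.card)) := by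
  classical
  have hq : 0 < Fintype.card F := Fintype.card_pos
  have hrel : ∀ φ : M → F, ∃ x : M → F, φ ∈ 𝒮 →
      (∃ α ∈ A, x α ≠ 0) ∧ ∀ γ ∈ Γ, ∑ α ∈ A, x α * φ (α + γ) = 0 := by
    intro φ
    by_cases hφ : φ ∈ 𝒮
    · obtain ⟨x, hx⟩ := exists_rel A Γ φ (h𝒮 φ hφ)
      exact ⟨x, fun _ => hx⟩
    · exact ⟨0, fun hh => absurd hh hφ⟩
  choose X hX using hrel
  let g : (M → F) → (A → F) := fun φ α => X φ α.1
  have hmaps : ∀ φ ∈ 𝒮, g φ ∈ (Finset.univ : Finset (A → F)) := fun _ _ => Finset.mem_univ _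
  have hfib := Finset.card_le_mul_card_image_of_maps_to hmaps
    (Fintype.card F ^ (B.card - Γ.card)) ?_
  · calc 𝒮.card ≤ Fintype.card F ^ (B.card - Γ.card) * (Finset.univ : Finset (A → F)).card := hfib
      _ = Fintype.card F ^ (A.card + (B.card - Γ.card)) := by
        rw [Finset.card_univ, Fintype.card_fun, Fintype.card_coe, pow_add]; ring
  · intro x _
    by_cases hne : (𝒮.filter fun φ => g φ = x).Nonempty
    · obtain ⟨φ0, hφ0⟩ := hne
      rw [Finset.mem_filter] at hφ0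
      obtain ⟨⟨α1, hα1, hx1⟩, _⟩ := hX φ0 hφ0.1
      -- the leading exponent
      let P : Finset M := A.filter fun α => X φ0 α ≠ 0
      have hPne : P.Nonempty := ⟨α1, Finset.mem_filter.mpr ⟨hα1, hx1⟩⟩
      obtain ⟨α0, hα0, hmax⟩ := Finset.exists_max_image P w hPne
      have hα0A : α0 ∈ A := (Finset.mem_filter.mp hα0).1
      have hα0x : X φ0 α0 ≠ 0 := (Finset.mem_filter.mp hα0).2
      have hlast : ∀ α ∈ A, w α0 < w α → X φ0 α = 0 := by
        intro α hα hlt
        by_contra hcon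
        have := hmax α (Finset.mem_filter.mpr ⟨hα, hcon⟩)
        omega
      have hsame : ∀ φ ∈ 𝒮.filter (fun φ => g φ = x), ∀ α ∈ A, X φ α = X φ0 α := by
        intro φ hφ α hα
        rw [Finset.mem_filter] at hφ
        have h1 := congrFun hφ.2 ⟨α, hα⟩
        have h2 := congrFun hφ0.2 ⟨α, hα⟩
        exact h1.trans h2.symm
      let I : Finset M := Γ.image fun γ => α0 + γ
      have hIc : I.card = Γ.card := by
        refine Finset.card_image_of_injective Γ ?_
        intro a b hab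
        exact add_left_cancel hab
      have hIB : I ⊆ B := by
        intro β hβ
        obtain ⟨γ, hγ, rfl⟩ := Finset.mem_image.mp hβ
        exact hAB α0 hα0A γ hγ
      let f : (M → F) → ((B \ I : Finset M) → F) := fun φ β => φ β.1
      have hcard : Fintype.card ((B \ I : Finset M) → F)
          = Fintype.card F ^ (B.card - Γ.card) := by
        rw [Fintype.card_fun, Fintype.card_coe, Finset.card_sdiff_of_subset hIB, hIc]
      rw [← hcard, ← Finset.card_univ]
      refine Finset.card_le_card_of_injOn f (fun _ _ => Finset.mem_univ _) ?_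
      intro φ hφ ψ hψ hfe
      have hφ' : φ ∈ 𝒮.filter (fun φ => g φ = x) := hφ
      have hψ' : ψ ∈ 𝒮.filter (fun φ => g φ = x) := hψ
      have hφS := (Finset.mem_filter.mp hφ').1
      have hψS := (Finset.mem_filter.mp hψ').1
      refine hinj φ hφS ψ hψS ?_
      have key : ∀ (n : ℕ) (β : M), β ∈ B → w β = n → φ β = ψ β := by
        intro n
        induction n using Nat.strong_induction_on with
        | _ n ih =>
          intro β hβ hn
          by_cases hβI : β ∈ I
          · obtain ⟨γ, hγ, hβe⟩ := Finset.mem_image.mp hβI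
            have e1 : ∑ α ∈ A, X φ0 α * φ (α + γ) = 0 := by
              rw [← (hX φ hφS).2 γ hγ]
              exact Finset.sum_congr rfl fun α hα => by rw [hsame φ hφ' α hα]
            have e2 : ∑ α ∈ A, X φ0 α * ψ (α + γ) = 0 := by
              rw [← (hX ψ hψS).2 γ hγ]
              exact Finset.sum_congr rfl fun α hα => by rw [hsame ψ hψ' α hα]
            have e3 : ∑ α ∈ A, X φ0 α * (φ (α + γ) - ψ (α + γ)) = 0 := by
              simp only [mul_sub, Finset.sum_sub_distrib]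
              rw [e1, e2, sub_zero]
            have e4 : ∑ α ∈ A, X φ0 α * (φ (α + γ) - ψ (α + γ))
                = X φ0 α0 * (φ (α0 + γ) - ψ (α0 + γ)) := by
              refine Finset.sum_eq_single_of_mem α0 hα0A fun α hα hne2 => ?_
              rcases lt_trichotomy (w α) (w α0) with hlt | heq | hgt
              · rw [ih (w (α + γ)) (by rw [← hn, ← hβe, hw, hw]; omega) (α + γ)
                  (hAB α hα γ hγ) rfl, sub_self, mul_zero]
              · exact absurd (hA hα hα0A heq) hne2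
              · rw [hlast α hα hgt, zero_mul]
            rw [e4] at e3
            rcases mul_eq_zero.mp e3 with h5 | h5
            · exact absurd h5 hα0x
            · rw [← hβe]
              exact sub_eq_zero.mp h5
          · have h6 : β ∈ B \ I := Finset.mem_sdiff.mpr ⟨hβ, hβI⟩
            exact congrFun hfe ⟨β, h6⟩
      intro β hβ
      exact key (w β) β hβ rfl
    · rw [Finset.not_nonempty_iff_eq_empty] at hne
      rw [hne, Finset.card_empty]
      exact Nat.zero_le _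

end Pool.Agent.Nks
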