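import Mathlib

/-!
# Distribution of the forms on the positions
-/

set_option autoImplicit false

namespace Pool.Agent.Nks

open Finset

private theorem ha_sum {P B : Type} [Fintype P] [DecidableEq P] [DecidableEq B] (X : Finset B)
    (Reg : P → Finset B) (N : B → ℕ) (S : Finset P) :
    ∑ c ∈ S, (∑ β ∈ X ∩ Reg c, (1 / (N β : ℚ))) =
      ∑ β ∈ X, ((S.filter fun c => β ∈ Reg c).card : ℚ) * (1 / (N β : ℚ)) := by
  have h1 : ∀ c ∈ S, (∑ β ∈ X ∩ Reg c, (1 / (N β : ℚ))) =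
      ∑ β ∈ X, if β ∈ Reg c then (1 / (N β : ℚ)) else 0 := by
    intro c _
    rw [← Finset.sum_filter]
    apply Finset.sum_congr _ (fun _ _ => rfl)
    ext β
    simp
  rw [Finset.sum_congr rfl h1, Finset.sum_comm]
  apply Finset.sum_congr rfl
  intro β _
  rw [← Finset.sum_filter, Finset.sum_const, nsmul_eq_mul]

/-- ha: `μ c = ∑_{β ∈ X ∩ Reg c} 1 / N β`, `N β` the number of the regions with `β`; take
`m c = ⌊μ c / s⌋` and add the rest to one `c`. -/
theorem hall {P B : Type} [Fintype P] [DecidableEq P] [DecidableEq B] (X : Finset B)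
    (Reg : P → Finset B) (hcov : ∀ β ∈ X, ∃ c, β ∈ Reg c) (s r₀ T₀ : ℕ) (hs : 1 ≤ s)
    (hr : X.card < (r₀ + 1) * s) (hP : Nonempty P)
    (hslack : ∀ 𝒜 : Finset P, 𝒜.Nonempty → 𝒜 ≠ univ →
      Fintype.card P ^ 2 * s ≤ (X.filter fun β => (∃ c ∈ 𝒜, β ∈ Reg c) ∧ ∃ c, c ∉ 𝒜 ∧ β ∈ Reg c).card)
    (hT : ∀ c, Fintype.card P * T₀ ≤ (X ∩ Reg c).card) :
    ∃ m : P → ℕ, ∑ c, m c = r₀ ∧ (∀ c, T₀ ≤ m c * s + s) ∧
      ∀ 𝒜 : Finset P, (X.filter fun β => ∀ c ∈ 𝒜, β ∉ Reg c).card ≤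
        ∑ c ∈ 𝒜ᶜ, m c * s + (X.card - r₀ * s) := by
  obtain ⟨N, hN⟩ : ∃ N : B → ℕ, ∀ β, N β = (univ.filter fun c => β ∈ Reg c).card :=
    ⟨_, fun _ => rfl⟩
  have hN1 : ∀ β ∈ X, 1 ≤ N β := by
    intro β hβ
    obtain ⟨c, hc⟩ := hcov β hβ
    rw [hN, Nat.one_le_iff_ne_zero, Ne, Finset.card_eq_zero]
    intro h
    have : c ∈ (univ.filter fun c => β ∈ Reg c) := by simp [hc]
    rw [h] at this
    simp at this
  have hN2 : ∀ β, N β ≤ Fintype.card P := by
    intro β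
    rw [hN]
    exact (Finset.card_filter_le _ _).trans (le_of_eq Finset.card_univ)
  obtain ⟨p, hp⟩ : ∃ p : ℕ, p = Fintype.card P := ⟨_, rfl⟩
  have hp1 : 1 ≤ p := by rw [hp]; exact Fintype.card_pos
  have hpq : (0 : ℚ) < p := by exact_mod_cast hp1
  have hsq : (0 : ℚ) < s := by exact_mod_cast hs
  rw [← hp] at hslack hT
  obtain ⟨μ, hμ⟩ : ∃ μ : P → ℚ, ∀ c, μ c = ∑ β ∈ X ∩ Reg c, (1 / (N β : ℚ)) := ⟨_, fun _ => rfl⟩
  have hμ0 : ∀ c, 0 ≤ μ c := by
    intro c; rw [hμ]; apply Finset.sum_nonneg; intro β _; positivity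
  have hμS : ∀ S : Finset P, ∑ c ∈ S, μ c =
      ∑ β ∈ X, ((S.filter fun c => β ∈ Reg c).card : ℚ) * (1 / (N β : ℚ)) := by
    intro S
    rw [← ha_sum]
    exact Finset.sum_congr rfl fun c _ => hμ c
  have htot : ∑ c, μ c = X.card := by
    rw [hμS]
    have : ∀ β ∈ X, ((univ.filter fun c => β ∈ Reg c).card : ℚ) * (1 / (N β : ℚ)) = 1 := by
      intro β hβ
      rw [← hN]
      have := hN1 β hβ
      have h0 : (N β : ℚ) ≠ 0 := by
        have : (0 : ℚ) < N β := by exact_mod_cast this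
        exact this.ne'
      field_simp
    rw [Finset.sum_congr rfl this]
    simp
  -- the floors
  obtain ⟨m₀, hm₀⟩ : ∃ m₀ : P → ℕ, ∀ c, m₀ c = ⌊μ c / s⌋₊ := ⟨_, fun _ => rfl⟩
  have hm1 : ∀ c, (m₀ c : ℚ) * s ≤ μ c := by
    intro c
    rw [hm₀]
    have := Nat.floor_le (div_nonneg (hμ0 c) hsq.le)
    calc ((⌊μ c / s⌋₊ : ℕ) : ℚ) * s ≤ μ c / s * s := by
          exact mul_le_mul_of_nonneg_right this hsq.le
      _ = μ c := by field_simp
  have hm2 : ∀ c, μ c ≤ (m₀ c : ℚ) * s + s := by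
    intro c
    rw [hm₀]
    have := (Nat.lt_floor_add_one (μ c / s)).le
    calc μ c = μ c / s * s := by field_simp
      _ ≤ ((⌊μ c / s⌋₊ : ℕ) + 1 : ℚ) * s := mul_le_mul_of_nonneg_right this hsq.le
      _ = _ := by ring
  have hsum : ∑ c, m₀ c ≤ r₀ := by
    have h1 : ((∑ c, m₀ c : ℕ) : ℚ) * s ≤ X.card := by
      rw [← htot]
      push_cast
      rw [Finset.sum_mul]
      exact Finset.sum_le_sum fun c _ => hm1 c
    have h2 : (∑ c, m₀ c) * s ≤ X.card := by exact_mod_cast h1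
    have h3 : (∑ c, m₀ c) * s < (r₀ + 1) * s := lt_of_le_of_lt h2 hr
    have := Nat.lt_of_mul_lt_mul_right h3
    omega
  obtain ⟨c₀⟩ := hP
  obtain ⟨m, hm⟩ : ∃ m : P → ℕ, ∀ c, m c = m₀ c + if c = c₀ then r₀ - ∑ c, m₀ c else 0 :=
    ⟨_, fun _ => rfl⟩
  have hmm : ∀ c, m₀ c ≤ m c := by intro c; rw [hm]; omega
  have hmsum : ∑ c, m c = r₀ := by
    rw [Finset.sum_congr rfl fun c _ => hm c, Finset.sum_add_distrib, Finset.sum_ite_eq']
    simp only [mem_univ, if_true]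
    omega
  refine ⟨m, hmsum, ?_, ?_⟩
  · intro c
    have h1 : (T₀ : ℚ) ≤ μ c := by
      have h2 : ((X ∩ Reg c).card : ℚ) * (1 / p) ≤ μ c := by
        rw [hμ, ← nsmul_eq_mul, ← Finset.sum_const]
        apply Finset.sum_le_sum
        intro β hβ
        have hβX := (Finset.mem_inter.mp hβ).1
        have h3 : (0 : ℚ) < N β := by exact_mod_cast hN1 β hβX
        have h4 : (N β : ℚ) ≤ p := by rw [hp]; exact_mod_cast hN2 β
        exact one_div_le_one_div_of_le h3 h4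
      have h5 : ((p * T₀ : ℕ) : ℚ) ≤ (X ∩ Reg c).card := by exact_mod_cast hT c
      push_cast at h5
      calc (T₀ : ℚ) = (p * T₀) * (1 / p) := by field_simp
        _ ≤ ((X ∩ Reg c).card : ℚ) * (1 / p) := by
            exact mul_le_mul_of_nonneg_right h5 (by positivity)
        _ ≤ μ c := h2
    have h2 : (T₀ : ℚ) ≤ (m c : ℚ) * s + s := by
      have h3 : (m₀ c : ℚ) ≤ m c := by exact_mod_cast hmm c
      have h4 : (m₀ c : ℚ) * s ≤ m c * s := mul_le_mul_of_nonneg_right h3 hsq.le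
      linarith [hm2 c]
    exact_mod_cast h2
  · intro 𝒜
    by_cases h0 : 𝒜 = ∅
    · subst h0
      have h1 : (X.filter fun β => ∀ c ∈ (∅ : Finset P), β ∉ Reg c).card ≤ X.card :=
        Finset.card_filter_le _ _
      rw [Finset.compl_empty, ← Finset.sum_mul, hmsum]
      omega
    by_cases h1 : 𝒜 = univ
    · subst h1
      have h2 : (X.filter fun β => ∀ c ∈ (univ : Finset P), β ∉ Reg c) = ∅ := by
        rw [Finset.filter_eq_empty_iff]
        intro β hβ hc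
        obtain ⟨c, hc'⟩ := hcov β hβ
        exact hc c (Finset.mem_univ _) hc'
      rw [h2]
      simp
    · have hsl := hslack 𝒜 (Finset.nonempty_iff_ne_empty.mpr h0) h1
      -- lower bound of the sum of μ over the complement
      have h2 : ((X.filter fun β => ∀ c ∈ 𝒜, β ∉ Reg c).card : ℚ)
          + ((X.filter fun β => (∃ c ∈ 𝒜, β ∈ Reg c) ∧ ∃ c, c ∉ 𝒜 ∧ β ∈ Reg c).card : ℚ) * (1 / p)
          ≤ ∑ c ∈ 𝒜ᶜ, μ c := by
        rw [hμS]
        have e1 : ((X.filter fun β => ∀ c ∈ 𝒜, β ∉ Reg c).card : ℚ)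
            = ∑ β ∈ X, if (∀ c ∈ 𝒜, β ∉ Reg c) then (1 : ℚ) else 0 := by
          rw [Finset.sum_boole]
        have e2 : ((X.filter fun β => (∃ c ∈ 𝒜, β ∈ Reg c) ∧ ∃ c, c ∉ 𝒜 ∧ β ∈ Reg c).card : ℚ)
            * (1 / p) = ∑ β ∈ X, if ((∃ c ∈ 𝒜, β ∈ Reg c) ∧ ∃ c, c ∉ 𝒜 ∧ β ∈ Reg c)
              then (1 / (p : ℚ)) else 0 := by
          rw [← Finset.sum_filter, Finset.sum_const, nsmul_eq_mul]
        rw [e1, e2, ← Finset.sum_add_distrib]
        apply Finset.sum_le_sum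
        intro β hβ
        have hn1 : (0 : ℚ) < N β := by exact_mod_cast hN1 β hβ
        have hn2 : (N β : ℚ) ≤ p := by rw [hp]; exact_mod_cast hN2 β
        by_cases hA : ∀ c ∈ 𝒜, β ∉ Reg c
        · have hB : ¬ ((∃ c ∈ 𝒜, β ∈ Reg c) ∧ ∃ c, c ∉ 𝒜 ∧ β ∈ Reg c) := by
            rintro ⟨⟨c, hc, hc'⟩, _⟩
            exact hA c hc hc'
          rw [if_pos hA, if_neg hB]
          have : (𝒜ᶜ.filter fun c => β ∈ Reg c) = univ.filter fun c => β ∈ Reg c := by
            ext c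
            simp only [Finset.mem_filter, Finset.mem_compl, Finset.mem_univ, true_and]
            constructor
            · exact fun h => h.2
            · exact fun h => ⟨fun hc => hA c hc h, h⟩
          rw [this, ← hN]
          have : (N β : ℚ) * (1 / N β) = 1 := by field_simp
          rw [this]; norm_num
        · rw [if_neg hA]
          split_ifs with hB
          · obtain ⟨_, c, hc, hc'⟩ := hB
            have h3 : 1 ≤ (𝒜ᶜ.filter fun c => β ∈ Reg c).card := by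
              rw [Nat.one_le_iff_ne_zero, Ne, Finset.card_eq_zero]
              intro h
              have : c ∈ (𝒜ᶜ.filter fun c => β ∈ Reg c) :=
                Finset.mem_filter.mpr ⟨Finset.mem_compl.mpr hc, hc'⟩
              rw [h] at this
              exact absurd this (Finset.notMem_empty _)
            have h4 : (1 : ℚ) ≤ ((𝒜ᶜ.filter fun c => β ∈ Reg c).card : ℚ) := by exact_mod_cast h3
            have h5 : 1 / (p : ℚ) ≤ 1 / N β := one_div_le_one_div_of_le hn1 hn2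
            have h6 : 0 < 1 / (N β : ℚ) := by positivity
            nlinarith
          · have : 0 ≤ ((𝒜ᶜ.filter fun c => β ∈ Reg c).card : ℚ) * (1 / (N β : ℚ)) :=
              mul_nonneg (Nat.cast_nonneg _) (one_div_pos.mpr hn1).le
            rw [add_zero]
            exact this
      have h3 : (p : ℚ) * s ≤
          ((X.filter fun β => (∃ c ∈ 𝒜, β ∈ Reg c) ∧ ∃ c, c ∉ 𝒜 ∧ β ∈ Reg c).card : ℚ)
            * (1 / p) := by
        have h4 : ((p ^ 2 * s : ℕ) : ℚ) ≤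
          ((X.filter fun β => (∃ c ∈ 𝒜, β ∈ Reg c) ∧ ∃ c, c ∉ 𝒜 ∧ β ∈ Reg c).card : ℚ) := by
          exact_mod_cast hsl
        push_cast at h4
        calc (p : ℚ) * s = (p ^ 2 * s) * (1 / p) := by field_simp
          _ ≤ _ := mul_le_mul_of_nonneg_right h4 (by positivity)
      have h4 : ∑ c ∈ 𝒜ᶜ, μ c ≤ ∑ c ∈ 𝒜ᶜ, (m c : ℚ) * s + p * s := by
        have h5 : ∑ c ∈ 𝒜ᶜ, μ c ≤ ∑ c ∈ 𝒜ᶜ, ((m c : ℚ) * s + s) := by
          apply Finset.sum_le_sum
          intro c _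
          have h3 : (m₀ c : ℚ) ≤ m c := by exact_mod_cast hmm c
          have h4 : (m₀ c : ℚ) * s ≤ m c * s := mul_le_mul_of_nonneg_right h3 hsq.le
          linarith [hm2 c]
        rw [Finset.sum_add_distrib, Finset.sum_const, nsmul_eq_mul] at h5
        have h6 : ((𝒜ᶜ.card : ℕ) : ℚ) ≤ p := by
          rw [hp]
          exact_mod_cast (Finset.card_le_univ _)
        have h7 : ((𝒜ᶜ.card : ℕ) : ℚ) * s ≤ p * s := mul_le_mul_of_nonneg_right h6 hsq.le
        linarith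
      have h5 : ((X.filter fun β => ∀ c ∈ 𝒜, β ∉ Reg c).card : ℚ) ≤ ∑ c ∈ 𝒜ᶜ, (m c : ℚ) * s := by
        linarith
      have h6 : (X.filter fun β => ∀ c ∈ 𝒜, β ∉ Reg c).card ≤ ∑ c ∈ 𝒜ᶜ, m c * s := by
        exact_mod_cast h5
      omega

end Pool.Agent.Nks
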