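import Pool.Agent.Nks.Mon

/-!
# Numerical conditions
-/

set_option autoImplicit false

namespace Pool.Agent.Nks

open Finset

/-- na: `|mon (d/2)| ≥ (d/2 + 1)^(n-1) / (n-1)!` and `|mon j| ≤ (j+1)^(n-1)`. -/
theorem num_slack {n : ℕ} (hn : 2 ≤ n) (N : ℕ) : ∃ K₀ : ℕ, ∀ d j : ℕ, K₀ * (j + 1) ≤ d →
    N ^ 2 * (mon n j).card + N * (mon n j).card ≤ (mon n (d / 2)).card := by
  refine ⟨2 * ((N ^ 2 + N) * (n - 1).factorial), fun d j hd => ?_⟩
  have hn1 : 1 ≤ n := by omega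
  have hf : 0 < (n - 1).factorial := Nat.factorial_pos _
  set E := (N ^ 2 + N) * (n - 1).factorial with hE
  have h1 : E * (j + 1) ≤ d / 2 + 1 := by
    have h0 : 2 * (E * (j + 1)) ≤ d := by
      calc 2 * (E * (j + 1)) = 2 * E * (j + 1) := by ring
        _ ≤ d := hd
    omega
  have h2 : E * (j + 1) ^ (n - 1) ≤ (d / 2 + 1) ^ (n - 1) := by
    calc E * (j + 1) ^ (n - 1) ≤ E ^ (n - 1) * (j + 1) ^ (n - 1) := by
          refine Nat.mul_le_mul_right _ ?_
          rcases Nat.eq_zero_or_pos E with h0 | h0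
          · rw [h0]; exact Nat.zero_le _
          · exact Nat.le_self_pow (by omega) E
      _ = (E * (j + 1)) ^ (n - 1) := (mul_pow _ _ _).symm
      _ ≤ (d / 2 + 1) ^ (n - 1) := Nat.pow_le_pow_left h1 _
  have h3 := le_card_mon hn1 (d / 2)
  have h4 := card_mon_le hn1 j
  have h5 : (n - 1).factorial * (N ^ 2 * (mon n j).card + N * (mon n j).card) ≤
      (n - 1).factorial * (mon n (d / 2)).card := by
    calc (n - 1).factorial * (N ^ 2 * (mon n j).card + N * (mon n j).card)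
        = E * (mon n j).card := by rw [hE]; ring
      _ ≤ E * (j + 1) ^ (n - 1) := Nat.mul_le_mul_left _ h4
      _ ≤ (d / 2 + 1) ^ (n - 1) := h2
      _ ≤ _ := h3
  exact Nat.le_of_mul_le_mul_left h5 hf

private theorem na_up {n : ℕ} (hn : 2 ≤ n) (N : ℕ) (hN : 1 ≤ N) (d j m : ℕ)
    (h : ((mon n (d + j)).card - N * (mon n j).card) / N ≤
      m * (mon n j).card + (mon n j).card) :
    (mon n (d + j)).card ≤ N * ((m + 3) * (mon n j).card) := by
  have hs : 1 ≤ (mon n j).card := by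
    have h1 := le_card_mon (n := n) (by omega) j
    rcases Nat.eq_zero_or_pos (mon n j).card with h0 | h0
    · rw [h0, mul_zero] at h1
      have : 0 < (j + 1) ^ (n - 1) := Nat.pow_pos (by omega)
      omega
    · exact h0
  set s := (mon n j).card with hsdef
  set X := (mon n (d + j)).card with hX
  have h1 : X - N * s < N * (m * s + s + 1) := by
    have h2 : (X - N * s) / N < m * s + s + 1 := by omega
    rw [Nat.div_lt_iff_lt_mul (by omega)] at h2
    calc X - N * s < (m * s + s + 1) * N := h2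
      _ = N * (m * s + s + 1) := mul_comm _ _
  have h3 : X ≤ N * s + N * (m * s + s + 1) := by omega
  calc X ≤ N * s + N * (m * s + s + 1) := h3
    _ = N * (m * s + 2 * s + 1) := by ring
    _ ≤ N * (m * s + 2 * s + s) := Nat.mul_le_mul_left _ (by omega)
    _ = N * ((m + 3) * s) := by ring

/-- nb: `m ≥ |mon (d+j)| / (N s) - 3 ≥ ρ^(n-1) / (N (n-1)!) - 3`, `ρ = (d+1)/(j+1) ≥ K₀`. -/
theorem num_low {n : ℕ} (hn : 2 ≤ n) (N C : ℕ) (hN : 1 ≤ N) : ∃ K₀ : ℕ, ∀ d j m : ℕ,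
    K₀ * (j + 1) ≤ d →
    ((mon n (d + j)).card - N * (mon n j).card) / N ≤ m * (mon n j).card + (mon n j).card →
    C * (d + 1) ^ (n - 2) ≤ m * (j + 1) ^ (n - 2) := by
  set E := (n - 1).factorial * N with hE
  have hE1 : 1 ≤ E := Nat.mul_pos (Nat.factorial_pos _) hN
  refine ⟨E * (C + 3), fun d j m hd h => ?_⟩
  have hn1 : 1 ≤ n := by omega
  have hup := na_up hn N hN d j m h
  have hlow := le_card_mon hn1 (d + j)
  have hs := card_mon_le hn1 j
  have hjd : j + 1 ≤ d := by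
    calc j + 1 = 1 * (j + 1) := (one_mul _).symm
      _ ≤ E * (C + 3) * (j + 1) := by
        refine Nat.mul_le_mul_right _ ?_
        exact Nat.mul_pos hE1 (by omega)
      _ ≤ d := hd
  have hpow : ∀ x : ℕ, x ^ (n - 1) = x ^ (n - 2) * x := by
    intro x
    have : n - 1 = (n - 2) + 1 := by omega
    rw [this, pow_succ]
  have h1 : (d + 1) ^ (n - 1) ≤ E * ((m + 3) * (j + 1) ^ (n - 1)) := by
    calc (d + 1) ^ (n - 1) ≤ (d + j + 1) ^ (n - 1) := Nat.pow_le_pow_left (by omega) _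
      _ ≤ (n - 1).factorial * (mon n (d + j)).card := hlow
      _ ≤ (n - 1).factorial * (N * ((m + 3) * (mon n j).card)) := Nat.mul_le_mul_left _ hup
      _ ≤ (n - 1).factorial * (N * ((m + 3) * (j + 1) ^ (n - 1))) := by
        refine Nat.mul_le_mul_left _ (Nat.mul_le_mul_left _ (Nat.mul_le_mul_left _ hs))
      _ = E * ((m + 3) * (j + 1) ^ (n - 1)) := by rw [hE]; ring
  have h2 : (E * (j + 1)) * ((C + 3) * (d + 1) ^ (n - 2)) ≤
      (E * (j + 1)) * ((m + 3) * (j + 1) ^ (n - 2)) := by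
    calc (E * (j + 1)) * ((C + 3) * (d + 1) ^ (n - 2))
        = (d + 1) ^ (n - 2) * (E * (C + 3) * (j + 1)) := by ring
      _ ≤ (d + 1) ^ (n - 2) * (d + 1) := Nat.mul_le_mul_left _ (by omega)
      _ = (d + 1) ^ (n - 1) := (hpow _).symm
      _ ≤ E * ((m + 3) * (j + 1) ^ (n - 1)) := h1
      _ = (E * (j + 1)) * ((m + 3) * (j + 1) ^ (n - 2)) := by rw [hpow (j + 1)]; ring
  have h3 : (C + 3) * (d + 1) ^ (n - 2) ≤ (m + 3) * (j + 1) ^ (n - 2) :=
    Nat.le_of_mul_le_mul_left h2 (Nat.mul_pos hE1 (by omega))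
  have h4 : (j + 1) ^ (n - 2) ≤ (d + 1) ^ (n - 2) := Nat.pow_le_pow_left (by omega) _
  have h5 : (C + 3) * (d + 1) ^ (n - 2) = C * (d + 1) ^ (n - 2) + 3 * (d + 1) ^ (n - 2) := by ring
  have h6 : (m + 3) * (j + 1) ^ (n - 2) = m * (j + 1) ^ (n - 2) + 3 * (j + 1) ^ (n - 2) := by ring
  omega

/-- nc: `card_mon_diff`. -/
theorem num_top {n : ℕ} (hn : 2 ≤ n) (N : ℕ) (hN : 1 ≤ N) : ∃ K₀ : ℕ, ∀ d j m : ℕ,
    K₀ * (j + 1) ≤ d →
    ((mon n (d + j)).card - N * (mon n j).card) / N ≤ m * (mon n j).card + (mon n j).card →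
    2 * ((mon n j).card + ((mon n (d + j)).card - (mon n d).card)) ≤ m * (mon n j).card := by
  obtain ⟨K₁, hK₁⟩ := num_low hn N 7 hN
  refine ⟨K₁ + 4 * ((n - 1) * N) + 1, fun d j m hd h => ?_⟩
  have hn1 : 1 ≤ n := by omega
  have hd1 : K₁ * (j + 1) ≤ d := le_trans (Nat.mul_le_mul_right _ (by omega)) hd
  have hd2 : 4 * ((n - 1) * N) * (j + 1) ≤ d := le_trans (Nat.mul_le_mul_right _ (by omega)) hd
  have hd3 : 1 * (j + 1) ≤ d := le_trans (Nat.mul_le_mul_right _ (by omega)) hd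
  have h1 := hK₁ d j m hd1 h
  have h4 : (j + 1) ^ (n - 2) ≤ (d + 1) ^ (n - 2) := Nat.pow_le_pow_left (by omega) _
  have hm : 7 ≤ m := by
    have h5 : 7 * (d + 1) ^ (n - 2) ≤ m * (d + 1) ^ (n - 2) :=
      le_trans h1 (Nat.mul_le_mul_left _ h4)
    exact Nat.le_of_mul_le_mul_right h5 (Nat.pow_pos (by omega))
  have hup := na_up hn N hN d j m h
  have hdiff := card_mon_diff hn1 d j
  set s := (mon n j).card with hs
  set X := (mon n (d + j)).card with hX
  set Δ := X - (mon n d).card with hΔ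
  have h6 : (n - 1) * N * (j + 1) * (4 * Δ) ≤ (n - 1) * N * (j + 1) * ((m + 3) * s) := by
    calc (n - 1) * N * (j + 1) * (4 * Δ) = (4 * ((n - 1) * N) * (j + 1)) * Δ := by ring
      _ ≤ d * Δ := Nat.mul_le_mul_right _ hd2
      _ ≤ (n - 1) * j * X := hdiff
      _ ≤ (n - 1) * (j + 1) * (N * ((m + 3) * s)) :=
          Nat.mul_le_mul (Nat.mul_le_mul_left _ (by omega)) hup
      _ = (n - 1) * N * (j + 1) * ((m + 3) * s) := by ring
  have hpos : 0 < (n - 1) * N * (j + 1) :=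
    Nat.mul_pos (Nat.mul_pos (by omega) (by omega)) (by omega)
  have h7 : 4 * Δ ≤ (m + 3) * s := Nat.le_of_mul_le_mul_left h6 hpos
  have h8 : 7 * s ≤ m * s := Nat.mul_le_mul_right _ hm
  have h9 : (m + 3) * s = m * s + 3 * s := by ring
  omega

end Pool.Agent.Nks
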