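import Pool.Agent.Nks.Mon

/-!
# Positions
-/

set_option autoImplicit false

namespace Pool.Agent.Nks

open Finset

/-- The indicator of the first index with `c i ≠ 0`. -/
def fst {n : ℕ} (c : Fin n → ℕ) (i : Fin n) : ℕ :=
  if 1 ≤ c i ∧ ∀ i' : Fin n, i' < i → c i' = 0 then 1 else 0

/-- p0 -/
theorem fst_le {n : ℕ} (c : Fin n → ℕ) (i : Fin n) : fst c i ≤ c i ∧ fst c i ≤ 1 := by
  unfold fst
  split_ifs with h
  · exact ⟨h.1, le_rfl⟩
  · exact ⟨Nat.zero_le _, Nat.zero_le _⟩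

/-- p1 -/
theorem sum_fst {n : ℕ} (c : Fin n → ℕ) (h : 1 ≤ ∑ i, c i) : ∑ i, fst c i = 1 := by
  have hne : (univ.filter fun i : Fin n => 1 ≤ c i).Nonempty := by
    by_contra hh
    rw [Finset.not_nonempty_iff_eq_empty, Finset.filter_eq_empty_iff] at hh
    have : ∑ i, c i = 0 := Finset.sum_eq_zero fun i _ => by
      have := hh (Finset.mem_univ i)
      omega
    omega
  obtain ⟨i₀, hi₀⟩ : ∃ i₀, i₀ = (univ.filter fun i : Fin n => 1 ≤ c i).min' hne := ⟨_, rfl⟩
  have h1 : 1 ≤ c i₀ := by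
    have := Finset.min'_mem _ hne
    rw [← hi₀] at this
    exact (Finset.mem_filter.mp this).2
  have h2 : ∀ i : Fin n, i < i₀ → c i = 0 := by
    intro i hi
    by_contra hc
    have hm : i ∈ (univ.filter fun i : Fin n => 1 ≤ c i) :=
      Finset.mem_filter.mpr ⟨Finset.mem_univ _, by omega⟩
    have := Finset.min'_le _ i hm
    rw [← hi₀] at this
    exact absurd hi (not_lt.mpr this)
  rw [Finset.sum_eq_single i₀]
  · unfold fst; rw [if_pos ⟨h1, h2⟩]
  · intro i _ hi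
    unfold fst
    rw [if_neg]
    rintro ⟨h3, h4⟩
    rcases lt_trichotomy i i₀ with h5 | h5 | h5
    · rw [h2 i h5] at h3; omega
    · exact hi h5
    · rw [h4 i₀ h5] at h1; omega
  · intro hh; exact absurd (Finset.mem_univ _) hh

/-- The position with the index `c ∈ mon n L`: a monomial of degree `d`. -/
def pt {n : ℕ} (L d : ℕ) (c : Fin n → ℕ) : Fin n → ℕ :=
  fun i => (d / L) * c i + (d % L) * fst c i

/-- pa -/
theorem sum_pt {n L : ℕ} (hL : 1 ≤ L) (d : ℕ) {c : Fin n → ℕ} (hc : c ∈ mon n L) :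
    ∑ i, pt L d c i = d := by
  rw [mem_mon] at hc
  unfold pt
  rw [Finset.sum_add_distrib, ← Finset.mul_sum, ← Finset.mul_sum, hc, sum_fst c (by omega)]
  rw [mul_one, mul_comm]
  exact Nat.div_add_mod d L

/-- pb0 -/
theorem exists_le_sum {n : ℕ} (b : Fin n → ℕ) (L : ℕ) (h : L ≤ ∑ i, b i) :
    ∃ c : Fin n → ℕ, (∀ i, c i ≤ b i) ∧ ∑ i, c i = L := by
  induction L with
  | zero => exact ⟨fun _ => 0, fun _ => Nat.zero_le _, by simp⟩
  | succ L ih =>
    obtain ⟨c, hc, hs⟩ := ih (by omega)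
    have h1 : ∑ i, c i < ∑ i, b i := by omega
    obtain ⟨i, _, hi⟩ := Finset.exists_lt_of_sum_lt h1
    refine ⟨Function.update c i (c i + 1), ?_, ?_⟩
    · intro l
      by_cases hl : l = i
      · subst hl; rw [Function.update_self]; omega
      · rw [Function.update_of_ne hl]; exact hc l
    · rw [Finset.sum_update_of_mem (Finset.mem_univ i)]
      have h2 : c i + ∑ x ∈ univ \ {i}, c x = ∑ x, c x := by
        rw [← Finset.erase_eq]
        exact Finset.add_sum_erase _ _ (Finset.mem_univ i)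
      omega

/-- pb: for `k ≥ 2`, `w = d/L`, `ρ = d%L`, take `b i = β i / ((k-1) (w + ρ))` and a part `c ≤ b` of
degree `L`; `pt c i ≤ (w + ρ) c i`; `(k-1) (w + ρ) ∑ b i ≥ d k - n (k-1) (w + ρ) ≥ (k-1) (w + ρ) L`
because `(k-1) (ρ L + n w + n ρ) ≤ d/4 + d/2 + d/4` and `w L ≤ d`. -/
theorem pt_cover {n k j d : ℕ} (hn : 1 ≤ n) (hk : 1 ≤ k)
    (hd : 4 * k * (2 * n * k) ^ 2 ≤ d) {β : Fin n → ℕ} (hβ : β ∈ mon n (d * k + j)) :
    ∃ c ∈ mon n (2 * n * k), ∀ i, (k - 1) * pt (2 * n * k) d c i ≤ β i := by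
  obtain ⟨L, hL⟩ : ∃ L, L = 2 * n * k := ⟨_, rfl⟩
  have hL1 : 1 ≤ L := by rw [hL]; exact Nat.mul_pos (by omega) hk
  rw [← hL] at hd ⊢
  rcases Nat.lt_or_ge k 2 with hk2 | hk2
  · have hk1 : k = 1 := by omega
    subst hk1
    have i₀ : Fin n := ⟨0, hn⟩
    refine ⟨Pi.single i₀ L, ?_, ?_⟩
    · rw [mem_mon, Finset.sum_pi_single']
      simp
    · intro i; simp
  obtain ⟨w, hw⟩ : ∃ w, w = d / L := ⟨_, rfl⟩
  obtain ⟨ρ, hρ⟩ : ∃ ρ, ρ = d % L := ⟨_, rfl⟩
  have hwL : w * L + ρ = d := by rw [hw, hρ, mul_comm]; exact Nat.div_add_mod d L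
  have hρL : ρ < L := by rw [hρ]; exact Nat.mod_lt _ hL1
  obtain ⟨κ, hκ⟩ : ∃ κ, k = κ + 1 := ⟨k - 1, by omega⟩
  have hκ1 : 1 ≤ κ := by omega
  have hkk : k - 1 = κ := by omega
  have hd0 : L ≤ d := by
    have : L ^ 2 ≤ d := le_trans (by nlinarith [Nat.zero_le (L ^ 2)]) hd
    nlinarith
  have hw1 : 1 ≤ w := by
    rw [hw]; exact Nat.div_pos hd0 hL1
  obtain ⟨q, hq⟩ : ∃ q, q = κ * (w + ρ) := ⟨_, rfl⟩
  have hq1 : 1 ≤ q := by rw [hq]; exact Nat.mul_pos hκ1 (by omega)
  have hsum : L ≤ ∑ i, β i / q := by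
    by_contra hlt
    push Not at hlt
    rw [mem_mon] at hβ
    have h1 : ∑ i, β i < ∑ i : Fin n, q * (β i / q + 1) := by
      apply Finset.sum_lt_sum_of_nonempty ⟨⟨0, hn⟩, Finset.mem_univ _⟩
      intro i _
      have := Nat.div_add_mod (β i) q
      have h2 := Nat.mod_lt (β i) hq1
      rw [mul_add, mul_one]
      omega
    rw [← Finset.mul_sum, Finset.sum_add_distrib, hβ] at h1
    simp only [Finset.sum_const, Finset.card_univ, Fintype.card_fin, smul_eq_mul, mul_one] at h1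
    have h2 : q * (∑ i, β i / q + n) ≤ q * (L + n) := Nat.mul_le_mul_left _ (by omega)
    have h3 : q * (L + n) ≤ d * k := by
      have a1 : 4 * (κ * (ρ * L)) ≤ d := by
        have b1 : ρ * L ≤ L ^ 2 := by nlinarith
        have b2 : κ * (ρ * L) ≤ k * L ^ 2 := Nat.mul_le_mul (by omega) b1
        calc 4 * (κ * (ρ * L)) ≤ 4 * (k * L ^ 2) := Nat.mul_le_mul_left _ b2
          _ = 4 * k * L ^ 2 := by ring
          _ ≤ d := hd
      have a2 : 2 * (κ * (n * w)) ≤ d := by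
        have b1 : 2 * (κ * (n * w)) ≤ L * w := by
          calc 2 * (κ * (n * w)) ≤ 2 * (k * (n * w)) := by
                apply Nat.mul_le_mul_left; apply Nat.mul_le_mul_right; omega
            _ = L * w := by rw [hL]; ring
        nlinarith
      have a3 : 4 * (κ * (n * ρ)) ≤ d := by
        have b1 : κ * (n * ρ) ≤ k * (n * L) := Nat.mul_le_mul (by omega) (Nat.mul_le_mul_left _ hρL.le)
        have b2 : 2 * (k * (n * L)) = L ^ 2 := by
          calc 2 * (k * (n * L)) = (2 * n * k) * L := by ring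
            _ = L ^ 2 := by rw [← hL]; ring
        have b3 : 2 * L ^ 2 ≤ 4 * k * L ^ 2 := Nat.mul_le_mul_right _ (by omega)
        calc 4 * (κ * (n * ρ)) ≤ 4 * (k * (n * L)) := Nat.mul_le_mul_left _ b1
          _ = 2 * L ^ 2 := by rw [← b2]; ring
          _ ≤ d := le_trans b3 hd
      have a4 : κ * (w * L) ≤ κ * d := Nat.mul_le_mul_left _ (by omega)
      have a5 : q * (L + n) = κ * (w * L) + κ * (ρ * L) + κ * (n * w) + κ * (n * ρ) := by
        rw [hq]; ring
      have a6 : d * k = κ * d + d := by rw [hκ]; ring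
      omega
    omega
  obtain ⟨c, hc, hcs⟩ := exists_le_sum (fun i => β i / q) L hsum
  refine ⟨c, mem_mon.mpr hcs, fun i => ?_⟩
  rw [hkk]
  have h1 : pt L d c i ≤ (w + ρ) * c i := by
    unfold pt
    rw [← hw, ← hρ, add_mul]
    exact Nat.add_le_add_left (Nat.mul_le_mul_left _ (fst_le c i).1) _
  calc κ * pt L d c i ≤ κ * ((w + ρ) * c i) := Nat.mul_le_mul_left _ h1
    _ = q * c i := by rw [hq]; ring
    _ ≤ q * (β i / q) := Nat.mul_le_mul_left _ (hc i)
    _ ≤ β i := Nat.mul_div_le _ _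

/-- pc: two different positions: some `c' i ≥ c i + 1`, so
`∑ max ≥ k d + k (d/L - d%L) > d k + j`. -/
theorem pt_sep {n k j d L : ℕ} (hk : 1 ≤ k) (hL : 1 ≤ L) (hj : j + L ≤ d / L) {c c' : Fin n → ℕ}
    (hc : c ∈ mon n L) (hc' : c' ∈ mon n L) {β : Fin n → ℕ} (hβ : β ∈ mon n (d * k + j))
    (h : ∀ i, k * pt L d c i ≤ β i) (h' : ∀ i, k * pt L d c' i ≤ β i) : c = c' := by
  by_contra hne
  have hex : ∃ i, c i < c' i := by
    by_contra hh
    push Not at hh
    apply hne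
    have h1 := mem_mon.mp hc
    have h2 := mem_mon.mp hc'
    funext i
    by_contra hi
    have : ∑ l, c' l < ∑ l, c l :=
      Finset.sum_lt_sum (fun l _ => hh l) ⟨i, Finset.mem_univ _, lt_of_le_of_ne (hh i) (Ne.symm hi)⟩
    omega
  obtain ⟨i, hi⟩ := hex
  have hs := sum_pt hL d hc
  obtain ⟨w, hw⟩ : ∃ w, w = d / L := ⟨_, rfl⟩
  obtain ⟨ρ, hρ⟩ : ∃ ρ, ρ = d % L := ⟨_, rfl⟩
  have hρL : ρ < L := by rw [hρ]; exact Nat.mod_lt _ hL
  have e1 : w * (c i + 1) ≤ pt L d c' i := by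
    unfold pt
    rw [← hw]
    exact le_trans (Nat.mul_le_mul_left _ hi) (Nat.le_add_right _ _)
  have e2 : pt L d c i ≤ w * c i + ρ := by
    unfold pt
    rw [← hw, ← hρ]
    apply Nat.add_le_add_left
    calc ρ * fst c i ≤ ρ * 1 := Nat.mul_le_mul_left _ (fst_le c i).2
      _ = ρ := mul_one _
  rw [mem_mon] at hβ
  have s1 : β i + ∑ l ∈ univ.erase i, β l = d * k + j := by
    rw [Finset.add_sum_erase _ _ (Finset.mem_univ i)]; exact hβ
  have s2 : pt L d c i + ∑ l ∈ univ.erase i, pt L d c l = d := by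
    rw [Finset.add_sum_erase _ _ (Finset.mem_univ i)]; exact hs
  have s3 : k * ∑ l ∈ univ.erase i, pt L d c l ≤ ∑ l ∈ univ.erase i, β l := by
    rw [Finset.mul_sum]
    exact Finset.sum_le_sum fun l _ => h l
  have s4 := h' i
  -- combine
  have t1 : k * (pt L d c' i + ∑ l ∈ univ.erase i, pt L d c l) ≤ d * k + j := by
    rw [mul_add]; omega
  have t2 : d + w ≤ pt L d c' i + ∑ l ∈ univ.erase i, pt L d c l + ρ := by
    have : w * (c i + 1) = w * c i + w := by ring
    omega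
  have t3 : k * (d + w) ≤ d * k + j + k * ρ := by
    calc k * (d + w) ≤ k * (pt L d c' i + ∑ l ∈ univ.erase i, pt L d c l + ρ) :=
          Nat.mul_le_mul_left _ t2
      _ = k * (pt L d c' i + ∑ l ∈ univ.erase i, pt L d c l) + k * ρ := by ring
      _ ≤ _ := Nat.add_le_add_right t1 _
  have t4 : k * w ≤ j + k * ρ := by
    have : k * (d + w) = d * k + k * w := by ring
    omega
  obtain ⟨v, hv⟩ : ∃ v, w = ρ + 1 + j + v := ⟨w - (ρ + 1 + j), by rw [hw] at *; omega⟩
  rw [hv] at t4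
  have t5 : k * (ρ + 1 + j + v) = k * ρ + k * (1 + j + v) := by ring
  have t6 : 1 + j + v ≤ k * (1 + j + v) := Nat.le_mul_of_pos_left _ hk
  omega

/-- pd: from pt_sep and card_mon_ge. -/
theorem card_pts {n k j d L : ℕ} (hk : 1 ≤ k) (hL : 1 ≤ L) (hj : j + L ≤ d / L) :
    ((mon n (d * k + j)).filter fun β => ∃ c ∈ mon n L, ∀ i, k * pt L d c i ≤ β i).card =
      (mon n L).card * (mon n j).card := by
  have h1 : ((mon n (d * k + j)).filter fun β => ∃ c ∈ mon n L, ∀ i, k * pt L d c i ≤ β i) =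
      (mon n L).biUnion fun c => (mon n (d * k + j)).filter fun β => ∀ i, k * pt L d c i ≤ β i := by
    ext β
    simp only [Finset.mem_filter, Finset.mem_biUnion]
    constructor
    · rintro ⟨h, c, hc, h2⟩
      exact ⟨c, hc, h, h2⟩
    · rintro ⟨c, hc, h, h2⟩
      exact ⟨h, c, hc, h2⟩
  rw [h1, Finset.card_biUnion]
  · rw [Finset.sum_const_nat (m := (mon n j).card)]
    intro c hc
    have h2 : ∑ i, k * pt L d c i = d * k := by
      rw [← Finset.mul_sum, sum_pt hL d hc, mul_comm]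
    exact card_mon_ge _ h2
  · intro c hc c' hc' hne
    show Disjoint _ _
    rw [Finset.disjoint_left]
    intro β hβ hβ'
    rw [Finset.mem_filter] at hβ hβ'
    exact hne (pt_sep hk hL hj hc hc' hβ.1 hβ.2 hβ'.2)

/-- pe: the graph of moves `c' = c + e_i - e_i'` on `mon n L` is connected: take `c ∈ 𝒜`,
`t ∉ 𝒜` with the distance `∑ (c i - t i)` minimal. -/
theorem exists_move {n L : ℕ} (𝒜 : Finset (Fin n → ℕ)) (h𝒜 : 𝒜 ⊆ mon n L) (h0 : 𝒜.Nonempty)
    (h1 : 𝒜 ≠ mon n L) :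
    ∃ c ∈ 𝒜, ∃ c' ∈ mon n L, c' ∉ 𝒜 ∧ ∃ i i' : Fin n, i ≠ i' ∧ c' i = c i + 1 ∧
      c i' = c' i' + 1 ∧ ∀ l, l ≠ i → l ≠ i' → c' l = c l := by
  obtain ⟨t, ht, ht𝒜⟩ : ∃ t ∈ mon n L, t ∉ 𝒜 := by
    by_contra h
    push Not at h
    exact h1 (Finset.Subset.antisymm h𝒜 h)
  obtain ⟨c, hc, hmin⟩ := 𝒜.exists_min_image (fun c => ∑ i, (c i - t i)) h0
  have hcs := mem_mon.1 (h𝒜 hc)
  have hts := mem_mon.1 ht
  have hne : c ≠ t := fun h => ht𝒜 (h ▸ hc)
  obtain ⟨i, hi⟩ : ∃ i, c i < t i := by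
    by_contra h
    push Not at h
    apply hne
    funext l
    by_contra hl
    have h2 : ∑ i, t i < ∑ i, c i :=
      Finset.sum_lt_sum (fun i _ => h i) ⟨l, Finset.mem_univ _, by have := h l; omega⟩
    omega
  obtain ⟨i', hi'⟩ : ∃ i, t i < c i := by
    by_contra h
    push Not at h
    have h2 : ∑ i, c i < ∑ i, t i :=
      Finset.sum_lt_sum (fun i _ => h i) ⟨i, Finset.mem_univ _, hi⟩
    omega
  have hii : i ≠ i' := by
    rintro rfl
    omega
  obtain ⟨c', hc'⟩ : ∃ c' : Fin n → ℕ, c' = fun l => if l = i then c i + 1 else if l = i' then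
    c i' - 1 else c l := ⟨_, rfl⟩
  have e1 : c' i = c i + 1 := by simp [hc']
  have e2 : c' i' = c i' - 1 := by simp [hc', hii.symm]
  have e3 : ∀ l, l ≠ i → l ≠ i' → c' l = c l := by
    intro l h2 h3
    simp [hc', h2, h3]
  have hsplit : ∀ f : Fin n → ℕ, ∑ l, f l = f i + (f i' + ∑ l ∈ (univ.erase i).erase i', f l) := by
    intro f
    rw [← Finset.add_sum_erase univ f (Finset.mem_univ i),
      ← Finset.add_sum_erase (univ.erase i) f (Finset.mem_erase.2 ⟨hii.symm, Finset.mem_univ i'⟩)]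
  have hrest : ∀ l ∈ (univ.erase i).erase i', c' l = c l := by
    intro l hl
    rw [Finset.mem_erase, Finset.mem_erase] at hl
    exact e3 l hl.2.1 hl.1
  have hc's : ∑ l, c' l = L := by
    have h4 : ∑ l ∈ (univ.erase i).erase i', c' l = ∑ l ∈ (univ.erase i).erase i', c l :=
      Finset.sum_congr rfl hrest
    have h5 := hsplit c
    rw [hsplit c', e1, e2, h4]
    omega
  refine ⟨c, hc, c', mem_mon.2 hc's, ?_, i, i', hii, e1, by omega, e3⟩
  intro hc'𝒜
  have h2 := hmin c' hc'𝒜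
  rw [hsplit fun l => c l - t l, hsplit fun l => c' l - t l] at h2
  have h3 : ∑ l ∈ (univ.erase i).erase i', (c' l - t l) =
      ∑ l ∈ (univ.erase i).erase i', (c l - t l) :=
    Finset.sum_congr rfl fun l hl => by rw [hrest l hl]
  simp only [h3, e1, e2] at h2
  omega

/-- pf: the exponents above `(k-1) max(pt c, pt c')`, a vector of degree at most
`(k-1) (d + d/L + d%L)`; `card_mon_ge`, `card_mon_mono` and
`d k + j - (k-1) (d + d/L + d%L) ≥ d / 2`. -/
theorem pt_overlap {n k j d : ℕ} (hn : 2 ≤ n) (hk : 1 ≤ k) (hd : 4 * k * (2 * n * k) ^ 2 ≤ d)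
    {c c' : Fin n → ℕ} (hc : c ∈ mon n (2 * n * k)) (hc' : c' ∈ mon n (2 * n * k))
    (i i' : Fin n) (hi : i ≠ i')
    (h1 : c' i = c i + 1) (h2 : c i' = c' i' + 1) (h3 : ∀ l, l ≠ i → l ≠ i' → c' l = c l) :
    (mon n (d / 2)).card ≤ ((mon n (d * k + j)).filter fun β =>
      (∀ l, (k - 1) * pt (2 * n * k) d c l ≤ β l) ∧
        ∀ l, (k - 1) * pt (2 * n * k) d c' l ≤ β l).card := by
  classical
  have hn1 : 1 ≤ n := by omega
  have hL : 1 ≤ 2 * n * k := by
    have := Nat.mul_le_mul hn1 hk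
    nlinarith
  have hsum := sum_pt hL d hc
  have hsum' := sum_pt hL d hc'
  have hf' : ∑ l, fst c' l = 1 := sum_fst c' (by rw [mem_mon.1 hc']; exact hL)
  have key : ∀ l, max (pt (2 * n * k) d c l) (pt (2 * n * k) d c' l) ≤
      pt (2 * n * k) d c l + ((if l = i then d / (2 * n * k) else 0)
        + (d % (2 * n * k)) * fst c' l) := by
    intro l
    refine max_le (Nat.le_add_right _ _) ?_
    unfold pt
    by_cases hl : l = i
    · subst hl
      rw [h1]
      simp only [if_true]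
      nlinarith [Nat.zero_le ((d % (2 * n * k)) * fst c l)]
    · have : c' l ≤ c l := by
        by_cases hl' : l = i'
        · subst hl'
          omega
        · exact le_of_eq (h3 l hl hl')
      rw [if_neg hl]
      have h5 : (d / (2 * n * k)) * c' l ≤ (d / (2 * n * k)) * c l := Nat.mul_le_mul_left _ this
      omega
  set b : Fin n → ℕ := fun l => (k - 1) * max (pt (2 * n * k) d c l) (pt (2 * n * k) d c' l)
    with hb
  have hbs : ∑ l, b l ≤ (k - 1) * (d + (d / (2 * n * k) + d % (2 * n * k))) := by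
    calc ∑ l, b l ≤ ∑ l, (k - 1) * (pt (2 * n * k) d c l + ((if l = i then d / (2 * n * k) else 0)
        + (d % (2 * n * k)) * fst c' l)) :=
          Finset.sum_le_sum fun l _ => Nat.mul_le_mul_left _ (key l)
      _ = (k - 1) * (∑ l, pt (2 * n * k) d c l + (∑ l, (if l = i then d / (2 * n * k) else 0)
        + (d % (2 * n * k)) * ∑ l, fst c' l)) := by
          rw [← Finset.mul_sum, Finset.sum_add_distrib, Finset.sum_add_distrib,
            ← Finset.mul_sum]
      _ = (k - 1) * (d + (d / (2 * n * k) + d % (2 * n * k))) := by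
          rw [hsum, hf', Finset.sum_ite_eq' Finset.univ i, if_pos (Finset.mem_univ _), mul_one]
  have hk1 : (k - 1) * (d + (d / (2 * n * k) + d % (2 * n * k))) + d / 2 ≤ d * k := by
    obtain ⟨q, rfl⟩ : ∃ q, k = q + 1 := ⟨k - 1, by omega⟩
    have e1 : q + 1 - 1 = q := by omega
    rw [e1]
    set L := 2 * n * (q + 1) with hLdef
    have hw : (d / L) * L ≤ d := Nat.div_mul_le_self d L
    have hr : d % L < L := Nat.mod_lt _ (by omega)
    have hL4 : 4 * (q + 1) ≤ L := by rw [hLdef]; nlinarith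
    have a1 : 4 * (q * (d / L)) ≤ d := by
      calc 4 * (q * (d / L)) = (d / L) * (4 * q) := by ring
        _ ≤ (d / L) * L := Nat.mul_le_mul_left _ (by omega)
        _ ≤ d := hw
    have a2 : 4 * (q * (d % L)) ≤ d := by
      calc 4 * (q * (d % L)) ≤ 4 * ((q + 1) * (L * L)) := by
            have : d % L ≤ L * L := le_trans hr.le (Nat.le_mul_of_pos_left _ (by omega))
            have := Nat.mul_le_mul (show q ≤ q + 1 by omega) this
            omega
        _ = 4 * (q + 1) * L ^ 2 := by ring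
        _ ≤ d := hd
    have a3 : d * (q + 1) = q * d + d := by ring
    have a4 : q * (d + (d / L + d % L)) = q * d + q * (d / L) + q * (d % L) := by ring
    omega
  have hle : ∑ l, b l ≤ d * k + j := by omega
  have h6 := card_mon_ge (t := d * k + j - ∑ l, b l) b rfl
  rw [Nat.add_sub_cancel' hle] at h6
  calc (mon n (d / 2)).card ≤ (mon n (d * k + j - ∑ l, b l)).card :=
        card_mon_mono hn1 (by omega)
    _ = _ := h6.symm
    _ ≤ _ := by
        refine Finset.card_le_card fun β hβ => ?_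
        rw [Finset.mem_filter] at hβ ⊢
        refine ⟨hβ.1, fun l => ?_, fun l => ?_⟩
        · exact le_trans (Nat.mul_le_mul_left _ (le_max_left _ _)) (hβ.2 l)
        · exact le_trans (Nat.mul_le_mul_left _ (le_max_right _ _)) (hβ.2 l)

end Pool.Agent.Nks
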