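import Pool.Agent.Nks.Defs

/-!
# Counting exponents
-/

set_option autoImplicit false

namespace Pool.Agent.Nks

open Finset

/-- ma -/
theorem card_mon {n : ℕ} (hn : 1 ≤ n) (t : ℕ) : (mon n t).card = (n - 1 + t).choose (n - 1) := by
  have h1 : (mon n t).card = ((Finset.univ : Finset (Fin n)).finsuppAntidiag t).card := by
    symm
    refine Finset.card_bij (fun f _ => (f : Fin n → ℕ)) ?_ ?_ ?_
    · intro f hf
      rw [Finset.mem_finsuppAntidiag] at hf
      rw [mem_mon]
      exact hf.1
    · intro f _ g _ hfg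
      exact DFunLike.coe_injective hfg
    · intro g hg
      rw [mem_mon] at hg
      refine ⟨Finsupp.equivFunOnFinite.symm g, ?_, ?_⟩
      · rw [Finset.mem_finsuppAntidiag]
        refine ⟨?_, Finset.subset_univ _⟩
        simpa using hg
      · simp
  rw [h1, Finset.card_finsuppAntidiag_nat_eq_choose, Finset.card_univ, Fintype.card_fin]
  obtain ⟨m, rfl⟩ : ∃ m, n = m + 1 := ⟨n - 1, by omega⟩
  have e1 : m + 1 + t - 1 = m + t := by omega
  have e2 : m + 1 - 1 = m := by omega
  rw [e1, e2]
  have := Nat.choose_symm_add (a := m) (b := t)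
  rw [this]

/-- mb1 -/
theorem card_mon_le {n : ℕ} (hn : 1 ≤ n) (t : ℕ) : (mon n t).card ≤ (t + 1) ^ (n - 1) := by
  rw [card_mon hn, Nat.add_comm]
  exact Nat.choose_add_le_add_one_pow _ _

/-- mb2 -/
theorem le_card_mon {n : ℕ} (hn : 1 ≤ n) (t : ℕ) :
    (t + 1) ^ (n - 1) ≤ (n - 1).factorial * (mon n t).card := by
  rw [card_mon hn, Nat.add_comm (n - 1) t, ← Nat.ascFactorial_eq_factorial_mul_choose]
  exact Nat.pow_succ_le_ascFactorial _ _

/-- mb3 -/
theorem card_mon_mono {n t t' : ℕ} (hn : 1 ≤ n) (h : t ≤ t') : (mon n t).card ≤ (mon n t').card := by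
  rw [card_mon hn, card_mon hn]
  exact Nat.choose_le_choose _ (by omega)

/-- mb4: `|mon (t+1)| (t+1) = |mon t| (t+n)`. -/
theorem card_mon_succ {n : ℕ} (hn : 1 ≤ n) (t : ℕ) :
    (mon n (t + 1)).card * (t + 1) = (mon n t).card * (t + n) := by
  rw [card_mon hn, card_mon hn]
  obtain ⟨m, rfl⟩ : ∃ m, n = m + 1 := ⟨n - 1, by omega⟩
  have e2 : m + 1 - 1 = m := by omega
  rw [e2]
  have := Nat.choose_mul_succ_eq (m + t) m
  have e3 : m + t + 1 - m = t + 1 := by omega
  rw [e3] at this
  rw [show m + (t + 1) = m + t + 1 by omega, ← this]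
  congr 1
  omega

/-- mb5: from mb4 by induction on `j`. -/
theorem card_mon_diff {n : ℕ} (hn : 1 ≤ n) (d j : ℕ) :
    d * ((mon n (d + j)).card - (mon n d).card) ≤ (n - 1) * j * (mon n (d + j)).card := by
  induction j with
  | zero => simp
  | succ j ih =>
    have h1 := card_mon_succ hn (d + j)
    have h2 : (mon n d).card ≤ (mon n (d + j)).card := card_mon_mono hn (by omega)
    have h3 : (mon n (d + j)).card ≤ (mon n (d + j + 1)).card := card_mon_mono hn (by omega)
    rw [← Nat.add_assoc]
    obtain ⟨m, rfl⟩ : ∃ m, n = m + 1 := ⟨n - 1, by omega⟩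
    have e2 : m + 1 - 1 = m := by omega
    rw [e2] at ih ⊢
    obtain ⟨x, hx⟩ := Nat.exists_eq_add_of_le h2
    obtain ⟨y, hy⟩ := Nat.exists_eq_add_of_le h3
    rw [hy, hx] at h1 ⊢
    rw [hx] at ih
    have e3 : (mon (m + 1) d).card + x - (mon (m + 1) d).card = x := by omega
    have e4 : (mon (m + 1) d).card + x + y - (mon (m + 1) d).card = x + y := by omega
    rw [e3] at ih
    rw [e4]
    generalize (mon (m + 1) d).card = z at *
    nlinarith [Nat.zero_le (m * j * y), Nat.zero_le (m * y), Nat.zero_le (y * j), Nat.zero_le y]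

/-- mb6: the ratio `|mon (e+j)| / |mon j|` is not increasing in `j`. -/
theorem card_mon_ratio {n : ℕ} (hn : 1 ≤ n) (e j j' : ℕ) (h : j ≤ j') :
    (mon n (e + j')).card * (mon n j).card ≤ (mon n (e + j)).card * (mon n j').card := by
  induction j', h using Nat.le_induction with
  | base => exact le_refl _
  | succ k hk ih =>
    have h1 := card_mon_succ hn (e + k)
    have h2 := card_mon_succ hn k
    have h3 : (e + k + n) * (k + 1) ≤ (k + n) * (e + k + 1) := by
      obtain ⟨m, rfl⟩ : ∃ m, n = m + 1 := ⟨n - 1, by omega⟩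
      nlinarith [Nat.zero_le (e * m)]
    refine Nat.le_of_mul_le_mul_right (c := (e + k + 1) * (k + 1)) ?_ (by positivity)
    rw [← Nat.add_assoc]
    calc (mon n (e + k + 1)).card * (mon n j).card * ((e + k + 1) * (k + 1))
        = ((mon n (e + k + 1)).card * (e + k + 1)) * (mon n j).card * (k + 1) := by ring
      _ = (mon n (e + k)).card * (mon n j).card * ((e + k + n) * (k + 1)) := by rw [h1]; ring
      _ ≤ (mon n (e + j)).card * (mon n k).card * ((k + n) * (e + k + 1)) :=
          Nat.mul_le_mul ih h3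
      _ = (mon n (e + j)).card * ((mon n k).card * (k + n)) * (e + k + 1) := by ring
      _ = (mon n (e + j)).card * (mon n (k + 1)).card * ((e + k + 1) * (k + 1)) := by
          rw [← h2]; ring

/-- mb7: upper bound of the ratio. -/
theorem card_mon_ratio_le {n : ℕ} (hn : 1 ≤ n) (e j c : ℕ) (h : e ≤ c * (j + 1)) :
    (mon n (e + j)).card ≤ (c + 1) ^ (n - 1) * (mon n j).card := by
  rw [card_mon hn, card_mon hn]
  generalize n - 1 = m
  refine le_of_mul_le_mul_left (a := m.factorial) ?_ (Nat.factorial_pos m)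
  rw [Nat.add_comm m (e + j), ← Nat.ascFactorial_eq_factorial_mul_choose,
    show m.factorial * ((c + 1) ^ m * (m + j).choose m)
      = (c + 1) ^ m * (m.factorial * (j + m).choose m) by rw [Nat.add_comm m j]; ring,
    ← Nat.ascFactorial_eq_factorial_mul_choose, Nat.ascFactorial_eq_prod_range,
    Nat.ascFactorial_eq_prod_range]
  have : (c + 1) ^ m * ∏ i ∈ Finset.range m, (j + 1 + i)
      = ∏ i ∈ Finset.range m, ((c + 1) * (j + 1 + i)) := by
    rw [Finset.prod_mul_distrib, Finset.prod_const, Finset.card_range]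
  rw [this]
  refine Finset.prod_le_prod' fun i _ => ?_
  nlinarith [Nat.zero_le (c * i)]

private theorem mc_aux (T : ℕ) : ∀ n : ℕ, ∃ w : (Fin n → ℕ) → ℕ,
    (∀ a b, w (a + b) = w a + w b) ∧
    ∀ a b : Fin n → ℕ, (∀ i, a i < T) → (∀ i, b i < T) → w a = w b → a = b := by
  intro n
  induction n with
  | zero =>
    refine ⟨fun _ => 0, fun _ _ => rfl, fun a b _ _ _ => ?_⟩
    funext i
    exact i.elim0
  | succ n ih =>
    obtain ⟨w, hw1, hw2⟩ := ih
    refine ⟨fun a => a 0 + T * w (fun i => a i.succ), ?_, ?_⟩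
    · intro a b
      have : (fun i : Fin n => (a + b) i.succ) = (fun i : Fin n => a i.succ) + fun i => b i.succ := by
        funext i
        rfl
      show (a + b) 0 + T * w (fun i => (a + b) i.succ) = _
      rw [this, hw1]
      simp only [Pi.add_apply]
      ring
    · intro a b ha hb hab
      have hab' : a 0 + T * w (fun i => a i.succ) = b 0 + T * w (fun i => b i.succ) := hab
      have h0 : a 0 = b 0 := by
        have := congrArg (fun x => x % T) hab'
        simpa [Nat.mod_eq_of_lt (ha 0), Nat.mod_eq_of_lt (hb 0)] using this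
      have hT : 0 < T := lt_of_le_of_lt (Nat.zero_le _) (ha 0)
      have h1 : w (fun i => a i.succ) = w (fun i => b i.succ) := by
        have : T * w (fun i => a i.succ) = T * w (fun i => b i.succ) := by omega
        exact Nat.eq_of_mul_eq_mul_left hT this
      have h2 := hw2 _ _ (fun i => ha i.succ) (fun i => hb i.succ) h1
      funext i
      refine Fin.cases h0 (fun k => ?_) i
      exact congrFun h2 k

/-- mc: additive weights which separate exponents. -/
theorem exists_weight (n T : ℕ) : ∃ w : (Fin n → ℕ) → ℕ, (∀ a b, w (a + b) = w a + w b) ∧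
    ∀ a b : Fin n → ℕ, (∀ i, a i < T) → (∀ i, b i < T) → w a = w b → a = b :=
  mc_aux T n

/-- md: the exponents of degree `t + t'` above `b`, `deg b = t'`, are the translates. -/
theorem card_mon_ge {n t t' : ℕ} (b : Fin n → ℕ) (hb : ∑ i, b i = t') :
    ((mon n (t' + t)).filter fun β => ∀ i, b i ≤ β i).card = (mon n t).card := by
  symm
  refine Finset.card_bij (fun a _ => b + a) ?_ ?_ ?_
  · intro a ha
    rw [mem_mon] at ha
    rw [Finset.mem_filter, mem_mon]
    refine ⟨?_, fun i => Nat.le_add_right _ _⟩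
    rw [← hb, ← ha, ← Finset.sum_add_distrib]
    rfl
  · intro a _ a' _ h
    exact add_left_cancel h
  · intro β hβ
    rw [Finset.mem_filter, mem_mon] at hβ
    refine ⟨fun i => β i - b i, ?_, ?_⟩
    · rw [mem_mon]
      have : ∑ i, (β i - b i) + ∑ i, b i = ∑ i, β i := by
        rw [← Finset.sum_add_distrib]
        exact Finset.sum_congr rfl fun i _ => Nat.sub_add_cancel (hβ.2 i)
      omega
    · funext i
      exact Nat.add_sub_cancel' (hβ.2 i)

end Pool.Agent.Nks
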