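import Pool.Agent.Nks.Lift
import Pool.Agent.Nks.Mon

/-!
# Degree parts of homogeneous ideals
-/

set_option autoImplicit false

namespace Pool.Agent.Nks

open Finset

/-- The degree `t` part of the ideal generated by the `h i`. -/
noncomputable def ipart {n : ℕ} {K : Type} [Field K] {ι : Type} (t : ℕ)
    (h : ι → MvPolynomial (Fin n) K) : Submodule K (MvPolynomial (Fin n) K) :=
  MvPolynomial.homogeneousSubmodule (Fin n) K t ⊓ (Ideal.span (Set.range h)).restrictScalars K

variable {n : ℕ} {K : Type} [Field K] {ι : Type}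

private theorem ua_deg (s : Fin n →₀ ℕ) : s.degree = ∑ i, s i := Finsupp.degree_eq_sum s

/-- ua0 -/
theorem xm_homogeneous {t : ℕ} {α : Fin n → ℕ} (hα : α ∈ mon n t) :
    (xm K α).IsHomogeneous t := by
  refine MvPolynomial.isHomogeneous_monomial 1 ?_
  rw [ua_deg]
  have := mem_mon.1 hα
  simpa using this

private theorem ua_xm (s : Fin n →₀ ℕ) : xm K (s : Fin n → ℕ) = MvPolynomial.monomial s 1 := by
  unfold xm
  congr 1
  ext i
  simp

private theorem ua_mem {t : ℕ} (s : Fin n →₀ ℕ) (hs : s.degree = t) : (s : Fin n → ℕ) ∈ mon n t := by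
  rw [mem_mon, ← ua_deg]
  exact hs

/-- ua1: the monomials of degree `t` span the forms of degree `t`. -/
theorem span_xm (t : ℕ) : Submodule.span K {f | ∃ α ∈ mon n t, f = xm K α} =
    MvPolynomial.homogeneousSubmodule (Fin n) K t := by
  apply le_antisymm
  · rw [Submodule.span_le]
    rintro f ⟨α, hα, rfl⟩
    exact xm_homogeneous hα
  · intro f hf
    have hf' : f.IsHomogeneous t := hf
    rw [f.as_sum]
    refine Submodule.sum_mem _ fun s hs => ?_
    have hd : s.degree = t := by
      rw [Finsupp.degree_eq_weight_one]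
      exact hf' (MvPolynomial.mem_support_iff.1 hs)
    have : MvPolynomial.monomial s (MvPolynomial.coeff s f) =
        MvPolynomial.coeff s f • xm K (s : Fin n → ℕ) := by
      rw [ua_xm, MvPolynomial.smul_monomial]
      simp
    rw [this]
    exact Submodule.smul_mem _ _ (Submodule.subset_span ⟨s, ua_mem s hd, rfl⟩)

private theorem ua_range (t : ℕ) : {f : MvPolynomial (Fin n) K | ∃ α ∈ mon n t, f = xm K α} =
    Set.range fun α : mon n t => xm K α.1 := by
  ext f
  constructor
  · rintro ⟨α, hα, rfl⟩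
    exact ⟨⟨α, hα⟩, rfl⟩
  · rintro ⟨α, rfl⟩
    exact ⟨α.1, α.2, rfl⟩

private theorem ua_ind (t : ℕ) : LinearIndependent K fun α : mon n t => xm K α.1 := by
  have h := (MvPolynomial.basisMonomials (Fin n) K).linearIndependent
  have h2 := h.comp (fun α : mon n t => Finsupp.equivFunOnFinite.symm α.1) (by
    intro a b hab
    have := Finsupp.equivFunOnFinite.symm.injective hab
    exact Subtype.ext this)
  have h3 : (fun α : mon n t => xm K α.1) = (MvPolynomial.basisMonomials (Fin n) K) ∘
      (fun α : mon n t => Finsupp.equivFunOnFinite.symm α.1) := by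
    funext α
    simp [xm]
  rw [h3]
  exact h2

/-- ua2 -/
theorem finrank_hom (t : ℕ) :
    Module.finrank K (MvPolynomial.homogeneousSubmodule (Fin n) K t) = (mon n t).card ∧
      Module.Finite K (MvPolynomial.homogeneousSubmodule (Fin n) K t) := by
  rw [← span_xm, ua_range]
  constructor
  · rw [finrank_span_eq_card (ua_ind t)]
    simp
  · exact FiniteDimensional.span_of_finite K (Set.finite_range _)

private theorem ub_comp (D T : ℕ) (c h : MvPolynomial (Fin n) K) (hh : h.IsHomogeneous D) :
    MvPolynomial.homogeneousComponent T (c * h) =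
      ∑ s ∈ c.support, if s.degree + D = T then
        MvPolynomial.monomial s (MvPolynomial.coeff s c) * h else 0 := by
  conv_lhs => rw [c.as_sum]
  rw [Finset.sum_mul, map_sum]
  refine Finset.sum_congr rfl fun s _ => ?_
  have h1 : (MvPolynomial.monomial s (MvPolynomial.coeff s c) * h).IsHomogeneous
      (s.degree + D) :=
    (MvPolynomial.isHomogeneous_monomial _ rfl).mul hh
  rw [MvPolynomial.homogeneousComponent_of_mem h1]
  by_cases hT : s.degree + D = T
  · simp [hT]
  · rw [if_neg hT, if_neg (fun h => hT h.symm)]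

private theorem ub_self {T : ℕ} {f : MvPolynomial (Fin n) K} (hf : f.IsHomogeneous T) :
    MvPolynomial.homogeneousComponent T f = f := by
  rw [MvPolynomial.homogeneousComponent_of_mem hf]
  simp

private theorem ub_xm_mul (j : ℕ) (h : ι → MvPolynomial (Fin n) K) (i : ι) (s : Fin n →₀ ℕ)
    (a : K) (hs : s.degree = j) : MvPolynomial.monomial s a * h i ∈ mspan j h := by
  have : MvPolynomial.monomial s a * h i = a • (xm K (s : Fin n → ℕ) * h i) := by
    rw [ua_xm, ← smul_mul_assoc, MvPolynomial.smul_monomial]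
    simp
  rw [this]
  exact Submodule.smul_mem _ _ (Submodule.subset_span ⟨i, s, ua_mem s hs, rfl⟩)

/-- ub1: the part of degree `D + j`. -/
theorem ipart_eq (D j : ℕ) (h : ι → MvPolynomial (Fin n) K) (hh : ∀ i, (h i).IsHomogeneous D) :
    ipart (D + j) h = mspan j h := by
  apply le_antisymm
  · rintro f ⟨hf, hI⟩
    have hf' : f.IsHomogeneous (D + j) := hf
    obtain ⟨c, hc⟩ := Finsupp.mem_span_range_iff_exists_finsupp.1
      (show f ∈ Submodule.span (MvPolynomial (Fin n) K) (Set.range h) from hI)
    rw [← ub_self hf', ← hc, Finsupp.sum, map_sum]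
    refine Submodule.sum_mem _ fun i _ => ?_
    rw [smul_eq_mul, ub_comp D (D + j) (c i) (h i) (hh i)]
    refine Submodule.sum_mem _ fun s _ => ?_
    split_ifs with hs
    · exact ub_xm_mul j h i s _ (by omega)
    · exact Submodule.zero_mem _
  · unfold mspan
    rw [Submodule.span_le]
    rintro f ⟨i, α, hα, rfl⟩
    refine ⟨?_, ?_⟩
    · have := (xm_homogeneous (K := K) hα).mul (hh i)
      rw [add_comm] at this
      exact this
    · exact Ideal.mul_mem_left _ _ (Ideal.subset_span ⟨i, rfl⟩)

/-- ub2 -/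
theorem ipart_low (D t : ℕ) (ht : t < D) (h : ι → MvPolynomial (Fin n) K)
    (hh : ∀ i, (h i).IsHomogeneous D) : ipart t h = ⊥ := by
  rw [eq_bot_iff]
  rintro f ⟨hf, hI⟩
  have hf' : f.IsHomogeneous t := hf
  obtain ⟨c, hc⟩ := Finsupp.mem_span_range_iff_exists_finsupp.1
    (show f ∈ Submodule.span (MvPolynomial (Fin n) K) (Set.range h) from hI)
  rw [Submodule.mem_bot, ← ub_self hf', ← hc, Finsupp.sum, map_sum]
  refine Finset.sum_eq_zero fun i _ => ?_
  rw [smul_eq_mul, ub_comp D t (c i) (h i) (hh i)]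
  refine Finset.sum_eq_zero fun s _ => ?_
  rw [if_neg]
  omega

/-- uc1 -/
theorem finrank_mspan_le [Fintype ι] (j : ℕ) (h : ι → MvPolynomial (Fin n) K) :
    Module.finrank K (mspan j h) ≤ Fintype.card ι * (mon n j).card := by
  classical
  have : mspan j h = Submodule.span K
      (Set.range fun p : ι × mon n j => xm K p.2.1 * h p.1) := by
    unfold mspan
    congr 1
    ext f
    constructor
    · rintro ⟨i, α, hα, rfl⟩
      exact ⟨(i, ⟨α, hα⟩), rfl⟩
    · rintro ⟨p, rfl⟩
      exact ⟨p.1, p.2.1, p.2.2, rfl⟩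
  rw [this]
  refine (finrank_range_le_card _).trans ?_
  simp

/-- uc2 -/
theorem finrank_ipart_le (t : ℕ) (h : ι → MvPolynomial (Fin n) K) :
    Module.finrank K (ipart t h) ≤ (mon n t).card := by
  obtain ⟨h1, h2⟩ := finrank_hom (n := n) (K := K) t
  rw [← h1]
  exact Submodule.finrank_mono inf_le_left

/-- uc3: adding forms. -/
theorem finrank_mspan_mono {κ : Type} (D j : ℕ) (h : ι → MvPolynomial (Fin n) K)
    (hh : ∀ i, (h i).IsHomogeneous D) (e : κ → ι) :
    Module.finrank K (mspan j (h ∘ e)) ≤ Module.finrank K (mspan j h) := by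
  obtain ⟨_, h2⟩ := finrank_hom (n := n) (K := K) (D + j)
  have h3 : Module.Finite K (mspan j h) := by
    rw [← ipart_eq D j h hh]
    exact Submodule.finiteDimensional_of_le (S₂ := MvPolynomial.homogeneousSubmodule (Fin n) K (D + j))
      inf_le_left
  refine Submodule.finrank_mono ?_
  refine Submodule.span_mono ?_
  rintro f ⟨i, α, hα, rfl⟩
  exact ⟨e i, α, hα, rfl⟩

private theorem uc_sub (β : Fin n → ℕ) (t : ℕ) (ht : t ≤ ∑ i, β i) :
    ∃ α : Fin n → ℕ, α ≤ β ∧ ∑ i, α i = t := by
  induction t with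
  | zero => exact ⟨0, fun i => Nat.zero_le _, by simp⟩
  | succ t ih =>
    obtain ⟨α, h1, h2⟩ := ih (by omega)
    obtain ⟨i, hi⟩ : ∃ i, α i < β i := by
      by_contra hcon
      have : ∑ i, β i ≤ ∑ i, α i := Finset.sum_le_sum fun i _ => not_lt.1 fun h => hcon ⟨i, h⟩
      omega
    refine ⟨α + Pi.single i 1, ?_, ?_⟩
    · intro l
      by_cases hl : l = i
      · subst hl
        simp only [Pi.add_apply, Pi.single_eq_same]
        omega
      · simp only [Pi.add_apply, Pi.single_eq_of_ne hl, add_zero]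
        exact h1 l
    · simp only [Pi.add_apply, Finset.sum_add_distrib, h2]
      simp

private theorem uc_mul (α β : Fin n → ℕ) (h : α ≤ β) : xm K β = xm K (β - α) * xm K α := by
  unfold xm
  rw [MvPolynomial.monomial_mul, one_mul]
  have h2 : Finsupp.equivFunOnFinite.symm β =
      Finsupp.equivFunOnFinite.symm (β - α) + Finsupp.equivFunOnFinite.symm α := by
    ext i
    simp [Nat.sub_add_cancel (h i)]
  rw [h2]

/-- ud1: the degree part is everything in all higher degrees. -/
theorem ipart_full {t t' : ℕ} (hn : 1 ≤ n) (ht : t ≤ t') (h : ι → MvPolynomial (Fin n) K)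
    (hf : (mon n t).card ≤ Module.finrank K (ipart t h)) :
    Module.finrank K (ipart t' h) = (mon n t').card := by
  obtain ⟨h1, h2⟩ := finrank_hom (n := n) (K := K) t
  have h3 : ipart t h = MvPolynomial.homogeneousSubmodule (Fin n) K t :=
    Submodule.eq_of_le_of_finrank_le inf_le_left (by rw [h1]; exact hf)
  have h4 : ipart t' h = MvPolynomial.homogeneousSubmodule (Fin n) K t' := by
    apply le_antisymm inf_le_left
    refine le_trans (le_of_eq (span_xm (n := n) (K := K) t').symm) ?_
    rw [Submodule.span_le]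
    rintro f ⟨β, hβ, rfl⟩
    refine ⟨xm_homogeneous hβ, ?_⟩
    obtain ⟨α, h5, h6⟩ := uc_sub β t (by rw [mem_mon.1 hβ]; exact ht)
    have h7 : xm K α ∈ ipart t h := by
      rw [h3]
      exact xm_homogeneous (mem_mon.2 h6)
    have h8 : xm K α ∈ Ideal.span (Set.range h) := h7.2
    change xm K β ∈ Ideal.span (Set.range h)
    rw [uc_mul α β h5]
    exact Ideal.mul_mem_left _ _ h8
  rw [h4]
  exact (finrank_hom t').1

end Pool.Agent.Nks
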