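import Pool.Agent.Nks.Cnt
import Pool.Agent.Nks.Hall
import Pool.Agent.Nks.Pos
import Pool.Agent.Nks.NumE
import Pool.Agent.Nks.Asm
import Pool.Agent.Nks.Up

/-!
# Existence of forms with powers of the expected dimension, explicit constants
-/

set_option autoImplicit false

namespace Pool.Agent.Nks

open Finset

private theorem mspan_equiv {n : ℕ} {K : Type} [Field K] {ι κ : Type} (j : ℕ) (e : κ ≃ ι)
    (h : ι → MvPolynomial (Fin n) K) : mspan j (fun l => h (e l)) = mspan j h := by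
  unfold mspan
  congr 1
  ext f
  constructor
  · rintro ⟨i, α, hα, rfl⟩
    exact ⟨e i, α, hα, rfl⟩
  · rintro ⟨i, α, hα, rfl⟩
    exact ⟨e.symm i, α, hα, by simp⟩

private theorem mon_zero_mem (n : ℕ) : (mon n 0).Nonempty :=
  ⟨0, by simp [mem_mon]⟩

/-- The number of monomials of degree `2 n k`. -/
def NN (n k : ℕ) : ℕ := (mon n (2 * n * k)).card

/-- The explicit constant. -/
def KK (n k : ℕ) : ℕ :=
  2 * ((NN n k ^ 2 + NN n k) * (n - 1).factorial) +
    (n - 1).factorial * NN n k * (3 * (6 * n) ^ (n + 1) + 3) +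
    ((n - 1).factorial * NN n k * (7 + 3) + 4 * ((n - 1) * NN n k) + 1) + 4 * k * (2 * n * k) ^ 2 + n

/-- xa: many forms. -/
theorem exists_many_e {n k : ℕ} (hn : 2 ≤ n) (hk : 1 ≤ k) (K : Type) [Field K]
    [CharZero K] (d j r : ℕ) (hd : KK n k * (j + 1) ≤ d)
    (hD : (mon n (d * k + j)).card < (r + 1) * (mon n j).card) :
    ∃ g : Fin r → MvPolynomial (Fin n) K, (∀ i, (g i).IsHomogeneous d) ∧
      min (r * (mon n j).card) (mon n (d * k + j)).card ≤
        Module.finrank K (mspan j fun i => g i ^ k) := by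
  classical
  have hn1 : 1 ≤ n := by omega
  obtain ⟨L, hL⟩ : ∃ L, L = 2 * n * k := ⟨_, rfl⟩
  obtain ⟨N, hN⟩ : ∃ N, N = (mon n L).card := ⟨_, rfl⟩
  have hL1 : 1 ≤ L := by
    rw [hL]
    exact Nat.mul_pos (by omega) hk
  have hN1 : 1 ≤ N := by
    rw [hN]
    exact (card_pos.2 (mon_zero_mem n)).trans_le (card_mon_mono hn1 (Nat.zero_le L))
  obtain ⟨K1, hK1⟩ : ∃ K1, K1 = 2 * ((N ^ 2 + N) * (n - 1).factorial) := ⟨_, rfl⟩
  obtain ⟨K2, hK2⟩ : ∃ K2, K2 = (n - 1).factorial * N * (3 * (6 * n) ^ (n + 1) + 3) := ⟨_, rfl⟩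
  obtain ⟨K3, hK3⟩ : ∃ K3, K3 = (n - 1).factorial * N * (7 + 3) + 4 * ((n - 1) * N) + 1 := ⟨_, rfl⟩
  have hKK : KK n k = K1 + K2 + K3 + 4 * k * L ^ 2 + n := by
    rw [hK1, hK2, hK3, hN, hL]
    rfl
  rw [hKK] at hd
  obtain ⟨s, hs⟩ : ∃ s, s = (mon n j).card := ⟨_, rfl⟩
  have hs1 : 1 ≤ s := by
    rw [hs]
    exact (card_pos.2 (mon_zero_mem n)).trans_le (card_mon_mono hn1 (Nat.zero_le j))
  have hd1 : K1 * (j + 1) ≤ d := (Nat.mul_le_mul_right _ (by omega)).trans hd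
  have hd2 : K2 * (j + 1) ≤ d := (Nat.mul_le_mul_right _ (by omega)).trans hd
  have hd3 : K3 * (j + 1) ≤ d := (Nat.mul_le_mul_right _ (by omega)).trans hd
  have hd4 : 4 * k * L ^ 2 * (j + 1) ≤ d := (Nat.mul_le_mul_right _ (by omega)).trans hd
  have hd5 : n * (j + 1) ≤ d := (Nat.mul_le_mul_right _ (by omega)).trans hd
  have hd6 : 4 * k * L ^ 2 ≤ d := by nlinarith
  have hd7 : j + L ≤ d / L := by
    rw [Nat.le_div_iff_mul_le hL1]
    have h1 : (j + L) * L ≤ L ^ 2 * (j + 1) := by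
      have h0 : j * L * 1 ≤ j * L * L := Nat.mul_le_mul_left _ hL1
      calc (j + L) * L = j * L * 1 + L * L := by ring
        _ ≤ j * L * L + L * L := by omega
        _ = L ^ 2 * (j + 1) := by ring
    have h2 : L ^ 2 * (j + 1) ≤ 4 * k * L ^ 2 * (j + 1) := by
      refine Nat.mul_le_mul_right _ ?_
      nlinarith [Nat.zero_le (L ^ 2)]
    omega
  obtain ⟨E, hE⟩ : ∃ E, E = mon n (d * k + j) := ⟨_, rfl⟩
  obtain ⟨Pts, hPts⟩ : ∃ Pts, Pts = E.filter fun β => ∃ c ∈ mon n L, ∀ i, k * pt L d c i ≤ β i :=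
    ⟨_, rfl⟩
  obtain ⟨X, hX⟩ : ∃ X, X = E.filter fun β => ¬ ∃ c ∈ mon n L, ∀ i, k * pt L d c i ≤ β i :=
    ⟨_, rfl⟩
  have hPtsc : Pts.card = N * s := by
    rw [hPts, hE, card_pts hk hL1 hd7, hN, hs]
  have hXc : Pts.card + X.card = E.card := by
    rw [hPts, hX]
    exact Finset.card_filter_add_card_filter_not _
  have hXE : X ⊆ E := by
    rw [hX]
    exact Finset.filter_subset _ _
  have hslack0 := num_slack_e hn N d j (by rw [← hK1]; exact hd1)
  rw [← hs] at hslack0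
  have hdE : d / 2 ≤ d * k + j := by
    have : d ≤ d * k := Nat.le_mul_of_pos_right d hk
    omega
  have hEge : (mon n (d / 2)).card ≤ E.card := by
    rw [hE]
    exact card_mon_mono hn1 hdE
  have hDE : E.card < (r + 1) * s := by
    rw [hE, hs]
    exact hD
  have hNr : N ≤ r := by
    have h1 : (N ^ 2 + N) * s < (r + 1) * s := by
      calc (N ^ 2 + N) * s = N ^ 2 * s + N * s := by ring
        _ ≤ E.card := hslack0.trans hEge
        _ < (r + 1) * s := hDE
    have h2 := Nat.lt_of_mul_lt_mul_right h1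
    nlinarith
  obtain ⟨r₀, hr₀⟩ : ∃ r₀, r = N + r₀ := ⟨r - N, by omega⟩
  -- the regions
  let P := {c // c ∈ mon n L}
  have hPcard : Fintype.card P = N := by
    rw [hN]
    exact Fintype.card_coe _
  let b : P → (Fin n → ℕ) := fun c => (k - 1) • pt L d c.1
  have hb : ∀ c, ∀ i, b c i = (k - 1) * pt L d c.1 i := fun c i => rfl
  have hkd : (k - 1) * d + (d + j) = d * k + j := by
    obtain ⟨k', rfl⟩ : ∃ k', k = k' + 1 := ⟨k - 1, by omega⟩
    rw [Nat.add_sub_cancel]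
    ring
  have hbsum : ∀ c, ∑ i, b c i = (k - 1) * d := by
    intro c
    simp only [hb]
    rw [← Finset.mul_sum, sum_pt hL1 d c.2]
  let Reg : P → Finset (Fin n → ℕ) := fun c => E.filter fun β => ∀ i, b c i ≤ β i
  have hReg : ∀ c β, β ∈ Reg c ↔ β ∈ E ∧ ∀ i, b c i ≤ β i := fun c β => Finset.mem_filter
  have hcov : ∀ β ∈ X, ∃ c, β ∈ Reg c := by
    intro β hβ
    have hβE := hXE hβ
    rw [hE] at hβE
    have h1 : 4 * k * (2 * n * k) ^ 2 ≤ d := by
      rw [← hL]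
      exact hd6
    obtain ⟨c, hc, h⟩ := pt_cover hn1 hk h1 hβE
    rw [← hL] at hc h
    exact ⟨⟨c, hc⟩, (hReg _ _).2 ⟨hXE hβ, h⟩⟩
  have hsplit : ∀ (Z : Finset (Fin n → ℕ)), Z ⊆ E → Z.card ≤ (X ∩ Z).card + N * s := by
    intro Z hZ
    rw [← hPtsc]
    have h1 : Z ⊆ (X ∩ Z) ∪ Pts := by
      intro β hβ
      rw [Finset.mem_union, Finset.mem_inter]
      by_cases h : ∃ c ∈ mon n L, ∀ i, k * pt L d c i ≤ β i
      · right
        rw [hPts, Finset.mem_filter]
        exact ⟨hZ hβ, h⟩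
      · left
        refine ⟨?_, hβ⟩
        rw [hX, Finset.mem_filter]
        exact ⟨hZ hβ, h⟩
    exact (Finset.card_le_card h1).trans (Finset.card_union_le _ _)
  have hT : ∀ c, Fintype.card P * (((mon n (d + j)).card - N * s) / N) ≤ (X ∩ Reg c).card := by
    intro c
    rw [hPcard]
    refine (Nat.mul_div_le _ _).trans ?_
    have h1 := hsplit (Reg c) (Finset.filter_subset _ _)
    have h2 : (Reg c).card = (mon n (d + j)).card := by
      have h3 := card_mon_ge (t := d + j) (b c) (hbsum c)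
      rw [hkd] at h3
      rw [← h3]
      simp only [Reg, hE]
    omega
  have hslack : ∀ 𝒜 : Finset P, 𝒜.Nonempty → 𝒜 ≠ univ →
      Fintype.card P ^ 2 * s ≤ (X.filter fun β => (∃ c ∈ 𝒜, β ∈ Reg c) ∧
        ∃ c, c ∉ 𝒜 ∧ β ∈ Reg c).card := by
    intro 𝒜 h0 h1
    rw [hPcard]
    have h2 : (𝒜.map ⟨Subtype.val, Subtype.val_injective⟩) ⊆ mon n L := by
      intro c hc
      rw [Finset.mem_map] at hc
      obtain ⟨x, _, rfl⟩ := hc
      exact x.2
    have h3 : (𝒜.map ⟨Subtype.val, Subtype.val_injective⟩) ≠ mon n L := by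
      intro h
      apply h1
      rw [Finset.eq_univ_iff_forall]
      intro c
      have hc : (c : Fin n → ℕ) ∈ 𝒜.map ⟨Subtype.val, Subtype.val_injective⟩ := h.symm ▸ c.2
      rw [Finset.mem_map] at hc
      obtain ⟨x, hx, hxc⟩ := hc
      rwa [← Subtype.ext hxc]
    obtain ⟨c, hc, c', hc', hc'𝒜, i, i', hii, e1, e2, e3⟩ :=
      exists_move _ h2 (h0.map) h3
    have hcL : c ∈ mon n L := h2 hc
    have hc𝒜 : (⟨c, hcL⟩ : P) ∈ 𝒜 := by
      rw [Finset.mem_map] at hc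
      obtain ⟨x, hx, hxc⟩ := hc
      rwa [← Subtype.ext (a1 := x) (a2 := ⟨c, hcL⟩) hxc]
    have hc'𝒜' : (⟨c', hc'⟩ : P) ∉ 𝒜 := by
      intro h
      exact hc'𝒜 (Finset.mem_map.2 ⟨_, h, rfl⟩)
    have hd6' : 4 * k * (2 * n * k) ^ 2 ≤ d := by
      rw [← hL]
      exact hd6
    have h4 := pt_overlap (j := j) hn hk hd6' (c := c) (c' := c') (by rw [← hL]; exact hcL)
      (by rw [← hL]; exact hc') i i' hii e1 e2 e3
    rw [← hL, ← hE] at h4
    have h5 := hsplit (E.filter fun β => (∀ l, (k - 1) * pt L d c l ≤ β l) ∧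
        ∀ l, (k - 1) * pt L d c' l ≤ β l) (Finset.filter_subset _ _)
    have h6 : X ∩ (E.filter fun β => (∀ l, (k - 1) * pt L d c l ≤ β l) ∧
        ∀ l, (k - 1) * pt L d c' l ≤ β l) ⊆ X.filter fun β => (∃ c ∈ 𝒜, β ∈ Reg c) ∧
        ∃ c, c ∉ 𝒜 ∧ β ∈ Reg c := by
      intro β hβ
      rw [Finset.mem_inter, Finset.mem_filter] at hβ
      rw [Finset.mem_filter]
      exact ⟨hβ.1, ⟨_, hc𝒜, (hReg _ _).2 ⟨hβ.2.1, hβ.2.2.1⟩⟩,
        ⟨_, hc'𝒜', (hReg _ _).2 ⟨hβ.2.1, hβ.2.2.2⟩⟩⟩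
    have h7 := Finset.card_le_card h6
    omega
  have hr : X.card < (r₀ + 1) * s := by
    have h1 : (r + 1) * s = N * s + (r₀ + 1) * s := by
      rw [hr₀]
      ring
    rw [h1] at hDE
    omega
  have hPne : Nonempty P := by
    rw [← Fintype.card_pos_iff, hPcard]
    exact hN1
  obtain ⟨m, hm1, hm2, hm3⟩ := hall X Reg hcov s r₀ (((mon n (d + j)).card - N * s) / N) hs1 hr hPne
    hslack hT
  -- the index type
  let I := Σ c : P, Fin (m c)
  let pos : I → P := fun i => i.1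
  have hI : Fintype.card I = r₀ := by
    rw [Fintype.card_sigma]
    simp only [Fintype.card_fin]
    exact hm1
  have hfib : ∀ c, (univ.filter fun i : I => pos i = c).card = m c := by
    intro c
    have h1 : (univ.filter fun i : I => pos i = c) =
        (univ : Finset (Fin (m c))).map ⟨fun x => (⟨c, x⟩ : I), by
          intro x y hxy
          simpa using hxy⟩ := by
      ext ⟨c', x⟩
      simp only [Finset.mem_filter, Finset.mem_univ, true_and, Finset.mem_map, pos]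
      constructor
      · rintro rfl
        exact ⟨x, rfl⟩
      · rintro ⟨y, hy⟩
        exact (congrArg Sigma.fst hy).symm
    rw [h1, Finset.card_map, Finset.card_univ, Fintype.card_fin]
  -- the prime
  obtain ⟨Q, hQ⟩ : ∃ Q, Q = (2 * (s + 1)) ^ (mon n (d + j)).card := ⟨_, rfl⟩
  have hQ1 : 1 ≤ Q := by
    rw [hQ]
    exact Nat.one_le_pow _ _ (by omega)
  obtain ⟨p, hp, hpp⟩ := Nat.exists_infinite_primes (k + 1 + ((s + 1) * Q) ^ N + 1)
  have : Fact p.Prime := ⟨hpp⟩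
  have hcardp : Fintype.card (ZMod p) = p := ZMod.card p
  have hbe : ∀ c, ∑ i, b c i + (d + j) = d * k + j := by
    intro c
    rw [hbsum, hkd]
  have hXE' : X ⊆ mon n (d * k + j) := by
    rw [← hE]
    exact hXE
  have hhall : ∀ 𝒜 : Finset P, (X.filter fun β => ∀ c ∈ 𝒜, ¬ ∀ i, b c i ≤ β i).card ≤
      ∑ c ∈ 𝒜ᶜ, (univ.filter fun i => pos i = c).card * (mon n j).card + (X.card - r₀ * s) := by
    intro 𝒜
    have h1 := hm3 𝒜
    have h2 : (X.filter fun β => ∀ c ∈ 𝒜, β ∉ Reg c) =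
        X.filter fun β => ∀ c ∈ 𝒜, ¬ ∀ i, b c i ≤ β i := by
      refine Finset.filter_congr fun β hβ => ?_
      refine forall_congr' fun c => forall_congr' fun _ => ?_
      rw [hReg]
      have := hXE hβ
      tauto
    have h3 : ∑ c ∈ 𝒜ᶜ, m c * s =
        ∑ c ∈ 𝒜ᶜ, (univ.filter fun i => pos i = c).card * (mon n j).card :=
      Finset.sum_congr rfl fun c _ => by rw [hfib, hs]
    rw [h2, h3] at h1
    exact h1
  have hcnt : ∀ c : P, ∀ u, u < (mon n j).card → ∀ 𝒮 : Finset ((Fin n → ℕ) → ZMod p),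
      (∀ φ ∈ 𝒮, rk (mon n j) (mon n d) φ = u) →
      (∀ φ ∈ 𝒮, ∀ ψ ∈ 𝒮, (∀ β ∈ mon n (d + j), φ β = ψ β) → φ = ψ) →
      𝒮.card ≤ Q * Fintype.card (ZMod p) ^ ((univ.filter fun i => pos i = c).card * u) := by
    intro c u hu 𝒮 h𝒮 hinj
    rw [hfib, hQ, hs]
    have h1 := hm2 c
    rw [hs] at h1
    exact cnt hn hd5 (m c) (num_low_e hn N (3 * (6 * n) ^ (n + 1)) hN1 d j (m c) (by rw [← hK2]; exact hd2) h1)
      (num_top_e hn N hN1 d j (m c) (by rw [← hK3]; exact hd3) h1) u hu 𝒮 h𝒮 hinj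
  have hq : (((mon n j).card + 1) * Q) ^ Fintype.card P < Fintype.card (ZMod p) := by
    rw [hPcard, hcardp, ← hs]
    omega
  obtain ⟨f, hf1, hf2⟩ := asm (F := ZMod p) b hbe X hXE' pos (X.card - r₀ * s) Q hQ1 hcnt hhall hq
  have ha : ∀ c : P, pt L d c.1 ∈ mon n d := fun c => mem_mon.2 (sum_pt hL1 d c.2)
  have hXiff : ∀ φ : (Fin n → ℕ) → ZMod p, φ ∈ fs (ZMod p) X ↔
      φ ∈ fs (ZMod p) (mon n (d * k + j)) ∧
        ∀ c : P, ∀ α ∈ mon n j, φ (k • pt L d c.1 + α) = 0 := by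
    intro φ
    rw [mem_fs, mem_fs]
    constructor
    · intro h
      refine ⟨fun β hβ => h β fun h' => hβ (hXE' h'), ?_⟩
      intro c α hα
      apply h
      rw [hX, Finset.mem_filter]
      rintro ⟨_, h2⟩
      apply h2
      refine ⟨c.1, c.2, fun i => ?_⟩
      rw [Pi.add_apply, Pi.smul_apply, smul_eq_mul]
      exact Nat.le_add_right _ _
    · rintro ⟨h1, h2⟩ β hβ
      by_cases hβE : β ∈ mon n (d * k + j)
      · rw [hX, Finset.mem_filter, hE] at hβ
        have h3 : ∃ c ∈ mon n L, ∀ i, k * pt L d c i ≤ β i := by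
          by_contra h
          exact hβ ⟨hβE, h⟩
        obtain ⟨c, hc, h4⟩ := h3
        have h5 : β = k • pt L d c + fun i => β i - k * pt L d c i := by
          funext i
          rw [Pi.add_apply, Pi.smul_apply, smul_eq_mul]
          have := h4 i
          omega
        rw [h5]
        refine h2 ⟨c, hc⟩ _ ?_
        rw [mem_mon]
        rw [mem_mon] at hβE
        have h6 : ∑ i, β i = ∑ i, (k * pt L d c i) + ∑ i, (β i - k * pt L d c i) := by
          rw [← Finset.sum_add_distrib]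
          refine Finset.sum_congr rfl fun i _ => ?_
          have := h4 i
          omega
        rw [← Finset.mul_sum, sum_pt hL1 d hc, hβE] at h6
        have : d * k = k * d := mul_comm _ _
        omega
      · exact h1 β hβE
  have hann : Nat.card {φ : (Fin n → ℕ) → ZMod p // φ ∈ fs (ZMod p) (mon n (d * k + j)) ∧
      (∀ c : P, ∀ α ∈ mon n j, φ (k • pt L d c.1 + α) = 0) ∧ ∀ i, ∀ α ∈ mon n j,
        ∑ γ ∈ mon n d, f i γ * φ ((k - 1) • pt L d (pos i).1 + (α + γ)) = 0} <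
      p ^ (X.card - r₀ * s + 1) := by
    rw [hcardp] at hf2
    refine lt_of_le_of_lt (le_of_eq ?_) hf2
    refine Nat.card_congr (Equiv.subtypeEquivRight fun φ => ?_)
    rw [hXiff φ, and_assoc]
  obtain ⟨g, hg1, hg2⟩ := lift K hk (by omega : k < p) (fun c : P => pt L d c.1) ha pos f
    (X.card - r₀ * s) hann
  have hcard : Fintype.card (Fin r) = Fintype.card (P ⊕ I) := by
    rw [Fintype.card_fin, Fintype.card_sum, hPcard, hI, hr₀]
  let e : Fin r ≃ P ⊕ I := Fintype.equivOfCardEq hcard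
  refine ⟨fun i => g (e i), fun i => hg1 _, ?_⟩
  have h1 : mspan j (fun i => g (e i) ^ k) = mspan j fun l => g l ^ k :=
    mspan_equiv j e fun l => g l ^ k
  rw [h1, ← hE, ← hs]
  rw [← hE] at hg2
  have h2 : r * s = N * s + r₀ * s := by
    rw [hr₀]
    ring
  rw [h2]
  omega

private theorem mspan_finite {n : ℕ} {K : Type} [Field K] {ι : Type} [Finite ι] (j : ℕ)
    (h : ι → MvPolynomial (Fin n) K) : FiniteDimensional K (mspan j h) := by
  unfold mspan
  apply FiniteDimensional.span_of_finite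
  have : {f | ∃ i, ∃ α ∈ mon n j, f = xm K α * h i} =
      (fun x : ι × (Fin n → ℕ) => xm K x.2 * h x.1) '' (Set.univ ×ˢ (mon n j : Set (Fin n → ℕ))) := by
    ext f
    simp only [Set.mem_ofPred_eq, Set.mem_image, Set.mem_prod, Set.mem_univ, true_and,
      Finset.mem_coe, Prod.exists]
    constructor
    · rintro ⟨i, α, hα, rfl⟩
      exact ⟨i, α, hα, rfl⟩
    · rintro ⟨i, α, hα, rfl⟩
      exact ⟨i, α, hα, rfl⟩
  rw [this]
  exact (Set.finite_univ.prod (Finset.finite_toSet _)).image _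

/-- xb: any number of forms. -/
theorem exists_forms_e {n k : ℕ} (hn : 2 ≤ n) (hk : 1 ≤ k) (K : Type) [Field K]
    [CharZero K] (d j r : ℕ) (hd : KK n k * (j + 1) ≤ d) :
    ∃ g : Fin r → MvPolynomial (Fin n) K, (∀ i, (g i).IsHomogeneous d) ∧
      min (r * (mon n j).card) (mon n (d * k + j)).card ≤
        Module.finrank K (mspan j fun i => g i ^ k) := by
  rcases lt_or_ge (mon n (d * k + j)).card ((r + 1) * (mon n j).card) with h | h
  · exact exists_many_e hn hk K d j r hd h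
  have hs1 : 0 < (mon n j).card :=
    (card_pos.2 (mon_zero_mem n)).trans_le (card_mon_mono (by omega) (Nat.zero_le j))
  obtain ⟨s, hs⟩ : ∃ s, s = (mon n j).card := ⟨_, rfl⟩
  obtain ⟨D, hD⟩ : ∃ D, D = (mon n (d * k + j)).card := ⟨_, rfl⟩
  rw [← hs] at hs1 h
  rw [← hD] at h
  rw [← hs, ← hD]
  obtain ⟨r', hr'⟩ : ∃ r', r' = D / s := ⟨_, rfl⟩
  have h1 : D < (r' + 1) * s := by
    rw [hr', mul_comm]
    exact Nat.lt_mul_div_succ D hs1
  have h2 : r + 1 ≤ r' := by
    rw [hr']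
    exact (Nat.le_div_iff_mul_le hs1).2 h
  have h3 : r' * s ≤ D := by
    rw [hr']
    exact Nat.div_mul_le_self D s
  obtain ⟨g, hg1, hg2⟩ := exists_many_e hn hk K d j r' hd (by rw [← hs, ← hD]; exact h1)
  rw [← hs, ← hD, min_eq_left h3] at hg2
  let e1 : Fin r → Fin r' := fun i => ⟨i.1, by have := i.2; omega⟩
  let e2 : Fin (r' - r) → Fin r' := fun i => ⟨r + i.1, by have := i.2; omega⟩
  refine ⟨fun i => g (e1 i), fun i => hg1 _, ?_⟩
  have h4 : mspan j (fun i => g i ^ k) ≤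
      mspan j (fun i => g (e1 i) ^ k) ⊔ mspan j (fun i => g (e2 i) ^ k) := by
    refine Submodule.span_le.2 ?_
    rintro f ⟨i, α, hα, rfl⟩
    by_cases hi : i.1 < r
    · refine Submodule.mem_sup_left (Submodule.subset_span ⟨⟨i.1, hi⟩, α, hα, ?_⟩)
      rfl
    · have hi2 : i.1 - r < r' - r := by
        have := i.2
        omega
      refine Submodule.mem_sup_right (Submodule.subset_span ⟨⟨i.1 - r, hi2⟩, α, hα, ?_⟩)
      have : e2 ⟨i.1 - r, hi2⟩ = i := Fin.ext (by simp only [e2]; omega)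
      simp only [this]
  have hf1 := mspan_finite j fun i : Fin r => g (e1 i) ^ k
  have hf2 := mspan_finite j fun i : Fin (r' - r) => g (e2 i) ^ k
  have h5 := Submodule.finrank_mono h4
  have h6 := Submodule.finrank_add_le_finrank_add_finrank (mspan j fun i : Fin r => g (e1 i) ^ k)
    (mspan j fun i : Fin (r' - r) => g (e2 i) ^ k)
  have h7 := finrank_mspan_le j fun i : Fin (r' - r) => g (e2 i) ^ k
  rw [Fintype.card_fin, ← hs] at h7
  have h8 : r' * s = r * s + (r' - r) * s := by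
    rw [← add_mul]
    congr 1
    omega
  refine (min_le_left _ _).trans ?_
  change r * s ≤ Module.finrank K (mspan j fun i : Fin r => g (e1 i) ^ k)
  omega

end Pool.Agent.Nks
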