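import Pool.Agent.Nks.Rk

/-!
# From `ZMod p` to characteristic 0
-/

set_option autoImplicit false

namespace Pool.Agent.Nks

open Finset

/-- The monomial `x ^ α`. -/
noncomputable def xm {n : ℕ} (K : Type) [CommSemiring K] (α : Fin n → ℕ) :
    MvPolynomial (Fin n) K :=
  MvPolynomial.monomial (Finsupp.equivFunOnFinite.symm α) 1

/-- The span of the products `x ^ α * h i`, `α ∈ mon n j`. -/
noncomputable def mspan {n : ℕ} {K : Type} [Field K] {ι : Type} (j : ℕ)
    (h : ι → MvPolynomial (Fin n) K) : Submodule K (MvPolynomial (Fin n) K) :=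
  Submodule.span K {f | ∃ i, ∃ α ∈ mon n j, f = xm K α * h i}

/-- la: the rank modulo `p` is at most the rank: choose `R` independent rows and a right inverse
modulo `p`, lift it to the integers, the determinant of the product is `1` modulo `p`. -/
theorem rank_lift {K : Type} [Field K] [CharZero K] {p : ℕ} [Fact p.Prime] {m l : Type} [Fintype m]
    [Fintype l] (A : Matrix m l ℤ) :
    (A.map (Int.cast : ℤ → ZMod p)).rank ≤ (A.map (Int.cast : ℤ → K)).rank := by
  classical
  set Ap : Matrix m l (ZMod p) := A.map (Int.cast : ℤ → ZMod p) with hAp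
  obtain ⟨κ, a, ha, hspan, hli⟩ := exists_linearIndependent' (ZMod p) Ap.row
  have hfin : Finite κ := Finite.of_injective a ha
  have : Fintype κ := Fintype.ofFinite κ
  have hcard : Ap.rank = Fintype.card κ := by
    rw [Matrix.rank_eq_finrank_span_row, ← hspan, finrank_span_eq_card hli]
  let B : Matrix κ l ℤ := A.submatrix a id
  have hBrow : (B.map (Int.cast : ℤ → ZMod p)).row = Ap.row ∘ a := rfl
  have hBr : (B.map (Int.cast : ℤ → ZMod p)).rank = Fintype.card κ := by
    rw [Matrix.rank_eq_finrank_span_row, hBrow, finrank_span_eq_card hli]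
  have hsurj : Function.Surjective (B.map (Int.cast : ℤ → ZMod p)).mulVecLin := by
    rw [← LinearMap.range_eq_top]
    apply Submodule.eq_top_of_finrank_eq
    rw [Module.finrank_fintype_fun_eq_card]
    exact hBr
  choose C hC using fun i : κ => hsurj (Pi.single i 1)
  let C' : Matrix l κ ℤ := Matrix.of fun x i => ((C i x).val : ℤ)
  have hmul : ((B * C').map (Int.cast : ℤ → ZMod p)) = 1 := by
    ext i j
    have h1 := congrFun (hC j) i
    rw [Matrix.mulVecLin_apply, Matrix.mulVec, dotProduct] at h1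
    simp only [Matrix.map_apply, Matrix.mul_apply, Int.cast_sum, Int.cast_mul] at h1 ⊢
    have h2 : ∀ x, ((C' x j : ℤ) : ZMod p) = C j x := by
      intro x
      simp [C']
    simp only [h2]
    rw [h1, Matrix.one_apply, Pi.single_apply]
  have hdet : (((B * C').det : ℤ) : ZMod p) = 1 := by
    have h1 := (Int.castRingHom (ZMod p)).map_det (B * C')
    have h2 : (Int.castRingHom (ZMod p)).mapMatrix (B * C') = 1 := hmul
    rw [h2, Matrix.det_one] at h1
    exact h1
  have hne : (B * C').det ≠ 0 := by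
    intro h
    rw [h] at hdet
    simp at hdet
  have hneK : ((B * C').map (Int.cast : ℤ → K)).det ≠ 0 := by
    have h1 := (Int.castRingHom K).map_det (B * C')
    have h2 : (Int.castRingHom K).mapMatrix (B * C') = (B * C').map (Int.cast : ℤ → K) := rfl
    rw [h2] at h1
    rw [← h1]
    simpa using hne
  have hrk : ((B * C').map (Int.cast : ℤ → K)).rank = Fintype.card κ := by
    apply Matrix.rank_of_isUnit
    rw [Matrix.isUnit_iff_isUnit_det]
    exact isUnit_iff_ne_zero.2 hneK
  have hmapmul : (B * C').map (Int.cast : ℤ → K) =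
      (B.map (Int.cast : ℤ → K)) * (C'.map (Int.cast : ℤ → K)) := by
    ext i j
    simp [Matrix.mul_apply]
  have h3 : Fintype.card κ ≤ (B.map (Int.cast : ℤ → K)).rank := by
    rw [← hrk, hmapmul]
    exact Matrix.rank_mul_le_left _ _
  have h4 : (B.map (Int.cast : ℤ → K)).rank ≤ (A.map (Int.cast : ℤ → K)).rank := by
    rw [Matrix.rank_eq_finrank_span_row, Matrix.rank_eq_finrank_span_row]
    apply Submodule.finrank_mono
    apply Submodule.span_mono
    rintro _ ⟨i, rfl⟩
    exact ⟨a i, rfl⟩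
  rw [hcard]
  exact h3.trans h4

/-- lb: rank-nullity: the annihilator has `|F| ^ (|X| - rank)` elements. -/
theorem rank_of_ann {F M m : Type} [Field F] [Fintype F] [Fintype m] (X : Finset M)
    (V : m → M → F) (M₀ : ℕ)
    (h : Nat.card {φ : M → F // φ ∈ fs F X ∧ ∀ l, ∑ β ∈ X, V l β * φ β = 0} <
      Fintype.card F ^ (M₀ + 1)) :
    X.card ≤ (Matrix.of fun (l : m) (β : X) => V l β.1).rank + M₀ := by
  classical
  set W : Matrix m X F := Matrix.of fun (l : m) (β : X) => V l β.1 with hW
  let e : {φ : M → F // φ ∈ fs F X ∧ ∀ l, ∑ β ∈ X, V l β * φ β = 0} ≃ LinearMap.ker W.mulVecLin :=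
    { toFun := fun φ => ⟨fun β => φ.1 β.1, by
        rw [LinearMap.mem_ker, Matrix.mulVecLin_apply]
        funext l
        rw [Matrix.mulVec, dotProduct]
        have := φ.2.2 l
        rw [← Finset.sum_coe_sort] at this
        simpa [hW] using this⟩
      invFun := fun f => ⟨fun β => if hβ : β ∈ X then f.1 ⟨β, hβ⟩ else 0, by
        refine ⟨mem_fs.2 fun β hβ => by simp [hβ], fun l => ?_⟩
        have h1 := f.2
        rw [LinearMap.mem_ker, Matrix.mulVecLin_apply] at h1
        have h2 := congrFun h1 l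
        rw [Matrix.mulVec, dotProduct] at h2
        rw [← Finset.sum_coe_sort]
        simpa [hW] using h2⟩
      left_inv := fun φ => by
        apply Subtype.ext
        funext β
        by_cases hβ : β ∈ X
        · simp [hβ]
        · simp [hβ, mem_fs.1 φ.2.1 β hβ]
      right_inv := fun f => by
        apply Subtype.ext
        funext β
        simp }
  rw [Nat.card_congr e, Nat.card_eq_fintype_card, Module.card_eq_pow_finrank (K := F)] at h
  have h1 := (Nat.pow_lt_pow_iff_right (Fintype.one_lt_card (α := F))).1 h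
  have h2 := LinearMap.finrank_range_add_finrank_ker W.mulVecLin
  rw [Module.finrank_fintype_fun_eq_card, Fintype.card_coe] at h2
  have h3 : W.rank = Module.finrank F (LinearMap.range W.mulVecLin) := rfl
  omega


private theorem lc_xm_mul {n : ℕ} (K : Type) [CommSemiring K] (α β : Fin n → ℕ) :
    xm K α * xm K β = xm K (α + β) := by
  unfold xm
  rw [MvPolynomial.monomial_mul, one_mul]
  congr 2
  ext i
  simp

private theorem lc_xm_pow {n : ℕ} (K : Type) [CommSemiring K] (α : Fin n → ℕ) (k : ℕ) :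
    xm K α ^ k = xm K (k • α) := by
  unfold xm
  rw [MvPolynomial.monomial_pow, one_pow]
  congr 2
  ext i
  simp

/-- lc: the coefficients of `x ^ α * ((x^a + p f)^k - x^(k a)) / p` are integers, congruent to those
of `k x^((k-1) a) f x^α` (`Polynomial.powAddExpansion`). -/
theorem exists_quot {n p k : ℕ} (a α : Fin n → ℕ) (f : MvPolynomial (Fin n) ℤ) :
    ∃ V : MvPolynomial (Fin n) ℤ,
      xm ℤ α * (xm ℤ a + MvPolynomial.C (p : ℤ) * f) ^ k =
        xm ℤ α * xm ℤ a ^ k + MvPolynomial.C (p : ℤ) * V ∧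
      ∀ β, ((MvPolynomial.coeff β V : ℤ) : ZMod p) =
        ((MvPolynomial.coeff β (MvPolynomial.C (k : ℤ) * (xm ℤ ((k - 1) • a + α) * f)) : ℤ) :
          ZMod p) := by
  obtain ⟨K₀, hK⟩ := Polynomial.powAddExpansion (xm ℤ a) (MvPolynomial.C (p : ℤ) * f) k
  refine ⟨MvPolynomial.C (k : ℤ) * (xm ℤ ((k - 1) • a + α) * f) +
    MvPolynomial.C (p : ℤ) * (xm ℤ α * K₀ * f ^ 2), ?_, ?_⟩
  · rw [hK, ← lc_xm_mul, ← lc_xm_pow]
    have h1 : (k : MvPolynomial (Fin n) ℤ) = MvPolynomial.C (k : ℤ) := by simp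
    rw [h1]
    ring
  · intro β
    rw [MvPolynomial.coeff_add, MvPolynomial.coeff_C_mul β (p : ℤ)]
    push_cast
    simp

private theorem ld_coeff_xm {n : ℕ} (K : Type) [CommSemiring K] (α β : Fin n → ℕ) :
    MvPolynomial.coeff (Finsupp.equivFunOnFinite.symm β) (xm K α) = if α = β then 1 else 0 := by
  classical
  unfold xm
  rw [MvPolynomial.coeff_monomial]
  simp

private theorem ld_hom {n d : ℕ} (K : Type) [CommSemiring K] {α : Fin n → ℕ} (h : α ∈ mon n d) :
    (xm K α).IsHomogeneous d := by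
  unfold xm
  apply MvPolynomial.isHomogeneous_monomial
  rw [mem_mon] at h
  rw [← h, Finsupp.degree_eq_sum]
  simp

private theorem ld_map_xm {n : ℕ} (K : Type) [Field K] (α : Fin n → ℕ) :
    MvPolynomial.map (Int.castRingHom K) (xm ℤ α) = xm K α := by
  unfold xm
  simp

/-- ld: the lift. The integral forms `x^(a c)` and `x^(a (pos i)) + p f_i`, the integral vectors
`x^(k a + α)` and `V (i, α)` of `exists_quot`; modulo `p` the annihilator of the vectors is that of
the hypothesis (`k ≠ 0` in `ZMod p`), so their rank modulo `p` is at least `|mon| - M₀`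
(`rank_of_ann`), hence also over `K` (`rank_lift`), and over `K` they are in `mspan`. -/
theorem lift (K : Type) [Field K] [CharZero K] {p : ℕ} [Fact p.Prime] {n j d k : ℕ} (hk : 1 ≤ k)
    (hkp : k < p) {P I : Type} [Fintype P] [Fintype I] (a : P → (Fin n → ℕ))
    (ha : ∀ c, a c ∈ mon n d) (pos : I → P) (f : I → ((Fin n → ℕ) → ZMod p)) (M₀ : ℕ)
    (h : Nat.card {φ : (Fin n → ℕ) → ZMod p // φ ∈ fs (ZMod p) (mon n (d * k + j)) ∧
      (∀ c, ∀ α ∈ mon n j, φ (k • a c + α) = 0) ∧ ∀ i, ∀ α ∈ mon n j,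
        ∑ γ ∈ mon n d, f i γ * φ ((k - 1) • a (pos i) + (α + γ)) = 0} < p ^ (M₀ + 1)) :
    ∃ g : P ⊕ I → MvPolynomial (Fin n) K, (∀ l, (g l).IsHomogeneous d) ∧
      (mon n (d * k + j)).card ≤ Module.finrank K (mspan j fun l => g l ^ k) + M₀ := by
  classical
  have hp : p.Prime := Fact.out
  have hkz : (k : ZMod p) ≠ 0 := by
    intro h0
    rw [ZMod.natCast_eq_zero_iff] at h0
    exact absurd (Nat.le_of_dvd (by omega) h0) (by omega)
  set Fz : I → MvPolynomial (Fin n) ℤ := fun i =>
    ∑ γ ∈ mon n d, MvPolynomial.C ((f i γ).val : ℤ) * xm ℤ γ with hFz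
  choose Vq hVq hVc using fun (i : I) (α : Fin n → ℕ) =>
    exists_quot (p := p) (k := k) (a (pos i)) α (Fz i)
  let Vz : (P ⊕ I) × (mon n j) → MvPolynomial (Fin n) ℤ := fun l =>
    Sum.elim (fun c => xm ℤ l.2.1 * xm ℤ (a c) ^ k) (fun i => Vq i l.2.1) l.1
  let V : (P ⊕ I) × (mon n j) → (Fin n → ℕ) → ZMod p := fun l β =>
    ((MvPolynomial.coeff (Finsupp.equivFunOnFinite.symm β) (Vz l) : ℤ) : ZMod p)
  -- the annihilator
  have hV1 : ∀ c (α : mon n j) (φ : (Fin n → ℕ) → ZMod p),
      ∑ β ∈ mon n (d * k + j), V (Sum.inl c, α) β * φ β = φ (k • a c + α.1) := by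
    intro c α φ
    have h1 : ∀ β, V (Sum.inl c, α) β * φ β = if k • a c + α.1 = β then φ β else 0 := by
      intro β
      have h2 : V (Sum.inl c, α) β = if k • a c + α.1 = β then 1 else 0 := by
        show ((MvPolynomial.coeff (Finsupp.equivFunOnFinite.symm β)
          (xm ℤ α.1 * xm ℤ (a c) ^ k) : ℤ) : ZMod p) = _
        rw [lc_xm_pow, lc_xm_mul, ld_coeff_xm, add_comm]
        split <;> simp
      rw [h2]
      split <;> simp
    simp only [h1]
    rw [Finset.sum_ite_eq, if_pos]
    have h3 := mem_mon.1 (ha c)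
    have h4 := mem_mon.1 α.2
    rw [mem_mon]
    simp only [Pi.add_apply, Pi.smul_apply, smul_eq_mul]
    rw [Finset.sum_add_distrib, ← Finset.mul_sum, h3, h4, mul_comm]
  have hV2 : ∀ i (α : mon n j) (φ : (Fin n → ℕ) → ZMod p),
      ∑ β ∈ mon n (d * k + j), V (Sum.inr i, α) β * φ β =
        (k : ZMod p) * ∑ γ ∈ mon n d, f i γ * φ ((k - 1) • a (pos i) + (α.1 + γ)) := by
    intro i α φ
    have h2 : ∀ β, V (Sum.inr i, α) β = (k : ZMod p) * ∑ γ ∈ mon n d,
        f i γ * if (k - 1) • a (pos i) + (α.1 + γ) = β then 1 else 0 := by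
      intro β
      show ((MvPolynomial.coeff (Finsupp.equivFunOnFinite.symm β) (Vq i α.1) : ℤ) : ZMod p) = _
      rw [hVc, MvPolynomial.coeff_C_mul, hFz]
      simp only
      rw [Finset.mul_sum, MvPolynomial.coeff_sum]
      push_cast
      congr 1
      apply Finset.sum_congr rfl
      intro γ _
      have h3 : xm ℤ ((k - 1) • a (pos i) + α.1) * (MvPolynomial.C ((f i γ).val : ℤ) * xm ℤ γ) =
          MvPolynomial.C ((f i γ).val : ℤ) * xm ℤ ((k - 1) • a (pos i) + (α.1 + γ)) := by
        rw [← add_assoc, ← lc_xm_mul ℤ ((k - 1) • a (pos i) + α.1) γ]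
        generalize xm ℤ ((k - 1) • a (pos i) + α.1) = u
        generalize xm ℤ γ = v
        ring
      rw [h3, MvPolynomial.coeff_C_mul, ld_coeff_xm]
      push_cast
      rw [ZMod.natCast_zmod_val]
    simp only [h2]
    have h5 : ∀ β, (k : ZMod p) * (∑ γ ∈ mon n d,
        f i γ * if (k - 1) • a (pos i) + (α.1 + γ) = β then 1 else 0) * φ β =
        (k : ZMod p) * ∑ γ ∈ mon n d,
          if (k - 1) • a (pos i) + (α.1 + γ) = β then f i γ * φ β else 0 := by
      intro β
      rw [mul_assoc, Finset.sum_mul]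
      congr 1
      apply Finset.sum_congr rfl
      intro γ _
      split <;> simp
    simp only [h5]
    rw [← Finset.mul_sum, Finset.sum_comm]
    congr 1
    apply Finset.sum_congr rfl
    intro γ hγ
    rw [Finset.sum_ite_eq, if_pos]
    have h3 := mem_mon.1 (ha (pos i))
    have h4 := mem_mon.1 α.2
    have h6 := mem_mon.1 hγ
    rw [mem_mon]
    simp only [Pi.add_apply, Pi.smul_apply, smul_eq_mul]
    rw [Finset.sum_add_distrib, Finset.sum_add_distrib, ← Finset.mul_sum, h3, h4, h6]
    obtain ⟨k', rfl⟩ : ∃ k', k = k' + 1 := ⟨k - 1, by omega⟩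
    simp only [Nat.add_sub_cancel]
    ring
  have hcard : Nat.card {φ : (Fin n → ℕ) → ZMod p // φ ∈ fs (ZMod p) (mon n (d * k + j)) ∧
      ∀ l, ∑ β ∈ mon n (d * k + j), V l β * φ β = 0} < Fintype.card (ZMod p) ^ (M₀ + 1) := by
    rw [ZMod.card]
    refine lt_of_eq_of_lt (Nat.card_congr (Equiv.subtypeEquivRight fun φ => ?_)) h
    constructor
    · rintro ⟨h1, h2⟩
      refine ⟨h1, fun c α hα => ?_, fun i α hα => ?_⟩
      · have := h2 (Sum.inl c, ⟨α, hα⟩)
        rwa [hV1] at this
      · have := h2 (Sum.inr i, ⟨α, hα⟩)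
        rw [hV2] at this
        exact (mul_eq_zero.1 this).resolve_left hkz
    · rintro ⟨h1, h2, h3⟩
      refine ⟨h1, ?_⟩
      rintro ⟨c | i, α⟩
      · rw [hV1]
        exact h2 c α.1 α.2
      · rw [hV2, h3 i α.1 α.2, mul_zero]
  have hr := rank_of_ann (mon n (d * k + j)) V M₀ hcard
  -- the forms over `K`
  let g : P ⊕ I → MvPolynomial (Fin n) K := Sum.elim (fun c => xm K (a c))
    (fun i => MvPolynomial.map (Int.castRingHom K)
      (xm ℤ (a (pos i)) + MvPolynomial.C (p : ℤ) * Fz i))
  let Az : Matrix ((P ⊕ I) × (mon n j)) (mon n (d * k + j)) ℤ := Matrix.of fun l β =>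
    MvPolynomial.coeff (Finsupp.equivFunOnFinite.symm β.1) (Vz l)
  have hAp : (Matrix.of fun (l : (P ⊕ I) × (mon n j)) (β : mon n (d * k + j)) => V l β.1) =
      Az.map (Int.cast : ℤ → ZMod p) := rfl
  rw [hAp] at hr
  refine ⟨g, ?_, ?_⟩
  · rintro (c | i)
    · exact ld_hom K (ha c)
    · apply MvPolynomial.IsHomogeneous.map
      apply MvPolynomial.IsHomogeneous.add (ld_hom ℤ (ha _))
      have h0 : (0 + d) = d := by omega
      rw [← h0]
      apply MvPolynomial.IsHomogeneous.mul (MvPolynomial.isHomogeneous_C _ _)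
      apply MvPolynomial.IsHomogeneous.sum
      intro γ hγ
      rw [← h0]
      exact MvPolynomial.IsHomogeneous.mul (MvPolynomial.isHomogeneous_C _ _) (ld_hom ℤ hγ)
  · refine hr.trans (Nat.add_le_add_right ?_ M₀)
    refine (rank_lift (K := K) Az).trans ?_
    set W := mspan j fun l => g l ^ k with hW
    have hfd : FiniteDimensional K W := by
      rw [hW]
      unfold mspan
      apply FiniteDimensional.span_of_finite
      have : {q | ∃ i, ∃ α ∈ mon n j, q = xm K α * g i ^ k} ⊆
          Set.range (fun l : (P ⊕ I) × (mon n j) => xm K l.2.1 * g l.1 ^ k) := by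
        rintro q ⟨i, α, hα, rfl⟩
        exact ⟨(i, ⟨α, hα⟩), rfl⟩
      exact (Set.finite_range _).subset this
    let L : MvPolynomial (Fin n) K →ₗ[K] (mon n (d * k + j) → K) :=
      LinearMap.pi fun β => MvPolynomial.lcoeff K (Finsupp.equivFunOnFinite.symm β.1)
    have hmem : ∀ l, MvPolynomial.map (Int.castRingHom K) (Vz l) ∈ W := by
      have hin : ∀ l, ∀ α ∈ mon n j, xm K α * g l ^ k ∈ W := fun l α hα =>
        Submodule.subset_span ⟨l, α, hα, rfl⟩
      rintro ⟨c | i, α⟩
      · have h1 : MvPolynomial.map (Int.castRingHom K) (Vz (Sum.inl c, α)) =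
            xm K α.1 * g (Sum.inl c) ^ k := by
          show MvPolynomial.map (Int.castRingHom K) (xm ℤ α.1 * xm ℤ (a c) ^ k) = _
          rw [map_mul, map_pow, ld_map_xm, ld_map_xm]
          rfl
        rw [h1]
        exact hin _ _ α.2
      · have h1 : (p : K) • MvPolynomial.map (Int.castRingHom K) (Vz (Sum.inr i, α)) =
            xm K α.1 * g (Sum.inr i) ^ k - xm K α.1 * g (Sum.inl (pos i)) ^ k := by
          have h2 := congrArg (MvPolynomial.map (Int.castRingHom K)) (hVq i α.1)
          rw [map_mul, map_pow, map_add (MvPolynomial.map (Int.castRingHom K)) (xm ℤ α.1 * _) _,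
            map_mul _ (xm ℤ α.1) (xm ℤ (a (pos i)) ^ k), map_pow _ (xm ℤ (a (pos i))) k,
            map_mul _ (MvPolynomial.C (p : ℤ)) (Vq i α.1), ld_map_xm, ld_map_xm,
            MvPolynomial.map_C] at h2
          show (p : K) • MvPolynomial.map (Int.castRingHom K) (Vq i α.1) =
            xm K α.1 * (MvPolynomial.map (Int.castRingHom K)
              (xm ℤ (a (pos i)) + MvPolynomial.C (p : ℤ) * Fz i)) ^ k -
              xm K α.1 * (xm K (a (pos i))) ^ k
          rw [h2, MvPolynomial.smul_eq_C_mul]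
          simp
        have hpK : (p : K) ≠ 0 := by exact_mod_cast hp.ne_zero
        have h3 : (p : K) • MvPolynomial.map (Int.castRingHom K) (Vz (Sum.inr i, α)) ∈ W := by
          rw [h1]
          exact W.sub_mem (hin _ _ α.2) (hin _ _ α.2)
        exact (W.smul_mem_iff hpK).1 h3
    rw [Matrix.rank_eq_finrank_span_row]
    refine (Submodule.finrank_mono (t := W.map L) ?_).trans (Submodule.finrank_map_le L W)
    rw [Submodule.span_le]
    rintro _ ⟨l, rfl⟩
    refine ⟨_, hmem l, ?_⟩
    funext β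
    show MvPolynomial.coeff _ (MvPolynomial.map (Int.castRingHom K) (Vz l)) = _
    rw [MvPolynomial.coeff_map]
    rfl

end Pool.Agent.Nks
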