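import Pool.Agent.Nks.Lift

/-!
# Openness
-/

set_option autoImplicit false

namespace Pool.Agent.Nks

open Finset

/-- The coefficients of a family of polynomials. -/
noncomputable def cf {n : ℕ} {K : Type} [Field K] {ι : Type} (g : ι → MvPolynomial (Fin n) K) :
    ι × (Fin n →₀ ℕ) → K :=
  fun p => MvPolynomial.coeff p.2 (g p.1)

variable {n : ℕ} {K : Type} [Field K] {ι : Type}

/-- The exponents of degree `t` as finitely supported functions. -/
private noncomputable def oaS (n t : ℕ) : Finset (Fin n →₀ ℕ) :=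
  (mon n t).image Finsupp.equivFunOnFinite.symm

private theorem oa_mem {t : ℕ} (s : Fin n →₀ ℕ) : s ∈ oaS n t ↔ s.degree = t := by
  unfold oaS
  rw [Finset.mem_image]
  constructor
  · rintro ⟨α, hα, rfl⟩
    rw [Finsupp.degree_eq_sum]
    simpa using mem_mon.1 hα
  · intro h
    refine ⟨s, ?_, ?_⟩
    · rw [mem_mon, ← Finsupp.degree_eq_sum]
      exact h
    · ext i
      simp

private theorem oa_sum {R : Type} [CommSemiring R] {t : ℕ} {f : MvPolynomial (Fin n) R}
    (hf : f.IsHomogeneous t) : f = ∑ s ∈ oaS n t, MvPolynomial.monomial s (MvPolynomial.coeff s f) := by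
  conv_lhs => rw [f.as_sum]
  refine Finset.sum_subset ?_ ?_
  · intro s hs
    rw [oa_mem, Finsupp.degree_eq_weight_one]
    exact hf (MvPolynomial.mem_support_iff.1 hs)
  · intro s _ hs
    rw [MvPolynomial.notMem_support_iff.1 hs]
    simp

/-- The general forms. -/
private noncomputable def oaG (n d : ℕ) (K : Type) [Field K] (ι : Type) (i : ι) :
    MvPolynomial (Fin n) (MvPolynomial (ι × (Fin n →₀ ℕ)) K) :=
  ∑ s ∈ oaS n d, MvPolynomial.monomial s (MvPolynomial.X (i, s))

private theorem oa_map (d : ℕ) (g : ι → MvPolynomial (Fin n) K) (hg : ∀ i, (g i).IsHomogeneous d)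
    (i : ι) : MvPolynomial.map (MvPolynomial.eval (cf g)) (oaG n d K ι i) = g i := by
  unfold oaG
  rw [map_sum]
  conv_rhs => rw [oa_sum (hg i)]
  refine Finset.sum_congr rfl fun s _ => ?_
  rw [MvPolynomial.map_monomial, MvPolynomial.eval_X]
  rfl

private theorem oa_hom (d k j : ℕ) (g : ι → MvPolynomial (Fin n) K)
    (hg : ∀ i, (g i).IsHomogeneous d) (i : ι) (α : Fin n → ℕ) (hα : α ∈ mon n j) :
    (xm K α * g i ^ k).IsHomogeneous (j + d * k) := by
  refine MvPolynomial.IsHomogeneous.mul ?_ ((hg i).pow k)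
  refine MvPolynomial.isHomogeneous_monomial 1 ?_
  rw [Finsupp.degree_eq_sum]
  simpa using mem_mon.1 hα

private theorem oa_fun {t : ℕ} {f : MvPolynomial (Fin n) K} (hf : f.IsHomogeneous t)
    (φ : MvPolynomial (Fin n) K →ₗ[K] K) :
    φ f = ∑ s ∈ oaS n t, MvPolynomial.coeff s f * φ (MvPolynomial.monomial s 1) := by
  conv_lhs => rw [oa_sum hf]
  rw [map_sum]
  refine Finset.sum_congr rfl fun s _ => ?_
  have : MvPolynomial.monomial s (MvPolynomial.coeff s f) =
      MvPolynomial.coeff s f • (MvPolynomial.monomial s (1 : K)) := by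
    rw [MvPolynomial.smul_monomial]
    simp
  rw [this, map_smul, smul_eq_mul]

private theorem oa_span [Fintype ι] (j : ℕ) (h : ι → MvPolynomial (Fin n) K) :
    mspan j h = Submodule.span K (Set.range fun p : ι × mon n j => xm K p.2.1 * h p.1) := by
  unfold mspan
  congr 1
  ext f
  constructor
  · rintro ⟨i, α, hα, rfl⟩
    exact ⟨(i, ⟨α, hα⟩), rfl⟩
  · rintro ⟨p, rfl⟩
    exact ⟨p.1, p.2.1, p.2.2, rfl⟩

private theorem oa_choose [Fintype ι] (j R : ℕ) (h : ι → MvPolynomial (Fin n) K)
    (hR : R ≤ Module.finrank K (mspan j h)) :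
    ∃ e : Fin R → ι × mon n j, LinearIndependent K fun r => xm K (e r).2.1 * h (e r).1 := by
  classical
  rw [oa_span] at hR
  obtain ⟨b, hb1, hb2, hb3⟩ := exists_linearIndependent K
    (Set.range fun p : ι × mon n j => xm K p.2.1 * h p.1)
  have hfin : b.Finite := (Set.finite_range _).subset hb1
  haveI : Fintype b := hfin.fintype
  rw [← hb2] at hR
  have hcard : Module.finrank K (Submodule.span K b) = Fintype.card b := by
    have h1 := finrank_span_eq_card (R := K) hb3
    rw [Subtype.range_coe] at h1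
    exact h1
  rw [hcard] at hR
  obtain ⟨f⟩ : Nonempty (Fin R ↪ b) := Function.Embedding.nonempty_of_card_le (by simpa using hR)
  have hp : ∀ r : Fin R, ∃ p : ι × mon n j, xm K p.2.1 * h p.1 = (f r : MvPolynomial (Fin n) K) := by
    intro r
    obtain ⟨p, hp⟩ := hb1 (f r).2
    exact ⟨p, hp⟩
  choose e he using hp
  refine ⟨e, ?_⟩
  have h2 : (fun r => xm K (e r).2.1 * h (e r).1) =
      (Subtype.val : b → MvPolynomial (Fin n) K) ∘ f := by
    funext r
    exact he r
  rw [h2]
  exact hb3.comp f f.injective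

private theorem oa_dual {R : ℕ} {W : Type} [AddCommGroup W] [Module K W] (v : Fin R → W)
    (hv : LinearIndependent K v) :
    ∃ φ : Fin R → (W →ₗ[K] K), ∀ r l, φ l (v r) = if r = l then 1 else 0 := by
  obtain ⟨L, hL⟩ := LinearMap.exists_leftInverse_of_injective (Finsupp.linearCombination K v)
    (LinearMap.ker_eq_bot.2 hv)
  refine ⟨fun l => (Finsupp.lapply l).comp L, fun r l => ?_⟩
  have h1 : L (v r) = Finsupp.single r 1 := by
    have h2 := LinearMap.congr_fun hL (Finsupp.single r (1 : K))
    simpa using h2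
  simp only [LinearMap.comp_apply, h1, Finsupp.lapply_apply]
  exact Finsupp.single_apply

/-- oa: choose `R` pairs `(i, α)` such that the `x ^ α * g₀ i ^ k` are linearly independent and a
matrix `N` such that (coefficients of these) `* N = 1`; `P` is the determinant of (coefficients of
the `x ^ α * G i ^ k`) `* N` for the general forms `G i = ∑_γ X (i, γ) x ^ γ` (`γ` of degree
`d`). -/
theorem exists_poly [Fintype ι] (d k j R : ℕ) (g₀ : ι → MvPolynomial (Fin n) K)
    (hg₀ : ∀ i, (g₀ i).IsHomogeneous d)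
    (hR : R ≤ Module.finrank K (mspan j fun i => g₀ i ^ k)) :
    ∃ P : MvPolynomial (ι × (Fin n →₀ ℕ)) K, MvPolynomial.eval (cf g₀) P ≠ 0 ∧
      ∀ g : ι → MvPolynomial (Fin n) K, (∀ i, (g i).IsHomogeneous d) →
        MvPolynomial.eval (cf g) P ≠ 0 → R ≤ Module.finrank K (mspan j fun i => g i ^ k) := by
  classical
  obtain ⟨e, he⟩ := oa_choose j R (fun i => g₀ i ^ k) hR
  obtain ⟨φ, hφ⟩ := oa_dual _ he
  let A := MvPolynomial (ι × (Fin n →₀ ℕ)) K
  let V : Fin R → MvPolynomial (Fin n) A := fun r =>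
    MvPolynomial.monomial (Finsupp.equivFunOnFinite.symm (e r).2.1) 1 * oaG n d K ι (e r).1 ^ k
  let M : Matrix (Fin R) (Fin R) A := fun r l =>
    ∑ s ∈ oaS n (j + d * k), MvPolynomial.coeff s (V r) *
      MvPolynomial.C (φ l (MvPolynomial.monomial s 1))
  have key : ∀ g : ι → MvPolynomial (Fin n) K, (∀ i, (g i).IsHomogeneous d) →
      MvPolynomial.eval (cf g) M.det =
        (Matrix.of fun r l => φ l (xm K (e r).2.1 * g (e r).1 ^ k)).det := by
    intro g hg
    rw [RingHom.map_det]
    congr 1
    ext r l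
    rw [RingHom.mapMatrix_apply, Matrix.map_apply, Matrix.of_apply,
      oa_fun (oa_hom d k j g hg (e r).1 (e r).2.1 (e r).2.2) (φ l)]
    simp only [M]
    rw [map_sum]
    refine Finset.sum_congr rfl fun s _ => ?_
    rw [map_mul, MvPolynomial.eval_C]
    congr 1
    rw [← MvPolynomial.coeff_map]
    congr 1
    simp only [V]
    rw [map_mul, map_pow, oa_map d g hg, MvPolynomial.map_monomial, map_one]
    rfl
  refine ⟨M.det, ?_, ?_⟩
  · rw [key g₀ hg₀]
    have : (Matrix.of fun r l => φ l (xm K (e r).2.1 * g₀ (e r).1 ^ k)) =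
        (1 : Matrix (Fin R) (Fin R) K) := by
      ext r l
      rw [Matrix.of_apply, hφ r l, Matrix.one_apply]
    rw [this, Matrix.det_one]
    exact one_ne_zero
  · intro g hg hne
    rw [key g hg] at hne
    have hli : LinearIndependent K fun r => xm K (e r).2.1 * g (e r).1 ^ k := by
      rw [Fintype.linearIndependent_iff]
      intro c hc
      have h0 : Matrix.vecMul c (Matrix.of fun r l => φ l (xm K (e r).2.1 * g (e r).1 ^ k)) = 0 := by
        funext l
        have h1 := congrArg (φ l) hc
        rw [map_sum, map_zero] at h1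
        rw [Matrix.vecMul, dotProduct]
        simpa [Matrix.of_apply] using h1
      have h2 := Matrix.eq_zero_of_vecMul_eq_zero hne h0
      intro r
      exact congrFun h2 r
    have hsub : Submodule.span K (Set.range fun r => xm K (e r).2.1 * g (e r).1 ^ k) ≤
        mspan j fun i => g i ^ k := by
      rw [Submodule.span_le]
      rintro _ ⟨r, rfl⟩
      exact Submodule.subset_span ⟨(e r).1, (e r).2.1, (e r).2.2, rfl⟩
    haveI : Module.Finite K (mspan j fun i => g i ^ k) := by
      rw [oa_span]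
      exact FiniteDimensional.span_of_finite K (Set.finite_range _)
    have h3 := Submodule.finrank_mono hsub
    rw [finrank_span_eq_card hli, Fintype.card_fin] at h3
    exact h3

private theorem ob_line (Q : MvPolynomial (ι × (Fin n →₀ ℕ)) K)
    (u v : ι × (Fin n →₀ ℕ) → K) : ∃ q : Polynomial K, ∀ c : K,
      Polynomial.eval c q = MvPolynomial.eval (fun p => u p + c * (v p - u p)) Q := by
  refine ⟨MvPolynomial.eval₂Hom Polynomial.C
    (fun p => Polynomial.C (u p) + Polynomial.X * Polynomial.C (v p - u p)) Q, fun c => ?_⟩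
  have h1 := MvPolynomial.comp_eval₂Hom (Polynomial.C : K →+* Polynomial K)
    (fun p : ι × (Fin n →₀ ℕ) => Polynomial.C (u p) + Polynomial.X * Polynomial.C (v p - u p))
    (Polynomial.evalRingHom c)
  have h2 := RingHom.congr_fun h1 Q
  have h3 : (Polynomial.evalRingHom c).comp (Polynomial.C : K →+* Polynomial K) =
      RingHom.id K := by
    ext a
    simp
  rw [h3] at h2
  rw [RingHom.comp_apply, Polynomial.coe_evalRingHom] at h2
  rw [h2]
  unfold MvPolynomial.eval
  congr 2
  funext p
  simp

/-- ob: two nonempty open sets meet: restrict to the line through two points; then induction. -/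
theorem exists_common [Infinite K] (d T : ℕ) (P : ℕ → MvPolynomial (ι × (Fin n →₀ ℕ)) K)
    (h : ∀ t < T, ∃ g₀ : ι → MvPolynomial (Fin n) K, (∀ i, (g₀ i).IsHomogeneous d) ∧
      MvPolynomial.eval (cf g₀) (P t) ≠ 0) :
    ∃ g₀ : ι → MvPolynomial (Fin n) K, (∀ i, (g₀ i).IsHomogeneous d) ∧
      MvPolynomial.eval (cf g₀) (∏ t ∈ range T, P t) ≠ 0 := by
  classical
  induction T with
  | zero =>
    refine ⟨fun _ => 0, fun _ => MvPolynomial.isHomogeneous_zero _ _ _, ?_⟩
    simp
  | succ T ih =>
    obtain ⟨g1, hg1, h1⟩ := ih fun t ht => h t (by omega)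
    obtain ⟨g2, hg2, h2⟩ := h T (by omega)
    obtain ⟨q1, hq1⟩ := ob_line (∏ t ∈ range T, P t) (cf g1) (cf g2)
    obtain ⟨q2, hq2⟩ := ob_line (P T) (cf g1) (cf g2)
    have hn1 : q1 ≠ 0 := by
      intro h0
      have := hq1 0
      rw [h0, Polynomial.eval_zero] at this
      apply h1
      rw [this]
      congr 2
      funext p
      ring
    have hn2 : q2 ≠ 0 := by
      intro h0
      have := hq2 1
      rw [h0, Polynomial.eval_zero] at this
      apply h2
      rw [this]
      congr 2
      funext p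
      ring
    obtain ⟨c, hc⟩ := Infinite.exists_notMem_finset (q1 * q2).roots.toFinset
    rw [Multiset.mem_toFinset, Polynomial.mem_roots (mul_ne_zero hn1 hn2), Polynomial.IsRoot.def,
      Polynomial.eval_mul] at hc
    have hcf : (fun p => cf g1 p + c * (cf g2 p - cf g1 p)) =
        cf (fun i => g1 i + c • (g2 i - g1 i)) := by
      funext p
      simp [cf]
    refine ⟨fun i => g1 i + c • (g2 i - g1 i), fun i => ?_, ?_⟩
    · have e1 : g1 i ∈ MvPolynomial.homogeneousSubmodule (Fin n) K d := hg1 i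
      have e2 : g2 i ∈ MvPolynomial.homogeneousSubmodule (Fin n) K d := hg2 i
      exact Submodule.add_mem _ e1 (Submodule.smul_mem _ _ (Submodule.sub_mem _ e2 e1))
    · rw [Finset.prod_range_succ, map_mul]
      rw [hq1 c, hq2 c, hcf] at hc
      exact hc

end Pool.Agent.Nks
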