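import Pool.Agent.Nks.Up

/-!
# The powers span
-/

set_option autoImplicit false

namespace Pool.Agent.Nks

open Finset

variable {n : ℕ} {K : Type} [Field K] [CharZero K]

private theorem sa_step {R : Type} [CommRing R] [Algebra K R] (V : Submodule K R) (L : R →ₗ[K] K)
    (q : R) (m : ℕ) (h : ∀ g ∈ V, L (g ^ (m + 1) * q) = 0) (g x : R) (hg : g ∈ V) (hx : x ∈ V) :
    L (g ^ m * x * q) = 0 := by
  classical
  let P : Polynomial K := ∑ l ∈ Finset.range (m + 2),
    Polynomial.monomial l (L (x ^ l * g ^ (m + 1 - l) * ((m + 1).choose l : R) * q))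
  have hP : P = 0 := by
    refine Polynomial.funext fun t => ?_
    rw [Polynomial.eval_zero]
    have h1 := h (t • x + g) (V.add_mem (V.smul_mem t hx) hg)
    rw [add_pow, Finset.sum_mul, map_sum] at h1
    rw [← h1, Polynomial.eval_finsetSum]
    refine Finset.sum_congr rfl fun l _ => ?_
    rw [Polynomial.eval_monomial, smul_pow]
    have : t ^ l • x ^ l * g ^ (m + 1 - l) * ((m + 1).choose l : R) * q =
        t ^ l • (x ^ l * g ^ (m + 1 - l) * ((m + 1).choose l : R) * q) := by
      simp only [smul_mul_assoc]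
    rw [this, map_smul, smul_eq_mul, mul_comm]
  have h2 : P.coeff 1 = 0 := by rw [hP, Polynomial.coeff_zero]
  rw [Polynomial.finsetSum_coeff] at h2
  simp only [Polynomial.coeff_monomial] at h2
  rw [Finset.sum_ite_eq' (Finset.range (m + 2)) 1, if_pos (by simp)] at h2
  have h3 : x ^ 1 * g ^ (m + 1 - 1) * ((m + 1).choose 1 : R) * q =
      ((m + 1 : ℕ) : K) • (g ^ m * x * q) := by
    rw [Nat.choose_one_right, Algebra.smul_def]
    simp only [pow_one, Nat.add_sub_cancel, map_natCast]
    ring
  rw [h3, map_smul, smul_eq_mul] at h2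
  exact (mul_eq_zero.1 h2).resolve_left (by exact_mod_cast Nat.succ_ne_zero m)

private theorem sa_aux {R : Type} [CommRing R] [Algebra K R] (V : Submodule K R) (L : R →ₗ[K] K) :
    ∀ (k : ℕ) (q : R), (∀ g ∈ V, L (g ^ k * q) = 0) → ∀ g : Fin k → R, (∀ i, g i ∈ V) →
      L ((∏ i, g i) * q) = 0 := by
  intro k
  induction k with
  | zero =>
    intro q h g _
    have := h 0 V.zero_mem
    simpa using this
  | succ k ih =>
    intro q h g hg
    rw [Fin.prod_univ_succ]
    have h1 := ih (g 0 * q) (fun y hy => by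
      have := sa_step V L q k h y (g 0) hy (hg 0)
      rwa [mul_assoc] at this) (fun i => g i.succ) (fun i => hg _)
    rw [show g 0 * (∏ i : Fin k, g i.succ) * q = (∏ i : Fin k, g i.succ) * (g 0 * q) by ring]
    exact h1

/-- sa: a functional which vanishes at all `g ^ k`, `g` in a subspace `V` of a commutative algebra,
vanishes at all products of `k` elements of `V` (polarization). -/
theorem polar {R : Type} [CommRing R] [Algebra K R] (V : Submodule K R) (k : ℕ) (L : R →ₗ[K] K)
    (h : ∀ g ∈ V, L (g ^ k) = 0) (g : Fin k → R) (hg : ∀ i, g i ∈ V) : L (∏ i, g i) = 0 := by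
  have := sa_aux V L k 1 (fun y hy => by rw [mul_one]; exact h y hy) g hg
  rwa [mul_one] at this

private theorem sb_part (d : ℕ) : ∀ (b : Fin n → ℕ), d ≤ ∑ i, b i →
    ∃ c : Fin n → ℕ, (∀ i, c i ≤ b i) ∧ ∑ i, c i = d := by
  induction d with
  | zero =>
    intro b _
    exact ⟨fun _ => 0, fun i => Nat.zero_le _, by simp⟩
  | succ d ih =>
    intro b hb
    obtain ⟨c, hc, hcs⟩ := ih b (by omega)
    have : ∃ i, c i < b i := by
      by_contra hne
      push Not at hne
      have := Finset.sum_le_sum (s := Finset.univ) fun i _ => hne i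
      omega
    obtain ⟨i, hi⟩ := this
    refine ⟨c + Pi.single i 1, fun l => ?_, ?_⟩
    · by_cases hl : l = i
      · subst hl
        simpa using hi
      · simpa [hl] using hc l
    · rw [← hcs]
      simp [Finset.sum_add_distrib]

/-- sb: every exponent of degree `d * k` is a sum of `k` exponents of degree `d`. -/
theorem exists_sum_eq (d k : ℕ) {β : Fin n → ℕ} (hβ : β ∈ mon n (d * k)) :
    ∃ α : Fin k → (Fin n → ℕ), (∀ t, α t ∈ mon n d) ∧ ∑ t, α t = β := by
  induction k generalizing β with
  | zero =>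
    rw [mem_mon] at hβ
    refine ⟨fun t => t.elim0, fun t => t.elim0, ?_⟩
    rw [Nat.mul_zero] at hβ
    rw [Finset.univ_eq_empty, Finset.sum_empty]
    funext i
    exact (Finset.sum_eq_zero_iff.1 hβ i (Finset.mem_univ _)).symm
  | succ k ih =>
    rw [mem_mon] at hβ
    obtain ⟨c, hc, hcs⟩ := sb_part d β (by rw [hβ]; exact Nat.le_mul_of_pos_right _ (by omega))
    have h1 : (fun i => β i - c i) ∈ mon n (d * k) := by
      rw [mem_mon]
      have : ∑ i, (β i - c i) + ∑ i, c i = ∑ i, β i := by
        rw [← Finset.sum_add_distrib]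
        exact Finset.sum_congr rfl fun i _ => Nat.sub_add_cancel (hc i)
      rw [hβ, hcs, Nat.mul_succ] at this
      omega
    obtain ⟨α, hα, hαs⟩ := ih h1
    refine ⟨Fin.cons c α, fun t => ?_, ?_⟩
    · refine Fin.cases ?_ (fun s => ?_) t
      · rw [Fin.cons_zero, mem_mon]
        exact hcs
      · rw [Fin.cons_succ]
        exact hα s
    · rw [Fin.sum_univ_succ, Fin.cons_zero]
      simp only [Fin.cons_succ]
      rw [hαs]
      funext i
      exact Nat.add_sub_cancel' (hc i)

omit [CharZero K] in
private theorem sc_xm {k : ℕ} (α : Fin k → (Fin n → ℕ)) :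
    ∏ t, xm K (α t) = xm K (∑ t, α t) := by
  classical
  unfold xm
  induction k with
  | zero =>
    simp only [Finset.univ_eq_empty, Finset.prod_empty, Finset.sum_empty]
    have : Finsupp.equivFunOnFinite.symm (0 : Fin n → ℕ) = 0 := by
      ext
      simp
    rw [this]
    rfl
  | succ k ih =>
    rw [Fin.prod_univ_succ, Fin.sum_univ_succ, ih, MvPolynomial.monomial_mul, one_mul]
    congr 2
    ext i
    simp

/-- sc: from sa and sb. -/
theorem hom_le_span_pow (d k : ℕ) : MvPolynomial.homogeneousSubmodule (Fin n) K (d * k) ≤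
    Submodule.span K {f | ∃ g : MvPolynomial (Fin n) K, g.IsHomogeneous d ∧ f = g ^ k} := by
  classical
  rw [← span_xm, Submodule.span_le]
  rintro _ ⟨β, hβ, rfl⟩
  by_contra hne
  obtain ⟨L, hL1, hL2⟩ := Submodule.exists_le_ker_of_notMem hne
  obtain ⟨α, hα, hαs⟩ := exists_sum_eq d k hβ
  refine hL1 ?_
  rw [← hαs, ← sc_xm]
  refine polar (MvPolynomial.homogeneousSubmodule (Fin n) K d) k L (fun g hg => ?_) _
    (fun t => xm_homogeneous (hα t))
  have : g ^ k ∈ Submodule.span K
      {f | ∃ g : MvPolynomial (Fin n) K, g.IsHomogeneous d ∧ f = g ^ k} :=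
    Submodule.subset_span ⟨g, hg, rfl⟩
  exact hL2 this

/-- sd: from sc. -/
theorem exists_pow (K : Type) [Field K] [CharZero K] (n d k r : ℕ) :
    ∃ g : Fin r → MvPolynomial (Fin n) K, (∀ i, (g i).IsHomogeneous d) ∧
      min r (mon n (d * k)).card ≤ Module.finrank K (mspan 0 fun i => g i ^ k) := by
  classical
  set S : Set (MvPolynomial (Fin n) K) := {f | ∃ g : MvPolynomial (Fin n) K,
    g.IsHomogeneous d ∧ f = g ^ k} with hS
  have hle := hom_le_span_pow (n := n) (K := K) d k
  have hle' : Submodule.span K S ≤ MvPolynomial.homogeneousSubmodule (Fin n) K (d * k) := by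
    rw [Submodule.span_le]
    rintro _ ⟨g, hg, rfl⟩
    exact hg.pow k
  have heq : Submodule.span K S = MvPolynomial.homogeneousSubmodule (Fin n) K (d * k) :=
    le_antisymm hle' hle
  obtain ⟨hfr, hfin⟩ := finrank_hom (n := n) (K := K) (d * k)
  obtain ⟨b, hbS, hbspan, hbli⟩ := exists_linearIndependent K S
  rw [heq] at hbspan
  have hT : ∃ T : Finset (MvPolynomial (Fin n) K), (T : Set _) ⊆ b ∧
      T.card = (mon n (d * k)).card := by
    by_cases hfb : b.Finite
    · refine ⟨hfb.toFinset, by simp, ?_⟩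
      have : Fintype b := hfb.fintype
      have h1 := finrank_span_set_eq_card hbli
      rw [hbspan, hfr] at h1
      rw [h1]
      congr 1
      ext x
      simp
    · obtain ⟨T, hT1, hT2⟩ := (show b.Infinite from hfb).exists_subset_card_eq
        (mon n (d * k)).card
      exact ⟨T, hT1, hT2⟩
  obtain ⟨T, hTb, hTc⟩ := hT
  obtain ⟨T', hT', hTc'⟩ := Finset.exists_subset_card_eq
    (show min r (mon n (d * k)).card ≤ T.card by rw [hTc]; exact min_le_right _ _)
  have e : Fin (min r (mon n (d * k)).card) ≃ T' := (T'.equivFinOfCardEq hTc').symm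
  have hTS : ∀ x : T', ∃ g : MvPolynomial (Fin n) K, g.IsHomogeneous d ∧ x.1 = g ^ k :=
    fun x => hbS (hTb (hT' x.2))
  choose G hG1 hG2 using hTS
  refine ⟨fun i => if h : i.1 < min r (mon n (d * k)).card then G (e ⟨i.1, h⟩) else 0, ?_, ?_⟩
  · intro i
    by_cases h : i.1 < min r (mon n (d * k)).card
    · simp only [h, dif_pos]
      exact hG1 _
    · simp only [h, dif_neg, not_false_eq_true]
      exact MvPolynomial.isHomogeneous_zero _ _ _
  · set g : Fin r → MvPolynomial (Fin n) K :=
      fun i => if h : i.1 < min r (mon n (d * k)).card then G (e ⟨i.1, h⟩) else 0 with hg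
    have hgh : ∀ i, (g i).IsHomogeneous d := by
      intro i
      by_cases h : i.1 < min r (mon n (d * k)).card
      · simp only [hg, h, dif_pos]
        exact hG1 _
      · simp only [hg, h, dif_neg, not_false_eq_true]
        exact MvPolynomial.isHomogeneous_zero _ _ _
    have h0 : (0 : Fin n → ℕ) ∈ mon n 0 := by
      rw [mem_mon]
      simp
    have hx0 : xm K (0 : Fin n → ℕ) = 1 := by
      unfold xm
      have : Finsupp.equivFunOnFinite.symm (0 : Fin n → ℕ) = 0 := by
        ext
        simp
      rw [this]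
      rfl
    have hms : mspan 0 (fun i => g i ^ k) ≤
        MvPolynomial.homogeneousSubmodule (Fin n) K (d * k) := by
      unfold mspan
      rw [Submodule.span_le]
      rintro _ ⟨i, α, hα, rfl⟩
      have h1 : (xm K α).IsHomogeneous 0 := xm_homogeneous hα
      have := h1.mul ((hgh i).pow k)
      rwa [Nat.zero_add] at this
    have hsp : Submodule.span K (T' : Set (MvPolynomial (Fin n) K)) ≤
        mspan 0 (fun i => g i ^ k) := by
      rw [Submodule.span_le]
      intro x hx
      have hlt := (e.symm ⟨x, hx⟩).2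
      refine Submodule.subset_span ⟨⟨(e.symm ⟨x, hx⟩).1, lt_of_lt_of_le hlt (min_le_left _ _)⟩,
        0, h0, ?_⟩
      rw [hx0, one_mul]
      simp only [hg, hlt, dif_pos]
      have h2 : (⟨(e.symm ⟨x, hx⟩).1, hlt⟩ : Fin (min r (mon n (d * k)).card)) =
        e.symm ⟨x, hx⟩ := rfl
      rw [h2, Equiv.apply_symm_apply, ← hG2]
    have hli : LinearIndependent K (fun x : (T' : Set (MvPolynomial (Fin n) K)) =>
        (x : MvPolynomial (Fin n) K)) :=
      LinearIndepOn.mono (v := id) hbli (Set.Subset.trans (Finset.coe_subset.2 hT') hTb)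
    have h3 := finrank_span_set_eq_card (s := (T' : Set (MvPolynomial (Fin n) K))) hli
    have h4 : (T' : Set (MvPolynomial (Fin n) K)).toFinset = T' := by
      ext x
      simp
    rw [h4, hTc'] at h3
    rw [← h3]
    have : Module.Finite K (mspan 0 (fun i => g i ^ k)) :=
      Submodule.finiteDimensional_of_le hms
    exact Submodule.finrank_mono hsp

end Pool.Agent.Nks
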