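import Pool.Agent.Nks.Ex
import Pool.Agent.Nks.Open
import Pool.Agent.Nks.Span

/-!
# The theorem
-/

set_option autoImplicit false

namespace Pool.Agent.Nks

open Finset

private theorem card_mon_pos {n : ℕ} (hn : 1 ≤ n) (t : ℕ) : 0 < (mon n t).card := by
  have h : (mon n 0).Nonempty := ⟨0, by simp [mem_mon]⟩
  exact (card_pos.2 h).trans_le (card_mon_mono hn (Nat.zero_le t))

private theorem ipart_le {n d k r : ℕ} {K : Type} [Field K] (j : ℕ)
    (h : Fin r → MvPolynomial (Fin n) K) (hh : ∀ i, (h i).IsHomogeneous (d * k)) :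
    Module.finrank K (ipart (d * k + j) h) ≤
      min (r * (mon n j).card) (mon n (d * k + j)).card := by
  refine le_min ?_ (finrank_ipart_le _ _)
  rw [ipart_eq (d * k) j h hh]
  have := finrank_mspan_le j h
  rwa [Fintype.card_fin] at this

private theorem pow_hom {n d r : ℕ} (k : ℕ) {K : Type} [Field K]
    {g : Fin r → MvPolynomial (Fin n) K} (hg : ∀ i, (g i).IsHomogeneous d) :
    ∀ i, (g i ^ k).IsHomogeneous (d * k) := fun i => (hg i).pow k

private theorem open_eq {n d k r : ℕ} {K : Type} [Field K] (j : ℕ)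
    (h : ∃ g : Fin r → MvPolynomial (Fin n) K, (∀ i, (g i).IsHomogeneous d) ∧
      min (r * (mon n j).card) (mon n (d * k + j)).card ≤
        Module.finrank K (mspan j fun i => g i ^ k)) :
    ∃ P : MvPolynomial (Fin r × (Fin n →₀ ℕ)) K,
      (∃ g₀ : Fin r → MvPolynomial (Fin n) K, (∀ i, (g₀ i).IsHomogeneous d) ∧
        MvPolynomial.eval (cf g₀) P ≠ 0) ∧
      ∀ g : Fin r → MvPolynomial (Fin n) K, (∀ i, (g i).IsHomogeneous d) →
        MvPolynomial.eval (cf g) P ≠ 0 →
        Module.finrank K (ipart (d * k + j) fun i => g i ^ k) =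
          min (r * (mon n j).card) (mon n (d * k + j)).card := by
  obtain ⟨g₀, hg₀, hR⟩ := h
  obtain ⟨P, hP1, hP2⟩ := exists_poly d k j _ g₀ hg₀ hR
  refine ⟨P, ⟨g₀, hg₀, hP1⟩, ?_⟩
  intro g hg hP
  refine le_antisymm (ipart_le j _ (pow_hom k hg)) ?_
  rw [ipart_eq (d * k) j _ (pow_hom k hg)]
  exact hP2 g hg hP

/-- xc -/
theorem main {n k : ℕ} (hn : 2 ≤ n) (hk : 1 ≤ k) : ∃ C : ℕ, ∀ (K : Type) [Field K] [CharZero K]
    (d r : ℕ),
    (∀ j, C * (j + 1) ≤ d → ∃ P : MvPolynomial (Fin r × (Fin n →₀ ℕ)) K,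
      (∃ g₀ : Fin r → MvPolynomial (Fin n) K, (∀ i, (g₀ i).IsHomogeneous d) ∧
        MvPolynomial.eval (cf g₀) P ≠ 0) ∧
      ∀ g : Fin r → MvPolynomial (Fin n) K, (∀ i, (g i).IsHomogeneous d) →
        MvPolynomial.eval (cf g) P ≠ 0 →
        Module.finrank K (ipart (d * k + j) fun i => g i ^ k) =
          min (r * (mon n j).card) (mon n (d * k + j)).card) ∧
    (C ≤ r → ∃ P : MvPolynomial (Fin r × (Fin n →₀ ℕ)) K,
      (∃ g₀ : Fin r → MvPolynomial (Fin n) K, (∀ i, (g₀ i).IsHomogeneous d) ∧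
        MvPolynomial.eval (cf g₀) P ≠ 0) ∧
      ∀ g : Fin r → MvPolynomial (Fin n) K, (∀ i, (g i).IsHomogeneous d) →
        MvPolynomial.eval (cf g) P ≠ 0 →
        (∀ j, Module.finrank K (ipart (d * k + j) fun i => g i ^ k) =
          min (r * (mon n j).card) (mon n (d * k + j)).card) ∧
        ∀ h : Fin r → MvPolynomial (Fin n) K, (∀ i, (h i).IsHomogeneous (d * k)) → ∀ t,
          Module.finrank K (ipart t h) ≤ Module.finrank K (ipart t fun i => g i ^ k)) := by
  classical
  have hn1 : 1 ≤ n := by omega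
  obtain ⟨K₀, hK₀⟩ := exists_forms hn hk
  obtain ⟨c, hc⟩ : ∃ c, c = 2 * k * (K₀ + 1) := ⟨_, rfl⟩
  have hc1 : 1 ≤ c := by
    rw [hc]
    exact Nat.mul_pos (by omega) (by omega)
  refine ⟨(c + 1) ^ (n - 1) + K₀, ?_⟩
  intro K _ _ d r
  refine ⟨?_, ?_⟩
  · intro j hj
    exact open_eq j (hK₀ K d j r ((Nat.mul_le_mul_right _ (Nat.le_add_left _ _)).trans hj))
  intro hr
  have hr1 : (c + 1) ^ (n - 1) ≤ r := (Nat.le_add_right _ _).trans hr
  have hex : ∃ j, (mon n (d * k + j)).card ≤ r * (mon n j).card := by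
    refine ⟨d * k, ?_⟩
    have h0 : d * k ≤ c * (d * k + 1) := by
      have := Nat.mul_le_mul_right (d * k + 1) hc1
      omega
    have h1 := card_mon_ratio_le hn1 (d * k) (d * k) c h0
    exact h1.trans (Nat.mul_le_mul_right _ hr1)
  obtain ⟨J, hJ1, hJ2⟩ : ∃ J, (mon n (d * k + J)).card ≤ r * (mon n J).card ∧
      ∀ j < J, ¬ (mon n (d * k + j)).card ≤ r * (mon n j).card :=
    ⟨Nat.find hex, Nat.find_spec hex, fun j hj => Nat.find_min hex hj⟩
  have hJd : J ≠ 0 → K₀ * (J + 1) ≤ d := by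
    intro hJ0
    by_contra hlt
    obtain ⟨J', rfl⟩ : ∃ J', J = J' + 1 := ⟨J - 1, by omega⟩
    apply hJ2 J' (Nat.lt_succ_self _)
    have h1 : d * k ≤ c * (J' + 1) := by
      rw [hc]
      have h2 : d ≤ 2 * (K₀ + 1) * (J' + 1) := by nlinarith
      calc d * k ≤ 2 * (K₀ + 1) * (J' + 1) * k := Nat.mul_le_mul_right _ h2
        _ = 2 * k * (K₀ + 1) * (J' + 1) := by ring
    exact (card_mon_ratio_le hn1 (d * k) J' c h1).trans (Nat.mul_le_mul_right _ hr1)
  have hforms : ∀ j ≤ J, ∃ g : Fin r → MvPolynomial (Fin n) K, (∀ i, (g i).IsHomogeneous d) ∧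
      min (r * (mon n j).card) (mon n (d * k + j)).card ≤
        Module.finrank K (mspan j fun i => g i ^ k) := by
    intro j hj
    rcases Nat.eq_zero_or_pos J with h0 | h0
    · have hj0 : j = 0 := by omega
      subst hj0
      obtain ⟨g, hg1, hg2⟩ := exists_pow K n d k r
      refine ⟨g, hg1, ?_⟩
      have h1 : (mon n 0).card = 1 := by
        rw [card_mon hn1]
        simp
      rw [h1, mul_one, add_zero]
      exact hg2
    · refine hK₀ K d j r ((Nat.mul_le_mul_left _ (by omega)).trans (hJd (by omega)))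
  have hP : ∀ j, ∃ P : MvPolynomial (Fin r × (Fin n →₀ ℕ)) K, j ≤ J →
      (∃ g₀ : Fin r → MvPolynomial (Fin n) K, (∀ i, (g₀ i).IsHomogeneous d) ∧
        MvPolynomial.eval (cf g₀) P ≠ 0) ∧
      ∀ g : Fin r → MvPolynomial (Fin n) K, (∀ i, (g i).IsHomogeneous d) →
        MvPolynomial.eval (cf g) P ≠ 0 →
        Module.finrank K (ipart (d * k + j) fun i => g i ^ k) =
          min (r * (mon n j).card) (mon n (d * k + j)).card := by
    intro j
    by_cases hj : j ≤ J
    · obtain ⟨P, hP⟩ := open_eq j (hforms j hj)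
      exact ⟨P, fun _ => hP⟩
    · exact ⟨0, fun h => absurd h hj⟩
  choose P hP using hP
  obtain ⟨g₀, hg₀, hg₀P⟩ := exists_common (K := K) (ι := Fin r) (n := n) d (J + 1) P
    (fun t ht => (hP t (by omega)).1)
  refine ⟨∏ t ∈ range (J + 1), P t, ⟨g₀, hg₀, hg₀P⟩, ?_⟩
  intro g hg hgP
  rw [map_prod, Finset.prod_ne_zero_iff] at hgP
  have hlow : ∀ j ≤ J, Module.finrank K (ipart (d * k + j) fun i => g i ^ k) =
      min (r * (mon n j).card) (mon n (d * k + j)).card := by
    intro j hj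
    exact (hP j hj).2 g hg (hgP j (Finset.mem_range.2 (by omega)))
  have hall : ∀ j, Module.finrank K (ipart (d * k + j) fun i => g i ^ k) =
      min (r * (mon n j).card) (mon n (d * k + j)).card := by
    intro j
    rcases le_or_gt j J with hj | hj
    · exact hlow j hj
    · have h1 := hlow J le_rfl
      rw [min_eq_right hJ1] at h1
      rw [ipart_full hn1 (by omega : d * k + J ≤ d * k + j) _ h1.ge]
      have h2 := card_mon_ratio hn1 (d * k) J j hj.le
      have h3 : (mon n (d * k + j)).card * (mon n J).card ≤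
          (r * (mon n j).card) * (mon n J).card := by
        calc (mon n (d * k + j)).card * (mon n J).card
            ≤ (mon n (d * k + J)).card * (mon n j).card := h2
          _ ≤ (r * (mon n J).card) * (mon n j).card := Nat.mul_le_mul_right _ hJ1
          _ = (r * (mon n j).card) * (mon n J).card := by ring
      rw [min_eq_right (Nat.le_of_mul_le_mul_right h3 (card_mon_pos hn1 J))]
  refine ⟨hall, ?_⟩
  intro h hh t
  rcases lt_or_ge t (d * k) with ht | ht
  · rw [ipart_low (d * k) t ht h hh, finrank_bot]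
    exact Nat.zero_le _
  · obtain ⟨j, rfl⟩ := Nat.exists_eq_add_of_le ht
    rw [hall j]
    exact ipart_le j h hh

end Pool.Agent.Nks
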