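import Pool.Agent.Nks.ExE
import Pool.Agent.Nks.Open
import Pool.Agent.Nks.Span

/-!
# The theorem with explicit constants
-/

set_option autoImplicit false

namespace Pool.Agent.Nks

open Finset

private theorem card_mon_pos {n : ℕ} (hn : 1 ≤ n) (t : ℕ) : 0 < (mon n t).card := by
  have h : (mon n 0).Nonempty := ⟨0, by simp [mem_mon]⟩
  exact (card_pos.2 h).trans_le (card_mon_mono hn (Nat.zero_le t))

private theorem ipart_le {n d k r : ℕ} {K : Type} [Field K] (j : ℕ)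
    (h : Fin r → MvPolynomial (Fin n) K) (hh : ∀ i, (h i).IsHomogeneous (d * k)) :
    Module.finrank K (ipart (d * k + j) h) ≤
      min (r * (mon n j).card) (mon n (d * k + j)).card := by
  refine le_min ?_ (finrank_ipart_le _ _)
  rw [ipart_eq (d * k) j h hh]
  have := finrank_mspan_le j h
  rwa [Fintype.card_fin] at this

private theorem pow_hom {n d r : ℕ} (k : ℕ) {K : Type} [Field K]
    {g : Fin r → MvPolynomial (Fin n) K} (hg : ∀ i, (g i).IsHomogeneous d) :
    ∀ i, (g i ^ k).IsHomogeneous (d * k) := fun i => (hg i).pow k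

private theorem open_eq {n d k r : ℕ} {K : Type} [Field K] (j : ℕ)
    (h : ∃ g : Fin r → MvPolynomial (Fin n) K, (∀ i, (g i).IsHomogeneous d) ∧
      min (r * (mon n j).card) (mon n (d * k + j)).card ≤
        Module.finrank K (mspan j fun i => g i ^ k)) :
    ∃ P : MvPolynomial (Fin r × (Fin n →₀ ℕ)) K,
      (∃ g₀ : Fin r → MvPolynomial (Fin n) K, (∀ i, (g₀ i).IsHomogeneous d) ∧
        MvPolynomial.eval (cf g₀) P ≠ 0) ∧
      ∀ g : Fin r → MvPolynomial (Fin n) K, (∀ i, (g i).IsHomogeneous d) →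
        MvPolynomial.eval (cf g) P ≠ 0 →
        Module.finrank K (ipart (d * k + j) fun i => g i ^ k) =
          min (r * (mon n j).card) (mon n (d * k + j)).card := by
  obtain ⟨g₀, hg₀, hR⟩ := h
  obtain ⟨P, hP1, hP2⟩ := exists_poly d k j _ g₀ hg₀ hR
  refine ⟨P, ⟨g₀, hg₀, hP1⟩, ?_⟩
  intro g hg hP
  refine le_antisymm (ipart_le j _ (pow_hom k hg)) ?_
  rw [ipart_eq (d * k) j _ (pow_hom k hg)]
  exact hP2 g hg hP

/-- The constant is at most `(6 n k) ^ (3 n)`. -/
theorem KK_le {n k : ℕ} (hn : 2 ≤ n) (hk : 1 ≤ k) : KK n k + 1 ≤ (6 * n * k) ^ (3 * n) := by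
  obtain ⟨Y, hY⟩ : ∃ Y, Y = 3 * n * k := ⟨_, rfl⟩
  have hnk : n ≤ n * k := Nat.le_mul_of_pos_right n hk
  have hkn : 2 * k ≤ n * k := Nat.mul_le_mul_right _ hn
  have hY' : Y = 3 * (n * k) := by rw [hY]; ring
  have hY6 : 6 ≤ Y := by omega
  obtain ⟨A, hA⟩ : ∃ A, A = Y ^ (n - 1) := ⟨_, rfl⟩
  obtain ⟨T, hT⟩ : ∃ T, T = Y ^ (3 * n - 1) := ⟨_, rfl⟩
  have hA1 : 1 ≤ A := by
    rw [hA]
    exact Nat.one_le_pow _ _ (by omega)
  have hNN : NN n k ≤ A := by
    rw [hA]
    refine (card_mon_le (by omega) _).trans (Nat.pow_le_pow_left ?_ _)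
    have : 2 * n * k = 2 * (n * k) := by ring
    omega
  have hf : (n - 1).factorial ≤ A := by
    rw [hA]
    exact (Nat.factorial_le_pow _).trans (Nat.pow_le_pow_left (by omega) _)
  have hA3 : A * A * A ≤ T := by
    rw [hA, hT, ← pow_add, ← pow_add]
    exact Nat.pow_le_pow_right (by omega) (by omega)
  have hA2 : A * A ≤ T := (Nat.le_mul_of_pos_right _ hA1).trans hA3
  have hYA : Y * A ≤ T := by
    rw [hA, hT, ← pow_succ']
    exact Nat.pow_le_pow_right (by omega) (by omega)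
  have hAY : A * A * Y ^ (n + 1) = T := by
    rw [hA, hT, ← pow_add, ← pow_add]
    congr 1
    omega
  have hY3 : Y ^ 3 ≤ T := by
    rw [hT]
    exact Nat.pow_le_pow_right (by omega) (by omega)
  have hYT : Y ≤ T := by
    calc Y = Y ^ 1 := (pow_one _).symm
      _ ≤ T := by
        rw [hT]
        exact Nat.pow_le_pow_right (by omega) (by omega)
  have k1 : 2 * ((NN n k ^ 2 + NN n k) * (n - 1).factorial) ≤ 4 * T := by
    have h1 : NN n k ^ 2 + NN n k ≤ 2 * (A * A) := by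
      have h2 : NN n k * NN n k ≤ A * A := Nat.mul_le_mul hNN hNN
      have h3 : A ≤ A * A := Nat.le_mul_of_pos_right _ hA1
      rw [sq]
      omega
    calc 2 * ((NN n k ^ 2 + NN n k) * (n - 1).factorial) ≤ 2 * ((2 * (A * A)) * A) :=
          Nat.mul_le_mul_left _ (Nat.mul_le_mul h1 hf)
      _ = 4 * (A * A * A) := by ring
      _ ≤ 4 * T := Nat.mul_le_mul_left _ hA3
  have hfN : (n - 1).factorial * NN n k ≤ A * A := Nat.mul_le_mul hf hNN
  have k2 : (n - 1).factorial * NN n k * (3 * (6 * n) ^ (n + 1) + 3) ≤ 12 * 2 ^ n * T := by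
    have h1 : (6 * n) ^ (n + 1) ≤ (2 * Y) ^ (n + 1) := Nat.pow_le_pow_left (by omega) _
    have h2 : 1 ≤ (2 * Y) ^ (n + 1) := Nat.one_le_pow _ _ (by omega)
    calc (n - 1).factorial * NN n k * (3 * (6 * n) ^ (n + 1) + 3)
        ≤ (A * A) * (6 * (2 * Y) ^ (n + 1)) := Nat.mul_le_mul hfN (by omega)
      _ = 12 * 2 ^ n * (A * A * Y ^ (n + 1)) := by
        rw [mul_pow, pow_succ 2 n]
        ring
      _ = 12 * 2 ^ n * T := by rw [hAY]
  have k3 : (n - 1).factorial * NN n k * (7 + 3) + 4 * ((n - 1) * NN n k) + 1 ≤ 15 * T := by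
    have h1 : (n - 1).factorial * NN n k * (7 + 3) ≤ A * A * 10 := Nat.mul_le_mul hfN le_rfl
    have h2 : (n - 1) * NN n k ≤ Y * A := Nat.mul_le_mul (by omega) hNN
    omega
  have k4 : 4 * k * (2 * n * k) ^ 2 ≤ T := by
    refine le_trans ?_ hY3
    have h1 : 4 * k * (2 * n * k) ^ 2 = 16 * k * (n * k) ^ 2 := by ring
    have h2 : Y ^ 3 = 27 * (n * k) * (n * k) ^ 2 := by rw [hY']; ring
    rw [h1, h2]
    exact Nat.mul_le_mul_right _ (by omega)
  have k5 : n + 1 ≤ T := by omega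
  have h8 : 21 + 12 * 2 ^ n ≤ 8 ^ n * Y := by
    have e8 : (8 : ℕ) ^ n = 4 ^ n * 2 ^ n := by
      rw [← mul_pow]
      norm_num
    have h4 : 16 ≤ 4 ^ n := by
      calc 16 = 4 ^ 2 := by norm_num
        _ ≤ 4 ^ n := Nat.pow_le_pow_right (by norm_num) hn
    have h2 : 4 ≤ 2 ^ n := by
      calc 4 = 2 ^ 2 := by norm_num
        _ ≤ 2 ^ n := Nat.pow_le_pow_right (by norm_num) hn
    have h3 : 16 * 2 ^ n ≤ 8 ^ n := by
      rw [e8]
      exact Nat.mul_le_mul_right _ h4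
    have h5 : 8 ^ n * 6 ≤ 8 ^ n * Y := Nat.mul_le_mul_left _ hY6
    omega
  have hfin : (21 + 12 * 2 ^ n) * T ≤ (6 * n * k) ^ (3 * n) := by
    calc (21 + 12 * 2 ^ n) * T ≤ (8 ^ n * Y) * T := Nat.mul_le_mul_right _ h8
      _ = (6 * n * k) ^ (3 * n) := by
        have e1 : 6 * n * k = 2 * Y := by rw [hY]; ring
        have e2 : Y ^ (3 * n) = Y * T := by
          rw [hT, ← pow_succ']
          congr 1
          omega
        have e3 : (2 : ℕ) ^ (3 * n) = 8 ^ n := by
          rw [pow_mul]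
          norm_num
        rw [e1, mul_pow, e2, e3]
        ring
  refine le_trans ?_ hfin
  have e : (21 + 12 * 2 ^ n) * T = 21 * T + 12 * 2 ^ n * T := by ring
  rw [e]
  unfold KK
  omega

/-- The second constant is at most `(6 n k) ^ (3 n ^ 2)`. -/
theorem CC_le {n k : ℕ} (hn : 2 ≤ n) (hk : 1 ≤ k) :
    (2 * k * (KK n k + 1) + 1) ^ (n - 1) ≤ (6 * n * k) ^ (3 * n ^ 2) := by
  obtain ⟨X, hX⟩ : ∃ X, X = 6 * n * k := ⟨_, rfl⟩
  have h1 := KK_le hn hk
  rw [← hX] at h1 ⊢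
  have hX6 : 6 * (2 * k) ≤ X := by
    rw [hX]
    calc 6 * (2 * k) = 6 * 2 * k := by ring
      _ ≤ 6 * n * k := Nat.mul_le_mul_right _ (Nat.mul_le_mul_left _ hn)
  have hP : 1 ≤ X ^ (3 * n) := Nat.one_le_pow _ _ (by omega)
  have h2 : 2 * k * (KK n k + 1) + 1 ≤ X ^ (3 * n + 1) := by
    calc 2 * k * (KK n k + 1) + 1 ≤ 2 * k * X ^ (3 * n) + X ^ (3 * n) :=
          Nat.add_le_add (Nat.mul_le_mul_left _ h1) hP
      _ = (2 * k + 1) * X ^ (3 * n) := by ring
      _ ≤ X * X ^ (3 * n) := Nat.mul_le_mul_right _ (by omega)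
      _ = X ^ (3 * n + 1) := (pow_succ' _ _).symm
  calc (2 * k * (KK n k + 1) + 1) ^ (n - 1) ≤ (X ^ (3 * n + 1)) ^ (n - 1) :=
        Nat.pow_le_pow_left h2 _
    _ = X ^ ((3 * n + 1) * (n - 1)) := by rw [← pow_mul]
    _ ≤ X ^ (3 * n ^ 2) := by
      apply Nat.pow_le_pow_right (by omega)
      obtain ⟨m, rfl⟩ : ∃ m, n = m + 1 := ⟨n - 1, by omega⟩
      rw [Nat.add_sub_cancel]
      nlinarith

/-- xc -/
theorem main_e {n k : ℕ} (hn : 2 ≤ n) (hk : 1 ≤ k) (K : Type) [Field K] [CharZero K]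
    (d r : ℕ) :
    (∀ j, (6 * n * k) ^ (3 * n) * (j + 1) ≤ d → ∃ P : MvPolynomial (Fin r × (Fin n →₀ ℕ)) K,
      (∃ g₀ : Fin r → MvPolynomial (Fin n) K, (∀ i, (g₀ i).IsHomogeneous d) ∧
        MvPolynomial.eval (cf g₀) P ≠ 0) ∧
      ∀ g : Fin r → MvPolynomial (Fin n) K, (∀ i, (g i).IsHomogeneous d) →
        MvPolynomial.eval (cf g) P ≠ 0 →
        Module.finrank K (ipart (d * k + j) fun i => g i ^ k) =
          min (r * (mon n j).card) (mon n (d * k + j)).card) ∧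
    ((6 * n * k) ^ (3 * n ^ 2) ≤ r → ∃ P : MvPolynomial (Fin r × (Fin n →₀ ℕ)) K,
      (∃ g₀ : Fin r → MvPolynomial (Fin n) K, (∀ i, (g₀ i).IsHomogeneous d) ∧
        MvPolynomial.eval (cf g₀) P ≠ 0) ∧
      ∀ g : Fin r → MvPolynomial (Fin n) K, (∀ i, (g i).IsHomogeneous d) →
        MvPolynomial.eval (cf g) P ≠ 0 →
        (∀ j, Module.finrank K (ipart (d * k + j) fun i => g i ^ k) =
          min (r * (mon n j).card) (mon n (d * k + j)).card) ∧
        ∀ h : Fin r → MvPolynomial (Fin n) K, (∀ i, (h i).IsHomogeneous (d * k)) → ∀ t,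
          Module.finrank K (ipart t h) ≤ Module.finrank K (ipart t fun i => g i ^ k)) := by
  classical
  have hn1 : 1 ≤ n := by omega
  obtain ⟨K₀, hK⟩ : ∃ K₀, K₀ = KK n k := ⟨_, rfl⟩
  have hK₀ : ∀ (d j r : ℕ), K₀ * (j + 1) ≤ d →
      ∃ g : Fin r → MvPolynomial (Fin n) K, (∀ i, (g i).IsHomogeneous d) ∧
        min (r * (mon n j).card) (mon n (d * k + j)).card ≤
          Module.finrank K (mspan j fun i => g i ^ k) := by
    intro d j r hd
    rw [hK] at hd
    exact exists_forms_e hn hk K d j r hd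
  obtain ⟨c, hc⟩ : ∃ c, c = 2 * k * (K₀ + 1) := ⟨_, rfl⟩
  have hc1 : 1 ≤ c := by
    rw [hc]
    exact Nat.mul_pos (by omega) (by omega)
  refine ⟨?_, ?_⟩
  · intro j hj
    refine open_eq j (hK₀ d j r (le_trans (Nat.mul_le_mul_right _ ?_) hj))
    rw [hK]
    exact (Nat.le_succ _).trans (KK_le hn hk)
  intro hr
  have hr1 : (c + 1) ^ (n - 1) ≤ r := by
    refine le_trans ?_ hr
    rw [hc, hK]
    exact CC_le hn hk
  have hex : ∃ j, (mon n (d * k + j)).card ≤ r * (mon n j).card := by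
    refine ⟨d * k, ?_⟩
    have h0 : d * k ≤ c * (d * k + 1) := by
      have := Nat.mul_le_mul_right (d * k + 1) hc1
      omega
    have h1 := card_mon_ratio_le hn1 (d * k) (d * k) c h0
    exact h1.trans (Nat.mul_le_mul_right _ hr1)
  obtain ⟨J, hJ1, hJ2⟩ : ∃ J, (mon n (d * k + J)).card ≤ r * (mon n J).card ∧
      ∀ j < J, ¬ (mon n (d * k + j)).card ≤ r * (mon n j).card :=
    ⟨Nat.find hex, Nat.find_spec hex, fun j hj => Nat.find_min hex hj⟩
  have hJd : J ≠ 0 → K₀ * (J + 1) ≤ d := by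
    intro hJ0
    by_contra hlt
    obtain ⟨J', rfl⟩ : ∃ J', J = J' + 1 := ⟨J - 1, by omega⟩
    apply hJ2 J' (Nat.lt_succ_self _)
    have h1 : d * k ≤ c * (J' + 1) := by
      rw [hc]
      have h2 : d ≤ 2 * (K₀ + 1) * (J' + 1) := by nlinarith
      calc d * k ≤ 2 * (K₀ + 1) * (J' + 1) * k := Nat.mul_le_mul_right _ h2
        _ = 2 * k * (K₀ + 1) * (J' + 1) := by ring
    exact (card_mon_ratio_le hn1 (d * k) J' c h1).trans (Nat.mul_le_mul_right _ hr1)
  have hforms : ∀ j ≤ J, ∃ g : Fin r → MvPolynomial (Fin n) K, (∀ i, (g i).IsHomogeneous d) ∧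
      min (r * (mon n j).card) (mon n (d * k + j)).card ≤
        Module.finrank K (mspan j fun i => g i ^ k) := by
    intro j hj
    rcases Nat.eq_zero_or_pos J with h0 | h0
    · have hj0 : j = 0 := by omega
      subst hj0
      obtain ⟨g, hg1, hg2⟩ := exists_pow K n d k r
      refine ⟨g, hg1, ?_⟩
      have h1 : (mon n 0).card = 1 := by
        rw [card_mon hn1]
        simp
      rw [h1, mul_one, add_zero]
      exact hg2
    · refine hK₀ d j r ((Nat.mul_le_mul_left _ (by omega)).trans (hJd (by omega)))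
  have hP : ∀ j, ∃ P : MvPolynomial (Fin r × (Fin n →₀ ℕ)) K, j ≤ J →
      (∃ g₀ : Fin r → MvPolynomial (Fin n) K, (∀ i, (g₀ i).IsHomogeneous d) ∧
        MvPolynomial.eval (cf g₀) P ≠ 0) ∧
      ∀ g : Fin r → MvPolynomial (Fin n) K, (∀ i, (g i).IsHomogeneous d) →
        MvPolynomial.eval (cf g) P ≠ 0 →
        Module.finrank K (ipart (d * k + j) fun i => g i ^ k) =
          min (r * (mon n j).card) (mon n (d * k + j)).card := by
    intro j
    by_cases hj : j ≤ J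
    · obtain ⟨P, hP⟩ := open_eq j (hforms j hj)
      exact ⟨P, fun _ => hP⟩
    · exact ⟨0, fun h => absurd h hj⟩
  choose P hP using hP
  obtain ⟨g₀, hg₀, hg₀P⟩ := exists_common (K := K) (ι := Fin r) (n := n) d (J + 1) P
    (fun t ht => (hP t (by omega)).1)
  refine ⟨∏ t ∈ range (J + 1), P t, ⟨g₀, hg₀, hg₀P⟩, ?_⟩
  intro g hg hgP
  rw [map_prod, Finset.prod_ne_zero_iff] at hgP
  have hlow : ∀ j ≤ J, Module.finrank K (ipart (d * k + j) fun i => g i ^ k) =
      min (r * (mon n j).card) (mon n (d * k + j)).card := by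
    intro j hj
    exact (hP j hj).2 g hg (hgP j (Finset.mem_range.2 (by omega)))
  have hall : ∀ j, Module.finrank K (ipart (d * k + j) fun i => g i ^ k) =
      min (r * (mon n j).card) (mon n (d * k + j)).card := by
    intro j
    rcases le_or_gt j J with hj | hj
    · exact hlow j hj
    · have h1 := hlow J le_rfl
      rw [min_eq_right hJ1] at h1
      rw [ipart_full hn1 (by omega : d * k + J ≤ d * k + j) _ h1.ge]
      have h2 := card_mon_ratio hn1 (d * k) J j hj.le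
      have h3 : (mon n (d * k + j)).card * (mon n J).card ≤
          (r * (mon n j).card) * (mon n J).card := by
        calc (mon n (d * k + j)).card * (mon n J).card
            ≤ (mon n (d * k + J)).card * (mon n j).card := h2
          _ ≤ (r * (mon n J).card) * (mon n j).card := Nat.mul_le_mul_right _ hJ1
          _ = (r * (mon n j).card) * (mon n J).card := by ring
      rw [min_eq_right (Nat.le_of_mul_le_mul_right h3 (card_mon_pos hn1 J))]
  refine ⟨hall, ?_⟩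
  intro h hh t
  rcases lt_or_ge t (d * k) with ht | ht
  · rw [ipart_low (d * k) t ht h hh, finrank_bot]
    exact Nat.zero_le _
  · obtain ⟨j, rfl⟩ := Nat.exists_eq_add_of_le ht
    rw [hall j]
    exact ipart_le j h hh

end Pool.Agent.Nks
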