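import Pool.Agent.Nks.Defs

/-!
# Ranks
-/

set_option autoImplicit false

namespace Pool.Agent.Nks

open Finset

variable {M F : Type}

/-- ra -/
theorem rk_comm [AddCommMonoid M] [Field F] (A Γ : Finset M) (φ : M → F) :
    rk A Γ φ = rk Γ A φ := by
  unfold rk
  rw [← Matrix.rank_transpose]
  congr 1
  ext γ α
  simp [add_comm]

/-- rb -/
theorem rk_le [AddCommMonoid M] [Field F] (A Γ : Finset M) (φ : M → F) : rk A Γ φ ≤ A.card := by
  unfold rk
  refine (Matrix.rank_le_card_height _).trans ?_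
  rw [Fintype.card_coe]

/-- rc: number of solutions of the linear system. -/
theorem card_zero [AddCommMonoid M] [Field F] [Fintype F] (A Γ : Finset M) (φ : M → F)
    [DecidablePred fun f : M → F => ∀ α ∈ A, ∑ γ ∈ Γ, f γ * φ (α + γ) = 0] :
    ((fs F Γ).filter fun f => ∀ α ∈ A, ∑ γ ∈ Γ, f γ * φ (α + γ) = 0).card *
      Fintype.card F ^ rk A Γ φ = Fintype.card F ^ Γ.card := by
  classical
  obtain ⟨T, hT⟩ : ∃ T, T = Matrix.mulVecLin (Matrix.of fun (α : A) (γ : Γ) => φ (α.1 + γ.1)) :=
    ⟨_, rfl⟩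
  have h1 : ((fs F Γ).filter fun f => ∀ α ∈ A, ∑ γ ∈ Γ, f γ * φ (α + γ) = 0).card =
      (univ.filter fun g : Γ → F => g ∈ LinearMap.ker T).card := by
    refine Finset.card_nbij' (fun f γ => f γ.1)
      (fun g β => if h : β ∈ Γ then g ⟨β, h⟩ else 0) ?_ ?_ ?_ ?_
    · intro f hf
      rw [Finset.mem_coe, Finset.mem_filter] at hf
      rw [Finset.mem_coe, Finset.mem_filter]
      refine ⟨Finset.mem_univ _, ?_⟩
      rw [LinearMap.mem_ker, hT]
      funext α
      rw [Matrix.mulVecLin_apply, Matrix.mulVec, Pi.zero_apply, dotProduct]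
      refine Eq.trans ?_ (hf.2 α.1 α.2)
      rw [← Finset.sum_coe_sort Γ]
      refine Finset.sum_congr rfl fun γ _ => ?_
      rw [Matrix.of_apply, mul_comm]
    · intro g hg
      rw [Finset.mem_coe, Finset.mem_filter] at hg
      rw [Finset.mem_coe, Finset.mem_filter, mem_fs]
      refine ⟨fun β hβ => by simp [hβ], ?_⟩
      intro α hα
      have h2 := hg.2
      rw [LinearMap.mem_ker, hT] at h2
      have h3 := congrFun h2 ⟨α, hα⟩
      rw [Matrix.mulVecLin_apply, Matrix.mulVec, Pi.zero_apply, dotProduct] at h3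
      refine Eq.trans ?_ h3
      rw [← Finset.sum_coe_sort Γ]
      refine Finset.sum_congr rfl fun γ _ => ?_
      rw [Matrix.of_apply, mul_comm]
      simp
    · intro f hf
      rw [Finset.mem_coe, Finset.mem_filter, mem_fs] at hf
      funext β
      by_cases hβ : β ∈ Γ
      · simp [hβ]
      · simp [hβ, hf.1 β hβ]
    · intro g _
      funext γ
      simp
  have h2 : (univ.filter fun g : Γ → F => g ∈ LinearMap.ker T).card =
      Fintype.card F ^ Module.finrank F (LinearMap.ker T) := by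
    rw [← Module.card_eq_pow_finrank (K := F) (V := LinearMap.ker T), ← Fintype.card_subtype]
  have h3 := LinearMap.finrank_range_add_finrank_ker T
  rw [Module.finrank_fintype_fun_eq_card, Fintype.card_coe] at h3
  have h4 : rk A Γ φ = Module.finrank F (LinearMap.range T) := by
    rw [hT]
    rfl
  rw [h1, h2, ← pow_add, h4, add_comm, h3]

/-- rd -/
theorem exists_rel [AddCommMonoid M] [Field F] (A Γ : Finset M) (φ : M → F)
    (h : rk A Γ φ < A.card) :
    ∃ x : M → F, (∃ α ∈ A, x α ≠ 0) ∧ ∀ γ ∈ Γ, ∑ α ∈ A, x α * φ (α + γ) = 0 := by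
  classical
  have h1 : ¬ LinearIndependent F (Matrix.of fun (α : A) (γ : Γ) => φ (α.1 + γ.1)).row := by
    intro hli
    have := LinearIndependent.rank_matrix hli
    unfold rk at h
    rw [this, Fintype.card_coe] at h
    exact lt_irrefl _ h
  rw [Fintype.not_linearIndependent_iff] at h1
  obtain ⟨g, hg, α, hα⟩ := h1
  refine ⟨fun β => if hβ : β ∈ A then g ⟨β, hβ⟩ else 0, ⟨α.1, α.2, by simpa using hα⟩, ?_⟩
  intro γ hγ
  have h2 := congrFun hg ⟨γ, hγ⟩
  rw [Finset.sum_apply] at h2
  rw [← Finset.sum_coe_sort]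
  rw [Pi.zero_apply] at h2
  rw [← h2]
  refine Finset.sum_congr rfl fun β _ => ?_
  simp [Matrix.row]

/-- re: the rows with an exponent in `NL` are linearly independent. -/
theorem card_NL_le [AddCommMonoid M] [Field F] (w : M → ℕ) (A Γ : Finset M)
    (hw : Set.InjOn w (A : Set M)) (φ : M → F) : (NL w A Γ φ).card ≤ rk A Γ φ := by
  classical
  unfold rk
  set Mx : Matrix A Γ F := Matrix.of fun (α : A) (γ : Γ) => φ (α.1 + γ.1) with hMx
  have hsub : NL w A Γ φ ⊆ A := fun a ha => (mem_NL.1 ha).1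
  let r : {a // a ∈ NL w A Γ φ} → (Γ → F) := fun a => Mx.row ⟨a.1, hsub a.2⟩
  have hli : LinearIndependent F r := by
    rw [Fintype.linearIndependent_iff]
    intro c hc
    by_contra hne
    push Not at hne
    obtain ⟨a₀, ha₀⟩ := hne
    obtain ⟨a, ha, hmax⟩ := Finset.exists_max_image
      ((Finset.univ : Finset {a // a ∈ NL w A Γ φ}).filter fun a => c a ≠ 0) (fun a => w a.1)
      ⟨a₀, by simp [ha₀]⟩
    rw [Finset.mem_filter] at ha
    have hlead : IsLead w A Γ φ a.1 := by
      refine ⟨fun m => if h : m ∈ NL w A Γ φ then (c a)⁻¹ * c ⟨m, h⟩ else 0, ?_, ?_, ?_⟩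
      · simp [a.2, ha.2]
      · intro α' hα' hlt
        by_cases h : α' ∈ NL w A Γ φ
        · have h0 : c ⟨α', h⟩ = 0 := by
            by_contra h1
            have := hmax ⟨α', h⟩ (by simp [h1])
            simp only at this
            omega
          simp [h, h0]
        · simp [h]
      · intro γ hγ
        have h1 : ∑ α' ∈ A, (if h : α' ∈ NL w A Γ φ then (c a)⁻¹ * c ⟨α', h⟩ else 0) *
            φ (α' + γ) = ∑ α' ∈ NL w A Γ φ,
              (if h : α' ∈ NL w A Γ φ then (c a)⁻¹ * c ⟨α', h⟩ else 0) * φ (α' + γ) := by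
          symm
          refine Finset.sum_subset hsub fun x _ hx => ?_
          simp [hx]
        rw [h1, ← Finset.sum_coe_sort]
        have h2 := congrFun hc ⟨γ, hγ⟩
        rw [Finset.sum_apply] at h2
        have h3 : ∀ x : {a // a ∈ NL w A Γ φ}, (c x • r x) ⟨γ, hγ⟩ = c x * φ (x.1 + γ) := by
          intro x
          rfl
        simp only [h3, Pi.zero_apply] at h2
        calc _ = ∑ x : {a // a ∈ NL w A Γ φ}, (c a)⁻¹ * (c x * φ (x.1 + γ)) := by
              refine Finset.sum_congr rfl fun x _ => ?_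
              simp [x.2, mul_assoc]
          _ = 0 := by rw [← Finset.mul_sum, h2, mul_zero]
    exact (mem_NL.1 a.2).2 hlead
  rw [Matrix.rank_eq_finrank_span_row]
  have h4 := finrank_span_eq_card hli
  rw [Fintype.card_coe] at h4
  rw [← h4]
  refine Submodule.finrank_mono (Submodule.span_mono ?_)
  rintro _ ⟨a, rfl⟩
  exact ⟨_, rfl⟩

end Pool.Agent.Nks
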